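import Mathlib
import Pool.Agent.H451.JL.Stm2

/-!
# Project JLM (helper451): the joint law of several Laplacian systems with marks (abstract part)

`J` is a finite set of vertices (large primes), `α : prs J → F` a uniform random symmetric matrix
(off-diagonal entries only; `F` is the field with three elements). There are `k` weight functions
`w j : J → F` of the form `w j l = W j (μ l)`, where `μ : J → Fin M` are *marks* and `W` is a fixed
table. The `j`-th Laplacian is `(lap (w j) α y) l = ∑_l' w_l w_l' α_{l l'} (y l' - y l)`. A *system* is a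
finite space `L_j` with linear maps `y, b : L_j → (J → F)`, and its solutions are the `p` with
`lap (w j) α (y p) = b p`; there is a trivial solution `o_j`, with `y o_j` the indicator of the support
of `w j`, `b o_j = 0`. If the rows of `W` are pairwise not proportional and all mark classes are large
then the probability that all `k` systems have only the trivial solutions is close to `c9 ^ k`.

Proof: `S_FOU` (Fourier analysis), `S_ISO`, `S_STR`, `S_GRA` (the structure of the unlinked tuples),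
`S_NF` (few non-full ones), `S_MOM`, `S_EX` (the moments), then the moment method as in the project JL
(`Pool/Agent/H451/JL`).
-/

set_option autoImplicit false
set_option linter.unusedVariables false

open scoped Classical

namespace Pool.Agent.H451.JLM

open Finset
open Pool.Agent.Y699.E (ez)
open Pool.Agent.Y703.XK (prs ext c9)
open Pool.Agent.H451.JL (F In mu sT eT Qc)

section defs

variable {J : Type} [Fintype J] [LinearOrder J] {k D M : ℕ}

/-- the support of a weight function -/
def sp (w : J → F) : Finset J := univ.filter fun l => w l ≠ 0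

/-- the weighted Laplacian -/
noncomputable def lap (w : J → F) (α : prs J → F) : (J → F) →ₗ[F] (J → F) where
  toFun y l := ∑ l', w l * w l' * ext α l l' * (y l' - y l)
  map_add' y z := by
    funext l
    simp only [Pi.add_apply]
    rw [← Finset.sum_add_distrib]
    exact Finset.sum_congr rfl fun _ _ => by ring
  map_smul' c y := by
    funext l
    simp only [Pi.smul_apply, smul_eq_mul, RingHom.id_apply]
    rw [Finset.mul_sum]
    exact Finset.sum_congr rfl fun _ _ => by ring

/-- the functions on `J` (one for each `a < D`) which live on the support of the weight of the colour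
`c a` -/
noncomputable def US (w : Fin k → J → F) (c : Fin D → Fin k) : Finset (Fin D → J → F) :=
  univ.filter fun u => ∀ a l, w (c a) l = 0 → u a l = 0

/-- `(y, u)` is unlinked -/
def UL (w : Fin k → J → F) (c : Fin D → Fin k) (y u : Fin D → J → F) : Prop :=
  ∀ l l', ∑ a, w (c a) l * w (c a) l' * (u a l - u a l') * (y a l - y a l') = 0

/-- the sum of the sizes of the supports -/
noncomputable def nn (w : Fin k → J → F) (c : Fin D → Fin k) : ℕ := ∑ a, (sp (w (c a))).card

/-- for each colour `j` the functions `y_a`, `c a = j`, and the indicator of the support of `w j` are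
linearly independent -/
def BY (w : Fin k → J → F) (c : Fin D → Fin k) (y : Fin D → J → F) : Prop :=
  ∀ (j : Fin k) (g : Fin D → F) (γ : F), (∀ a, g a ≠ 0 → c a = j) →
    (∀ l, ∑ a, g a * y a l = if w j l = 0 then 0 else γ) → g = 0

/-- the points of the configuration -/
def zc (y u : Fin D → J → F) (l : J) : Fin D → F × F := fun a => (y a l, u a l)

/-- the weights given by the marks -/
def wt (W : Fin k → Fin M → F) (μ : J → Fin M) (j : Fin k) (l : J) : F := W j (μ l)

/-- the number of the indices alive at a mark -/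
noncomputable def dm (W : Fin k → Fin M → F) (c : Fin D → Fin k) (m : Fin M) : ℕ :=
  (univ.filter fun a : Fin D => W (c a) m ≠ 0).card

/-- the configuration takes the maximal possible number of values on each mark class -/
def Full (W : Fin k → Fin M → F) (μ : J → Fin M) (c : Fin D → Fin k) (y u : Fin D → J → F) : Prop :=
  ∀ m, 3 ^ dm W c m ≤ ((univ.filter fun l => μ l = m).image (zc y u)).card

/-- the rows of the table are not proportional to each other, and not zero -/
def NP (W : Fin k → Fin M → F) : Prop :=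
  (∀ j, ∃ m, W j m ≠ 0) ∧ ∀ i j, i ≠ j → ∀ δ : F, ∃ m, W i m ≠ δ * W j m

/-- `u = A y + e` with an alternating matrix `A` which is zero between different colours -/
def Gr (w : Fin k → J → F) (c : Fin D → Fin k) (y u : Fin D → J → F) : Prop :=
  ∃ (A : Fin D → Fin D → F) (e : Fin D → F), (∀ a a', A a a' ≠ 0 → c a = c a') ∧
    (∀ a a', A a a' = - A a' a) ∧ ∀ a l, w (c a) l ≠ 0 → u a l = ∑ a', A a a' * y a' l + e a

end defs

/-- `k` systems on `J` -/
structure Sys (J : Type) (k : ℕ) where
  L : Fin k → Type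
  [g : ∀ j, AddCommGroup (L j)]
  [m : ∀ j, Module F (L j)]
  [f : ∀ j, Fintype (L j)]
  y : ∀ j, L j →ₗ[F] (J → F)
  b : ∀ j, L j →ₗ[F] (J → F)
  o : ∀ j, L j

attribute [instance] Sys.g Sys.m Sys.f

section sys

variable {J : Type} [Fintype J] [LinearOrder J] {k D : ℕ}

/-- the conditions on the systems -/
structure Sys.OK (s : Sys J k) (w : Fin k → J → F) (m₀ : ℕ) : Prop where
  sy : ∀ j p l, w j l = 0 → s.y j p l = 0
  sb : ∀ j p l, w j l = 0 → s.b j p l = 0
  sum : ∀ j p, ∑ l, s.b j p l = 0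
  sym : ∀ j p q, ∑ l, s.b j p l * s.y j q l = ∑ l, s.b j q l * s.y j p l
  inj : ∀ j p, s.y j p = 0 → s.b j p = 0 → p = 0
  card : ∀ j, Nat.card (s.L j) = 3 ^ (sp (w j)).card
  ker : ∀ j, Nat.card {p : s.L j // s.y j p = 0} ≤ 3 ^ m₀
  oy : ∀ j l, s.y j (s.o j) l = if w j l = 0 then 0 else 1
  ob : ∀ j, s.b j (s.o j) = 0

variable (s : Sys J k) (c : Fin D → Fin k)

/-- a tuple of elements; the `a`-th one is in the system number `c a`, the *colour* of `a` -/
abbrev Sys.Tu := ∀ a : Fin D, s.L (c a)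

/-- the `y`-parts of a tuple -/
def Sys.Y (t : s.Tu c) (a : Fin D) : J → F := s.y (c a) (t a)

/-- the `b`-parts of a tuple -/
def Sys.B (t : s.Tu c) (a : Fin D) : J → F := s.b (c a) (t a)

/-- all elements of the tuple are solutions for the matrix `α` -/
def Sys.Sat (w : Fin k → J → F) (t : s.Tu c) (α : prs J → F) : Prop :=
  ∀ a, lap (w (c a)) α (s.Y c t a) = s.B c t a

/-- the elements of each colour are linearly independent modulo the trivial solution -/
def Sys.BI (w : Fin k → J → F) (t : s.Tu c) : Prop :=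
  ∀ (j : Fin k) (g : Fin D → F) (γ : F), (∀ a, g a ≠ 0 → c a = j) →
    (∀ l, ∑ a, g a * s.Y c t a l = if w j l = 0 then 0 else γ) →
    (∀ l, ∑ a, g a * s.B c t a l = 0) → g = 0

/-- the space of the solutions -/
noncomputable def Sys.R (w : Fin k → J → F) (j : Fin k) (α : prs J → F) : Submodule F (s.L j) :=
  LinearMap.ker (lap (w j) α ∘ₗ s.y j - s.b j)

end sys

/-- the probability of a property of the random matrix -/
noncomputable def pr {J : Type} [Fintype J] [LinearOrder J] (Q : (prs J → F) → Prop) : ℝ :=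
  ((univ.filter Q).card : ℝ) / 3 ^ (prs J).card

/-- JLM-FOU.

Proof. For fixed `α` the sum of `ez (∑_a ∑_l u a l * (b a l - lap (w (c a)) α (y a) l))` over the
`u ∈ US w c` is `3 ^ nn w c` if all the equations `lap (w (c a)) α (y a) l = b a l` hold and `0`
otherwise (for `w (c a) l = 0` both sides are `0`). Sum over `α` and exchange the sums:
`∑_a ∑_l u a l * lap (w (c a)) α (y a) l
 = ∑_{l < l'} α_{l l'} ∑_a w_l w_l' (u a l (y a l' - y a l) + u a l' (y a l - y a l'))
 = - ∑_{l < l'} α_{l l'} ∑_a w_l w_l' (u a l - u a l') (y a l - y a l')`,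
so the sum over `α` is `3 ^ |prs J| * ez (∑ u b)` if `(y, u)` is unlinked and `0` otherwise. -/
def S_FOU : Prop := ∀ (J : Type) [Fintype J] [LinearOrder J] (k D : ℕ) (w : Fin k → J → F)
  (c : Fin D → Fin k) (y b : Fin D → J → F), y ∈ US w c → b ∈ US w c →
  ((univ.filter fun α : prs J → F => ∀ a, lap (w (c a)) α (y a) = b a).card : ℂ) * 3 ^ nn w c =
    3 ^ (prs J).card * ∑ u ∈ (US w c).filter (UL w c y), ez (∑ a, ∑ l, u a l * b a l)

/-- JLM-ISO: sets of points which are pairwise unlinked for the form `∑ y_a u_a`.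

Proof. `T = ∅` is clear for the first part. Fix `t₀ ∈ T`. For `s, t ∈ T`:
`Q (s - t₀) = Q (t - t₀) = Q (s - t) = 0` for `Q z = ∑_a z_a.1 z_a.2`, so the polar form
`β z z' = ∑ (z_a.1 z'_a.2 + z_a.2 z'_a.1)` vanishes on `s - t₀, t - t₀`; hence `Q` and `β` vanish on the span
`V` of `T - t₀`. `β` is a nondegenerate form on the space of the `z` which are zero off `A` (dimension
`2 |A|`) and `V ⊆ V^⊥`, so `dim V ≤ |A|`, and `T ⊆ t₀ + V` gives the first part; if
`3 ^ |A| ≤ |T|` then `T = t₀ + V`. -/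
def S_ISO : Prop := ∀ (D : ℕ) (A : Finset (Fin D)) (T : Finset (Fin D → F × F)),
  (∀ z ∈ T, ∀ a, a ∉ A → z a = 0) →
  (∀ z ∈ T, ∀ z' ∈ T, ∑ a, (z a - z' a).1 * (z a - z' a).2 = 0) →
  T.card ≤ 3 ^ A.card ∧ (3 ^ A.card ≤ T.card → ∃ V : Submodule F (Fin D → F × F),
    Nat.card V = 3 ^ A.card ∧ (∀ z ∈ V, ∀ a, a ∉ A → z a = 0) ∧
    (∀ z ∈ V, ∀ z' ∈ V, ∑ a, ((z a).1 * (z' a).2 + (z a).2 * (z' a).1) = 0) ∧
    ∀ t ∈ T, ∀ z, z ∈ T ↔ z - t ∈ V)

/-- JLM-STR: the structure of the full unlinked configurations.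

Proof. For a mark `m` let `D_m = {a | W (c a) m ≠ 0}`, `T_m` the set of the points `zc y u l`, `μ l = m`; it is
supported in `D_m`, and `UL` for `l, l'` in the class `m` says `∑_{a ∈ D_m} (…) = 0`, since
`W ^ 2 = 1` for `W ≠ 0`. By `S_ISO` and fullness `T_m` is a coset of `V_m`, a maximal isotropic subspace
(`V_m = V_m^⊥` inside the points supported in `D_m`). Let `P_m` be the projection of `V_m` to the
`y`-coordinates.

(1) `P_m` is everything (all functions on `D_m`): otherwise there is `g ≠ 0` supported in `D_m` with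
`∑ g_a y_a = 0` for all `y ∈ P_m`; then `(0, g) ∈ V_m^⊥ = V_m`, so `T_m` is closed under adding `(0, g)`. For
any mark `m'`, `E_a = W (c a) m * W (c a) m'`, and `(y, u) ∈ T_m`, `(y', u') ∈ T_m'`, comparing `UL` for
`(y, u)` and `(y, u + g)`: `∑_a E_a g_a (y_a - y'_a) = 0`. So `E g` is again orthogonal to `P_m` (fix
`(y', u')`; `T_m'` is not empty), and it is supported in `D_m`. For two colours `i ≠ j` which are both
alive at `m` there is by `NP` a mark `m'` with `W i m * W i m' ≠ W j m * W j m'` (otherwise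
`W i m' = δ * W j m'` for all `m'` with `δ = W i m * W j m`). Using the operators `g ↦ E g - λ g` one
can remove the colours from `g` one after the other (e.g. take `g ≠ 0` orthogonal to `P_m`,
supported in `D_m`, with the least number of colours in its support) and gets such a `g ≠ 0` supported
in one colour `j`, `W j m ≠ 0`. For this `g` and all `m'` with `W j m' ≠ 0`, `E g = ± g`, and so
`∑ g_a y_a l` is the same for all `l, l'` with `μ l = m`, `μ l' = m'`; so it is constant on the support of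
`w j`, which contradicts `BY` (off the support all terms are zero).

(2) So `V_m` is the graph of a linear map, `T_m = {(y, A_m y + e_m) | y}` (`y` any function supported in
`D_m`), `A_m` alternating (`∑ y_a (A_m y)_a = 0`). For marks `m, m'`, `E_a` as above, `O = D_m ∩ D_m'`
(the support of `E`) and all `y, y'`:
`∑_{a ∈ O} E_a (y_a - y'_a) ((A_m y + e_m)_a - (A_m' y' + e_m')_a) = 0`. Comparing (`y' = 0`, `y → - y`;
then the part bilinear in `y, y'`): `e_m = e_m'` on `O`; `E_a A_m a b = 0` for `a ∈ O`, `b ∉ O`,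
`(E_a - E_b) A_m a b = 0` for `a, b ∈ O`; and `E_a A_m' a b + E_b A_m b a = 0` for `a, b ∈ O`, so that
`A_m = A_m'` on `O × O`. With `NP` as in (1) it follows that `A_m a b = 0` if `c a ≠ c b`. For
`c a = c b = j` the numbers `A_m a b` and `(e_m)_a` are the same for all `m` with `W j m ≠ 0`; they
define `A` and `e`. -/
def S_STR : Prop := ∀ (J : Type) [Fintype J] [LinearOrder J] (k M D : ℕ) (W : Fin k → Fin M → F)
  (μ : J → Fin M) (c : Fin D → Fin k) (y u : Fin D → J → F), NP W →
  y ∈ US (wt W μ) c → u ∈ US (wt W μ) c → UL (wt W μ) c y u → BY (wt W μ) c y →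
  Full W μ c y u → Gr (wt W μ) c y u

/-- JLM-GRA: the contribution of the `u` of the form `A y + e`.

Proof. `UL` holds: for `l, l'` and a colour `j`, `w_j l w_j l' ∑_{c a = j} ∑_a' A a a' (y a' l - y a' l')
(y a l - y a l') = 0` as `A` is alternating (`A a a = 0` since `2 ≠ 0` in `F`). The
exponent: `∑_a e_a ∑_l b a l = 0`, and `∑_{a, a'} A a a' ∑_l y a' l b a l = 0` because
`∑_l b a l y a' l` is symmetric in `a, a'` for `c a = c a'` (note that `b a l = 0` if `w (c a) l = 0`). So
every term is `1`. The number of the `u`: the pairs `(A, e)` are determined by `u` because of `BY` (if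
`∑_a' A a a' y a' l + e a = 0` on the support of `w (c a)` then apply `BY` to `j = c a`,
`g a' = A a a'`), and there are `3 ^ (Qc c + D)` pairs `(A, e)`. -/
def S_GRA : Prop := ∀ (J : Type) [Fintype J] [LinearOrder J] (k D : ℕ) (w : Fin k → J → F)
  (c : Fin D → Fin k) (y b : Fin D → J → F), (∀ j, ∃ l, w j l ≠ 0) → y ∈ US w c → b ∈ US w c →
  (∀ a, ∑ l, b a l = 0) →
  (∀ a a', c a = c a' → ∑ l, b a l * y a' l = ∑ l, b a' l * y a l) → BY w c y →
  (∀ u, Gr w c y u → UL w c y u) ∧
    ∑ u ∈ (US w c).filter (Gr w c y), ez (∑ a, ∑ l, u a l * b a l) = 3 ^ (D + Qc c)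

/-- JLM-NF: the number of the unlinked configurations which are not full.

Proof. With `T_m` as in `S_STR`, `|T_m| ≤ 3 ^ dm W c m` for all `m` by `S_ISO`, and `|T_m| < 3 ^ dm W c m`
for at least one `m` as the configuration is not full. The configuration is a map `J → (Fin D → F × F)`
which maps the class `m` to `T_m`. So the number is at most the sum of
`∏_m |T_m| ^ |class m|` over the families `(T_m)` of sets of points (at most `2 ^ (9 ^ D * M)` of
them), and with `|T_m| ≤ 3 ^ d - 1 = 3 ^ d (1 - 3 ^ (-d)) ≤ 3 ^ d (1 - 3 ^ (-D))` for one `m` each product is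
at most `(1 - 3 ^ (-D)) ^ n₀ ∏_m 3 ^ (dm W c m * |class m|)`, and `∑_m dm W c m * |class m| = nn`. -/
def S_NF : Prop := ∀ (J : Type) [Fintype J] [LinearOrder J] (k M D n₀ : ℕ) (W : Fin k → Fin M → F)
  (μ : J → Fin M) (c : Fin D → Fin k), (∀ m, n₀ ≤ (univ.filter fun l => μ l = m).card) →
  (((US (wt W μ) c ×ˢ US (wt W μ) c).filter fun p => UL (wt W μ) c p.1 p.2 ∧
    ¬ Full W μ c p.1 p.2).card : ℝ) ≤
    2 ^ (9 ^ D * M) * (1 - (1 / 3 : ℝ) ^ D) ^ n₀ * 3 ^ nn (wt W μ) c

/-- the error term -/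
noncomputable def er (D M m₀ n₀ : ℕ) : ℝ :=
  3 ^ (D ^ 2 + 2 * D + 1 + m₀) * (1 / 3 : ℝ) ^ n₀ +
    3 ^ (m₀ * D) * (2 ^ (9 ^ D * M) * (1 - (1 / 3 : ℝ) ^ D) ^ n₀)

/-- JLM-MOM: the moments.

Proof. Let `t` be a tuple with `BI`. If `Y t` is not `BY` then there are `j, g ≠ 0, γ` with
`∑ g_a y_a = γ 1_{w j}`; if `Sat t α` then `∑ g_a b_a = lap (w j) α (γ 1_{w j}) = 0` (all terms
`w_l w_l' (y l' - y l)` vanish), a contradiction to `BI`. So `pr (Sat t) = 0`. If `Y t` is `BY` then `BI`
holds, and by `S_FOU`, `S_GRA`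
(with `Sys.OK.sum`, `sym`, `sy`, `sb`; for `c a = c a'` use a cast or an auxiliary statement for `i = j`)
`|pr (Sat t) 3 ^ nn - 3 ^ (D + Qc c)| ≤ #{u ∈ US | UL, ¬ Gr} ≤ #{u ∈ US | UL (Y t) u, ¬ Full}` by `S_STR`.
The number of all tuples is `∏_a |L (c a)| = 3 ^ nn`. The number of the tuples `t` for which `Y t` is not
`BY` is at most `3 ^ (D + 1)` (for `g, γ`; `j` is determined by `g ≠ 0`) times `3 ^ (m₀ + nn - n₀)`: for
given `g, γ`, `g_a ≠ 0` and given `t_a'`, `a' ≠ a`, the possible `t_a` are a coset of the kernel of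
`y_{c a}` (or none), and `|L (c a)| = 3 ^ |sp (w (c a))| ≥ 3 ^ n₀` as `w (c a)` is not zero on at least one
mark class. The number of the `t` with given `Y t` is at most `3 ^ (m₀ D)`; so by `S_NF` the sum over `t` of
the numbers `#{u | UL (Y t) u, ¬ Full}` is at most
`3 ^ (m₀ D) * 2 ^ (9 ^ D M) (1 - 3 ^ (-D)) ^ n₀ 3 ^ nn`. Finally `Qc c ≤ D ^ 2`. -/
def S_MOM : Prop := ∀ (J : Type) [Fintype J] [LinearOrder J] (k M D m₀ n₀ : ℕ)
  (W : Fin k → Fin M → F) (μ : J → Fin M) (s : Sys J k) (c : Fin D → Fin k), NP W →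
  s.OK (wt W μ) m₀ → 1 ≤ n₀ → (∀ m, n₀ ≤ (univ.filter fun l => μ l = m).card) →
  |(∑ t : s.Tu c, if s.BI c (wt W μ) t then pr (s.Sat c (wt W μ) t) else 0) - 3 ^ (D + Qc c)| ≤
    er D M m₀ n₀

/-- JLM-EX: the moments in terms of the dimensions of the spaces of the solutions.

Proof. `o_j ∈ R_j(α)` (`lap` of the indicator of the support is zero) and `o_j ≠ 0` (the support is not
empty by `NP` and `n₀ ≥ 1`), so `r_j = dim R_j - 1 ≥ 0`. The number of the `d`-tuples in a
space of dimension `r + 1` which are independent modulo a given nonzero vector is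
`∏_{i < d} (3 ^ (r + 1) - 3 ^ (i + 1)) = 3 ^ d In d r`. With `D = ∑ d j` and the bijection
`(Σ j, Fin (d j)) ≃ Fin D` (`finSigmaFinEquiv`) as in `Pool.Agent.H451.JL.t_EX`
(`Pool/Agent/H451/JL/EX.lean`, which may be adapted) the families of such tuples are the `t : Tu c` with
`BI t` and `Sat t α`; `Qc c = ∑_j C(d_j, 2)`. Divide by `3 ^ D ≥ 1`. -/
def S_EX : Prop := ∀ (J : Type) [Fintype J] [LinearOrder J] (k M m₀ n₀ : ℕ)
  (W : Fin k → Fin M → F) (μ : J → Fin M) (s : Sys J k) (d : Fin k → ℕ), NP W →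
  s.OK (wt W μ) m₀ → 1 ≤ n₀ → (∀ m, n₀ ≤ (univ.filter fun l => μ l = m).card) →
  |(∑ α : prs J → F, ∏ j, In (d j) (Module.finrank F (s.R (wt W μ) j α) - 1)) /
      3 ^ (prs J).card - ∏ j, (3 : ℝ) ^ ((d j).choose 2)| ≤ er (∑ j, d j) M m₀ n₀

/-- **JLM-JLM**: the joint law.

Proof. From `S_EX` and (of the project JL) `S_TR` for `Ω = prs J → F`, `r α j = finrank R_j(α) - 1`,
`S_C`, `S_E`, `S_C9`: choose `t` with `(1 + eT t) ^ k - 1 + |sT t ^ k - c9 ^ k| ≤ ε / 2` (as in
`Pool.Agent.H451.JL.t_JL`), and `δ` with `C δ ≤ ε / 2`. With `n₀ = N * (m₀ + 1)` the error terms are,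
for all `D ≤ k (t + 1)` and all `m₀`, at most
`3 ^ (D ^ 2 + 2 D + 1) (1 / 3) ^ (N - 1)` (for `N ≥ 1`: `m₀ - N (m₀ + 1) ≤ - (N - 1)`) and, if
`3 ^ D (1 - 3 ^ (-D)) ^ N ≤ 1`, `2 ^ (9 ^ D M) (1 - 3 ^ (-D)) ^ N`, which are small for large `N`. (If `k = 0` or
`D = 0` this is trivial: for `D = 0` the second term is `0 ^ n₀ = 0`.) `R_j` has three elements iff
its dimension is `1`. (If `M = 0` then `NP` forces `k = 0`.) -/
def S_JLM : Prop := ∀ (k M : ℕ) (W : Fin k → Fin M → F), NP W → ∀ ε : ℝ, 0 < ε →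
  ∃ N : ℕ, ∀ (J : Type) [Fintype J] [LinearOrder J] (μ : J → Fin M) (m₀ : ℕ) (s : Sys J k),
  s.OK (wt W μ) m₀ → (∀ m, N * (m₀ + 1) ≤ (univ.filter fun l => μ l = m).card) →
  |pr (fun α => ∀ j, Nat.card (s.R (wt W μ) j α) = 3) - c9 ^ k| ≤ ε

end Pool.Agent.H451.JLM
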