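import Mathlib
import Pool.Agent.H451.JLM.Stm

/-!
# Project JLM (helper451): the joint law of several Laplacian systems with marks (arithmetic part)

`μ : Ei → Fin M` are marks of the primary primes; the weights are `w j π = W j (μ π)`. `nW w S`, `GW w S` are
defined in `Pool/Agent/H451/JL/Stm2.lean`.
-/

set_option autoImplicit false
set_option linter.unusedVariables false

open scoped Classical

namespace Pool.Agent.H451.JLM

open Finset
open Pool.Agent.Y692.QS (Ei w nr toC)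
open Pool.Agent.Y715.T.Rec (cs)
open Pool.Agent.Y715.T.RecG (Pq)
open Pool.Agent.Y699.E (ez nrm QB)
open Pool.Agent.Y703.XK (Nd SS RR HB prs ext c9 sm la bl S_BIL S_EQ S_C9 S_CNT)
open Pool.Agent.Y703.CX (XX kk zz)
open Pool.Agent.H451.JL (F sw nW GW)

/-- the number of the solutions of the weighted block system; the unknowns `p.2 l` exist only for
`w l ≠ 0` -/
noncomputable def nAw {U J : Type} [Fintype U] [Fintype J] [LinearOrder J] (A : U → U → F)
    (B : U → J → F) (w : J → F) (α : prs J → F) : ℕ :=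
  Nat.card {p : (U → F) × (J → F) // (∀ l, w l = 0 → p.2 l = 0) ∧
    (∀ u, ∑ v, A u v * (p.1 v - p.1 u) + ∑ l, B u l * (p.2 l - p.1 u) = 0) ∧
    (∀ k, ∑ u, B u k * (p.1 u - p.2 k) + ∑ l, w k * w l * ext α k l * (p.2 l - p.2 k) = 0)}

/-- JLM-SYS: block systems.

Proof. Take `N` from `S_JLM` for `k, M, W, ε` (and `N ≥ 1`). For each `j` let `L_j` be the space of the
`(x, y) ∈ (U j → F) × (J → F)` with `y l = 0` for `w j l = 0` (`w j l = W j (μ l)`) and
`∑_v A u v (x v - x u) + ∑_l B u l (y l - x u) = 0` for all `u`;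
`y (x, y) = y`, `b (x, y) l = - ∑_u B u l (x u - y l)`, `o = (1, indicator of the support)`. Then
`nAw (A j) (B j) (w j) α = |R_j(α)|`. Conditions of `Sys.OK`: `sb` because `B u l = 0` for `w j l = 0`;
`sum`: `∑_l b l = ∑_u ∑_l B u l (y l - x u) = - ∑_{u, v} A u v (x v - x u) = 0` as `A` is symmetric; `sym`:
`∑_l b_p l y_q l = - ∑ B u l x u y' l + ∑ B u l y l y' l`, and multiplying the equation of `p` at `u` by
`x' u` and summing, `∑ B u l y l x' u = ∑ B u l x u x' u - ∑ A u v (x v - x u) x' u`, where the right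
side is symmetric in `p, q` (`A` symmetric), so `∑ B u l x' u y l = ∑ B u l x u y' l`; `inj`: `y = 0` and
`∑_u B u l x u = 0` for all `l` gives `x = 0` by the hypothesis on `B`; `card`: the map
`(x, y) ↦ (equation at u)_u` onto `U j → F` is surjective, already on the `(0, y)` with `y` supported in
the support of `w j`, because its transpose `v ↦ (∑_u v u B u l)_l` is injective (by the hypothesis; the
sums vanish off the support) — compare `Pool.Agent.H451.JL.SYSp.card_ker` in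
`Pool/Agent/H451/JL/SYS.lean`; `ker`: at most `3 ^ |U j|`; `oy`, `ob`: clear (`B u l (1 - 1) = 0` on the
support, `B u l = 0` off it). -/
def S_SYS : Prop := ∀ (k M : ℕ) (W : Fin k → Fin M → F), NP W → ∀ ε : ℝ, 0 < ε →
  ∃ N : ℕ, ∀ (U : Fin k → Type) [∀ j, Fintype (U j)] (J : Type) [Fintype J] [LinearOrder J]
  (μ : J → Fin M) (A : ∀ j, U j → U j → F) (B : ∀ j, U j → J → F) (m₀ : ℕ),
  (∀ j u v, A j u v = A j v u) → (∀ j u l, W j (μ l) = 0 → B j u l = 0) →
  (∀ j, Fintype.card (U j) ≤ m₀) →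
  (∀ j (v : U j → F), (∃ u, v u ≠ 0) → ∃ l, ∑ u, v u * B j u l ≠ 0) →
  (∀ m, N * (m₀ + 1) ≤ (univ.filter fun l => μ l = m).card) →
  |((univ.filter fun α : prs J → F => ∀ j, nAw (A j) (B j) (wt W μ j) α = 3).card : ℝ) /
      3 ^ (prs J).card - c9 ^ k| ≤ ε

/-- the weights given by the marks -/
def wM {k M : ℕ} (W : Fin k → Fin M → F) (μ : Ei → Fin M) (j : Fin k) (π : Ei) : F := W j (μ π)

/-- every mark class of the large primes `S₁` is large compared to the set of the small ones `S₀`, and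
its labels are not degenerate -/
def NdM {M : ℕ} (V : ℕ) (μ : Ei → Fin M) (S₀ S₁ : Finset Ei) : Prop :=
  ∀ m, V * (S₀.card + 1) ≤ (S₁.filter fun π => μ π = m).card ∧ Nd S₀ (S₁.filter fun π => μ π = m)

/-- the count in a box -/
def BXM {k M : ℕ} (W : Fin k → Fin M → F) (V : ℕ) (ε : ℝ) : Prop :=
  ∀ (μ : Ei → Fin M) (ι : Type) [Fintype ι] [LinearOrder ι]
  (C : ι → Finset Ei) (ν : ι → Fin M) (X : ι → ℕ) (κ : ℝ) (S₀ : Finset Ei), 0 ≤ κ →
  (∀ i, (C i).card ≤ X i) → HB C X κ → (∀ u ∈ S₀, Pq u) →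
  (∀ i, ∀ π ∈ C i, Pq π ∧ π ∉ S₀ ∧ μ π = ν i) → (∀ i l, i ≠ l → Disjoint (C i) (C l)) →
  |(((Fintype.piFinset C).filter fun p => NdM V μ S₀ (univ.image p) ∧
        GW (wM W μ) (S₀ ∪ univ.image p)).card : ℝ) -
      c9 ^ k * (((Fintype.piFinset C).filter fun p => NdM V μ S₀ (univ.image p)).card : ℝ)| ≤
    ε * (((Fintype.piFinset C).filter fun p => NdM V μ S₀ (univ.image p)).card : ℝ) +
    3 ^ (S₀.card * Fintype.card ι + (prs ι).card) * (κ * ∏ j, (X j : ℝ))

/-- JLM-BOX: the count in a box.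

Proof. Adapt `Pool.Agent.H451.JL.t_BOXJ` (`Pool/Agent/H451/JL/BOX.lean`). Take `V = N` from `S_SYS`, w.l.o.g.
`N ≥ 1`. For a tuple `p` of the box the system of `nW (wM W μ j) (S₀ ∪ univ.image p)` has the unknowns
`v u`, `u ∈ sw (wM W μ j) S₀`, and `v (p l)`, `W j (ν l) ≠ 0`; multiplying the equation for `π` by `w π ≠ 0`
it becomes the block system `nAw (A j) (B j) (wt W ν j) α`, `α e = cs (p e.1.1) (p e.1.2)`, with
`U j = ↥(sw (wM W μ j) S₀)`, `A j u v = w u * w v * cs u v`, `B j u l = w u * W j (ν l) * cs u (p l)`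
(for `l` with `W j (ν l) = 0` put `p.2 l = 0`; its equation is trivial). For given labels
`β l u = cs u (p l)`, `u ∈ S₀`, the condition `NdM V μ S₀ (univ.image p)` depends only on `β`, `ν`, and
`S_EQ` (applied to the subboxes with given labels) gives the number of the tuples with
`Q α = ∀ j, nAw (A j) (B j) (wt W ν j) α = 3`; `S_SYS` (`μ := ν`, `m₀ = |S₀|`) gives the proportion of these
`α`. The injectivity: let `v ≠ 0` on `sw (wM W μ j) S₀` and `m` a mark with `W j m ≠ 0` (`NP`); apply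
`Nd S₀ (class m)` to `v u * w u` extended by zero to get `l` with `ν l = m` and
`∑ v u * w u * cs u (p l) ≠ 0`. Sum over the labels. -/
def S_BOX : Prop := ∀ (k M : ℕ) (W : Fin k → Fin M → F), NP W → ∀ ε : ℝ, 0 < ε →
  ∃ V : ℕ, 1 ≤ V ∧ BXM W V ε

/-- the norms modulo `9` of the products over the mark classes -/
def CondM {M : ℕ} (R : Set (Fin M → ℕ)) (μ : Ei → Fin M) (S : Finset Ei) : Prop :=
  (fun m => (∏ π ∈ S.filter (fun π => μ π = m), nrm π) % 9) ∈ R

/-- the sum over the boxes, for fixed marks -/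
def KEM {k M : ℕ} (W : Fin k → Fin M → F) (R : Set (Fin M → ℕ)) (V : ℕ) (ε : ℝ) : Prop :=
  ∃ C : ℝ, 1 ≤ C ∧
  ∀ (μ : Ei → Fin M) (X z H K N : ℕ) (κ : ℝ), 1 ≤ X → 1 ≤ H → 1 ≤ z → 0 ≤ κ → C ≤ κ ^ 24 * z →
  (H : ℝ) * Real.log X < N →
  |(((RR X z H K 0).filter fun S => (CondM R μ S ∧ NdM V μ (sm z S) (la z S)) ∧
        GW (wM W μ) S).card : ℝ) -
      c9 ^ k * (((RR X z H K 0).filter fun S => CondM R μ S ∧
        NdM V μ (sm z S) (la z S)).card : ℝ)| ≤
    ε * ((RR X z H K 0).card : ℝ) +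
    (M : ℝ) ^ K * ((9 * N + 9 : ℝ) ^ K * (3 ^ (9 * K ^ 2 + 9) * κ) * (X * (1 + Real.log X)))

/-- JLM-KEY: the sum over the boxes.

Proof. Adapt `Pool.Agent.H451.JL.t_KEJ` (`Pool/Agent/H451/JL/KEJ.lean`, tools in
`Pool/Graph/R_seed8/Y696/XL/Key*.lean`). The sets `S` with the key `(S₀, J)` (`S₀ = sm z S`, `J` the set of
the numbers of the boxes of the large primes; the box contains the residue of the norm modulo `9`)
correspond to the tuples `p` in `∏_{i ∈ J} CC z H i` (`key_bij`). Divide them according to the marks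
`ν : J → Fin M` of the `p i`: for each `ν` the tuples in the box `C i = (CC z H i).filter (μ · = ν i)`;
the bilinear hypothesis `HB` holds for these subsets (`hb_box` is for arbitrary sets `C i`). On each
such box `CondM R μ (S₀ ∪ univ.image p)` is constant (it is determined by `S₀, μ, J, ν`). Apply `BXM` to
each `ν` and sum over the `M ^ |J| ≤ M ^ K` functions `ν` (the terms with `ε` add up to at most
`ε |{S | key S = (S₀, J)}|`), then over the keys as before (`keg_err`). If `M = 0` then there is no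
`μ`. -/
def S_KEY : Prop := S_BIL → ∀ (k M : ℕ) (W : Fin k → Fin M → F) (R : Set (Fin M → ℕ)) (V : ℕ)
  (ε : ℝ), 0 ≤ ε → 1 ≤ V → BXM W V ε → KEM W R V ε

/-- JLM-ND: few sets have labels which are degenerate up to `C (|S₀| + 1)` exceptions.

Proof. Adapt `Pool.Agent.H451.JL.t_FEWJ`, `t_BADJ` (`Pool/Agent/H451/JL/FEW.lean`, `BAD.lean`; see also
`Pool/Graph/R_seed8/Y433/XK/Few.lean`, `Gen.lean`). Given `v ≠ 0` on `S₀ = sm z S` let
`A = ∏ u` over `v u = 1` and `B = ∏ u` over `v u = -1`, subsets of `S₀`, `χ = xab A B`; with the weight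
`gw χ` of `FEW.lean` (`1` if `χ π = 1`, `1 / 24` otherwise) the number of the sets `S` with given small
part `S₀`, and at most `C (|S₀| + 1)` exceptions for `(A, B)`, is at most
`24 ^ (C (|S₀| + 1)) ∑_{n ∈ SB (X / pN S₀)} mf (gw χ) n`, estimated by `gw_sum`; the constant there must be
explicit in the norms of `A`, `B` (a power of `lg (nrm A * nrm B)`, see `g1_sum`), which are at most
`pN S₀ ≤ zz X ^ |S₀|`, as in `bad_count` / `pair_count`. There are at most `4 ^ |S₀|` pairs `(A, B)`. Then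
`gen4` with `a = 4 * 24 ^ C` or so. -/
def S_NDC : Prop := ∀ (C : ℕ) (ε : ℝ), 0 < ε → ∃ X₀ : ℕ, ∀ X : ℕ, X₀ ≤ X →
  (((SS X).filter fun S => S.card ≤ kk X ∧ ∃ v : Ei → F, (∃ u ∈ sm (zz X) S, v u ≠ 0) ∧
    ((la (zz X) S).filter fun π => ∑ u ∈ sm (zz X) S, v u * cs u π ≠ 0).card ≤
      C * ((sm (zz X) S).card + 1)).card : ℝ) ≤ ε * X

/-- JLM-FEW: few sets have few large primes. (Adapt `Pool.Agent.Y433.XK.t_FEW`: constant weight
`1 / 24` instead of a character.) -/
def S_FEC : Prop := ∀ (C : ℕ) (ε : ℝ), 0 < ε → ∃ X₀ : ℕ, ∀ X : ℕ, X₀ ≤ X →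
  (((SS X).filter fun S => S.card ≤ kk X ∧ (la (zz X) S).card ≤
      C * ((sm (zz X) S).card + 1)).card : ℝ) ≤ ε * X

/-- JLM-RM: random marks.

Proof. `M ≥ 1`. Let `s = |S₁|`, `a = |S₀| + 1`; the marks of the elements of `S₁` are independent and
uniform. (i) For a mark `m` the probability that fewer than `V a` elements have the mark `m`: if
`s ≥ C a` with `C ≥ 2 M V` then `V a ≤ s / (2 M)` and by Chebyshev's inequality (second moment of the
number of the elements with the mark `m`, mean `s / M`) it is at most `4 M / s ≤ 4 M / C`. (Alternatively: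
the number of the subsets with fewer than `V a` elements times `(1 - 1/M) ^ …`.) (ii) For `v ≠ 0` on
`S₀` (at most `3 ^ |S₀|` restrictions) and `m`, the probability that no `π ∈ S₁` with
`∑ v u cs u π ≠ 0` has the mark `m` is `(1 - 1/M) ^ t`, `t > C a` the number of these `π`; so the
probability that `Nd S₀ (class m)` fails for some `m` is at most `M 3 ^ |S₀| (1 - 1/M) ^ (C a)
≤ M (3 (1 - 1/M) ^ C) ^ a`, which is small for large `C`. -/
def S_RM : Prop := ∀ (M V : ℕ) (ε : ℝ), 0 < M → 0 < ε → ∃ C : ℕ, ∀ S₀ S₁ : Finset Ei,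
  C * (S₀.card + 1) < S₁.card →
  (∀ v : Ei → F, (∃ u ∈ S₀, v u ≠ 0) →
    C * (S₀.card + 1) < (S₁.filter fun π => ∑ u ∈ S₀, v u * cs u π ≠ 0).card) →
  ∀ (T : Finset Ei) (m₁ : Fin M), S₁ ⊆ T →
  ((univ.filter fun f : T → Fin M =>
    ¬ NdM V (fun π => if h : π ∈ T then f ⟨π, h⟩ else m₁) S₀ S₁).card : ℝ) ≤ ε * M ^ T.card

/-- the mean of a property over all marks of the elements of `T` -/
noncomputable def av {M : ℕ} (m₁ : Fin M) (T : Finset Ei) (Q : (Ei → Fin M) → Prop) : ℝ :=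
  ((univ.filter fun f : T → Fin M => Q fun π => if h : π ∈ T then f ⟨π, h⟩ else m₁).card : ℝ) /
    M ^ T.card

/-- JLM-AV: the mean depends only on the set where the property lives. (The restriction
`(T → Fin M) → (S → Fin M)` has fibres with `M ^ (|T| - |S|)` elements.) -/
def S_AV : Prop := ∀ (M : ℕ) (m₁ : Fin M) (S T : Finset Ei) (Q : (Ei → Fin M) → Prop), S ⊆ T →
  (∀ μ μ' : Ei → Fin M, (∀ π ∈ S, μ π = μ' π) → (Q μ ↔ Q μ')) → av m₁ T Q = av m₁ S Q

/-- JLM-LOW: a lower bound for the number of the marked sets considered.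

Proof. From `Pool.Agent.Y550.XK.NS.t_LOW` (`c X ≤ |SS X|`), compare `Pool.Agent.H451.JL.t_LOWJ`
(`Pool/Agent/H451/JL/LOW.lean`). Choose `2 M` different primary primes `q m i` (`m < M`, `i = 0, 1`) with
`nrm ≡ 4` modulo `9` (see `LOW.lean`), `Q` the set of them. For `S ∈ SS X` and marks `f` of `S \ Q` let
`S'' ⊇ S \ Q` be the set with, for each `m`, `e_m ∈ {0, 1, 2}` of the `q m i`, marked `m`, such that the
product of the norms of the elements with the mark `m` is `≡ r m` modulo `9`. The norm of the product of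
`S''` is `≡ ∏ r m`, not `1`, so `S'' ∈ SS (X * ∏ nrm q)`. The number of the `S ∈ SS X` with given `S \ Q`
is at most `2 ^ (2 M)`, and `(S \ Q, f) ↦ (S'', f'')` is injective, with
`M ^ |S''| ≤ M ^ (2 M) M ^ |S \ Q|`. So
`∑_{S'' ∈ SS (X ∏ nrm q)} av S'' (CondM) ≥ M ^ (-2 M) |{S \ Q | S ∈ SS X}| ≥ (2 M) ^ (-2 M) |SS X|`. -/
def S_LOW : Prop := ∀ (M : ℕ) (m₁ : Fin M) (R : Set (Fin M → ℕ)),
  (∃ r ∈ R, (∀ m, r m = 1 ∨ r m = 4 ∨ r m = 7) ∧ (∏ m, r m) % 9 ≠ 1) →
  ∃ (c : ℝ) (X₀ : ℕ), 0 < c ∧ ∀ X : ℕ, X₀ ≤ X →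
    c * X ≤ ∑ S ∈ SS X, av m₁ S fun μ => CondM R μ S

/-- **JLM-DQ**: the joint law for randomly marked random sets -/
def S_DQ : Prop := ∀ (k M : ℕ) (W : Fin k → Fin M → F) (m₁ : Fin M) (R : Set (Fin M → ℕ)), NP W →
  (∃ r ∈ R, (∀ m, r m = 1 ∨ r m = 4 ∨ r m = 7) ∧ (∏ m, r m) % 9 ≠ 1) →
  Filter.Tendsto (fun X : ℕ => (∑ S ∈ SS X, av m₁ S fun μ => CondM R μ S ∧ GW (wM W μ) S) /
    (∑ S ∈ SS X, av m₁ S fun μ => CondM R μ S)) Filter.atTop (nhds (c9 ^ k))

end Pool.Agent.H451.JLM
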