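import Mathlib
import Pool.Agent.H451.JLM.Stm2
import Pool.Agent.H451.JL.DQJ

/-!
# Project JLM: the asymptotics (adaptation of `Pool.Agent.H451.JL.t_DQJ`)
-/

set_option autoImplicit false
set_option linter.unusedVariables false

open scoped Classical
open Finset Filter

namespace Pool.Agent.H451.JLM

open Pool.Agent.Y692.QS (Ei w nr toC)
open Pool.Agent.Y715.T.Rec (cs)
open Pool.Agent.Y715.T.RecG (Pq)
open Pool.Agent.Y699.E (nrm QB PD)
open Pool.Agent.Y703.CX (jj XX eL zz kk eL_tendsto logX_eq rpow_eL HH NN ev_eL one_le_exp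
  HH_ge HH_le HH_pos kk_ge kk_le X_pos one_add_log lin_le zz_ge zz_pos)
open Pool.Agent.Y703.CQ (Sml sml_of sml_add)
open Pool.Agent.Y703.XK (Nd SS RR HB prs ext c9 sm la bl S_BIL S_EQ S_CNT S_BAD S_FEW S_LOW S_C9
  sml_eps sml_many sml_cut sml_coll sml_main kap kap_nonneg kap_pow kap_le cmp CntP log_three)
open Pool.Agent.H451.JL (F sw nW GW)

/-- marks extended from a set -/
noncomputable def mx {M : ℕ} (m₁ : Fin M) (T : Finset Ei) (f : T → Fin M) (π : Ei) : Fin M :=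
  if h : π ∈ T then f ⟨π, h⟩ else m₁

theorem av_eq {M : ℕ} (m₁ : Fin M) (T : Finset Ei) (Q : (Ei → Fin M) → Prop) :
    av m₁ T Q = ((univ.filter fun f : T → Fin M => Q (mx m₁ T f)).card : ℝ) / M ^ T.card := rfl

theorem cardF {M : ℕ} (T : Finset Ei) : Fintype.card (T → Fin M) = M ^ T.card := by
  rw [Fintype.card_fun, Fintype.card_coe, Fintype.card_fin]

/-- double counting -/
theorem sum_swap {A B : Type} (s : Finset A) (t : Finset B) (Q : A → B → Prop) :
    ∑ a ∈ s, ((t.filter fun b => Q a b).card : ℝ) = ∑ b ∈ t, ((s.filter fun a => Q a b).card : ℝ) := by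
  simp only [card_filter, Nat.cast_sum]
  exact sum_comm

/-- the number of solutions depends only on the weights on the set -/
theorem nW_congr {w w' : Ei → F} {S : Finset Ei} (h : ∀ π ∈ S, w π = w' π) : nW w S = nW w' S := by
  have h1 : sw w S = sw w' S := by
    unfold sw
    exact filter_congr fun π hπ => by rw [h π hπ]
  unfold nW
  rw [h1]
  refine Nat.card_congr (Equiv.subtypeEquivRight fun v => forall_congr' fun π => ?_)
  have h2 : ∑ ρ : sw w' S, cs π ρ * w ρ * (v ρ - v π) = ∑ ρ : sw w' S, cs π ρ * w' ρ * (v ρ - v π) := by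
    refine sum_congr rfl fun ρ _ => ?_
    rw [h ρ (mem_filter.1 ρ.2).1]
  rw [h2]

theorem GW_congr {k M : ℕ} {W : Fin k → Fin M → F} {μ μ' : Ei → Fin M} {S : Finset Ei}
    (h : ∀ π ∈ S, μ π = μ' π) : GW (wM W μ) S ↔ GW (wM W μ') S := by
  unfold GW
  refine forall_congr' fun j => ?_
  rw [nW_congr (w := wM W μ j) (w' := wM W μ' j) fun π hπ => by unfold wM; rw [h π hπ]]

theorem Cond_congr {M : ℕ} {R : Set (Fin M → ℕ)} {μ μ' : Ei → Fin M} {S : Finset Ei}
    (h : ∀ π ∈ S, μ π = μ' π) : CondM R μ S ↔ CondM R μ' S := by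
  unfold CondM
  have h1 : (fun m => (∏ π ∈ S.filter (fun π => μ π = m), nrm π) % 9) =
      fun m => (∏ π ∈ S.filter (fun π => μ' π = m), nrm π) % 9 := by
    funext m
    rw [filter_congr fun π hπ => by rw [h π hπ]]
  rw [h1]

theorem SS_sub {X : ℕ} {S : Finset Ei} (h : S ∈ SS X) : S ⊆ QB X := by
  unfold SS at h
  rw [mem_filter, mem_powerset] at h
  exact h.1

/-- the sum of the means -/
theorem sum_av (hAV : S_AV) {M : ℕ} (m₁ : Fin M) (X : ℕ) (Q : Finset Ei → (Ei → Fin M) → Prop)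
    (hQ : ∀ S, ∀ μ μ' : Ei → Fin M, (∀ π ∈ S, μ π = μ' π) → (Q S μ ↔ Q S μ')) :
    ∑ S ∈ SS X, av m₁ S (Q S) =
      (∑ f : QB X → Fin M, (((SS X).filter fun S => Q S (mx m₁ (QB X) f)).card : ℝ)) /
        M ^ (QB X).card := by
  have h1 : ∀ S ∈ SS X, av m₁ S (Q S) =
      ((univ.filter fun f : QB X → Fin M => Q S (mx m₁ (QB X) f)).card : ℝ) / M ^ (QB X).card := by
    intro S hS
    rw [← hAV M m₁ S (QB X) (Q S) (SS_sub hS) (hQ S)]
    rfl
  rw [sum_congr rfl h1, ← sum_div, sum_swap]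

/-- the error term with marks -/
theorem sml_mainM {C : ℝ} (hC : 1 ≤ C) (M : ℕ) : Sml 0 fun X => (M : ℝ) ^ kk X *
    ((9 * (NN X : ℝ) + 9) ^ kk X * (3 ^ (9 * kk X ^ 2 + 9) * kap C X) * (X * (1 + Real.log X))) := by
  apply sml_of (C := 4 * C) (a := 1) (by norm_num)
  filter_upwards [ev_eL 40000, ev_eL (M : ℝ)] with X hX hM
  set l := eL X with hl
  have h0 : 0 < eL X := by linarith
  have h1 : 1 ≤ eL X := by linarith
  have hX0 : (0 : ℝ) ≤ X := Nat.cast_nonneg _
  have hN : 9 * (NN X : ℝ) + 9 ≤ Real.exp (5 * l) := by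
    have h2 : (NN X : ℝ) ≤ HH X * Real.log X + 1 := by
      unfold NN
      push_cast
      have := Nat.floor_le (a := (HH X : ℝ) * Real.log X)
        (mul_nonneg (Nat.cast_nonneg _) (Real.log_natCast_nonneg X))
      linarith
    have h3 : (HH X : ℝ) * Real.log X ≤ 2 * Real.exp (4 * l) := by
      rw [logX_eq h0]
      calc (HH X : ℝ) * Real.exp (eL X) ≤ 2 * Real.exp (3 * eL X) * Real.exp (eL X) :=
            mul_le_mul_of_nonneg_right (HH_le h0) (Real.exp_pos _).le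
        _ = 2 * Real.exp (4 * l) := by
            rw [mul_assoc, ← Real.exp_add]
            congr 2
            rw [hl]
            ring
    have h4 : 1 ≤ Real.exp (4 * l) := one_le_exp (by linarith)
    have h5 : (36 : ℝ) ≤ Real.exp l := by
      have := Real.add_one_le_exp l
      linarith
    have h6 : Real.exp (5 * l) = Real.exp (4 * l) * Real.exp l := by
      rw [← Real.exp_add]; congr 1; ring
    rw [h6]
    nlinarith
  have hkk := kk_le h1
  have hkk0 : (0 : ℝ) ≤ kk X := Nat.cast_nonneg _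
  have hA : (9 * (NN X : ℝ) + 9) ^ kk X ≤ Real.exp (55 * l ^ 2) := by
    calc (9 * (NN X : ℝ) + 9) ^ kk X ≤ (Real.exp (5 * l)) ^ kk X := by gcongr
      _ = Real.exp (kk X * (5 * l)) := (Real.exp_nat_mul _ _).symm
      _ ≤ Real.exp (55 * l ^ 2) := by
          apply Real.exp_le_exp.2
          nlinarith
  have hMk : (M : ℝ) ^ kk X ≤ Real.exp (11 * l ^ 2) := by
    have h2 : (M : ℝ) ≤ Real.exp l := by
      have := Real.add_one_le_exp l
      linarith
    calc (M : ℝ) ^ kk X ≤ (Real.exp l) ^ kk X := by gcongr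
      _ = Real.exp (kk X * l) := (Real.exp_nat_mul _ _).symm
      _ ≤ Real.exp (11 * l ^ 2) := by
          apply Real.exp_le_exp.2
          nlinarith
  have hB : (3 : ℝ) ^ (9 * kk X ^ 2 + 9) ≤ Real.exp (1200 * l ^ 2) := by
    have e : (3 : ℝ) ^ (9 * kk X ^ 2 + 9) = Real.exp ((9 * (kk X : ℝ) ^ 2 + 9) * Real.log 3) := by
      rw [mul_comm (9 * (kk X : ℝ) ^ 2 + 9) (Real.log 3), Real.exp_mul, Real.exp_log (by norm_num)]
      rw [← Real.rpow_natCast]
      congr 1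
      push_cast
      ring
    rw [e]
    apply Real.exp_le_exp.2
    have h2 := log_three
    have h3 : (kk X : ℝ) ^ 2 ≤ 121 * l ^ 2 := by nlinarith
    have h4 : 0 ≤ (kk X : ℝ) ^ 2 := sq_nonneg _
    have h5 : (40000 : ℝ) ^ 2 ≤ l ^ 2 := by nlinarith
    calc (9 * (kk X : ℝ) ^ 2 + 9) * Real.log 3 ≤ (9 * (kk X : ℝ) ^ 2 + 9) * 1.1 := by gcongr
      _ ≤ (9 * (121 * l ^ 2) + 9) * 1.1 := by gcongr
      _ ≤ 1200 * l ^ 2 := by linarith
  have hK := kap_le hC h1
  have hLg := one_add_log h0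
  have hmain : (M : ℝ) ^ kk X * ((9 * (NN X : ℝ) + 9) ^ kk X * (3 ^ (9 * kk X ^ 2 + 9) * kap C X) *
      (X * (1 + Real.log X))) ≤ Real.exp (11 * l ^ 2) * (Real.exp (55 * l ^ 2) *
        (Real.exp (1200 * l ^ 2) * (2 * C * Real.exp (-l ^ 3 / 24))) * (X * (2 * Real.exp l))) := by
    have := kap_nonneg hC X
    have : 0 ≤ 1 + Real.log X := by
      have := Real.log_natCast_nonneg X
      linarith
    gcongr
  refine hmain.trans ?_
  have e : Real.exp (11 * l ^ 2) * (Real.exp (55 * l ^ 2) * (Real.exp (1200 * l ^ 2) *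
        (2 * C * Real.exp (-l ^ 3 / 24))) * (X * (2 * Real.exp l))) =
      4 * C * (X * Real.exp (11 * l ^ 2 + 55 * l ^ 2 + 1200 * l ^ 2 + -l ^ 3 / 24 + l)) := by
    rw [Real.exp_add, Real.exp_add, Real.exp_add, Real.exp_add]
    ring
  rw [e]
  have h9 : 11 * l ^ 2 + 55 * l ^ 2 + 1200 * l ^ 2 + -l ^ 3 / 24 + l ≤ -1 * l := by
    have h10 : 40000 * l ^ 2 ≤ l ^ 3 := by
      have : l ^ 3 = l * l ^ 2 := by ring
      rw [this]
      exact mul_le_mul_of_nonneg_right hX (sq_nonneg l)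
    nlinarith
  have h11 := Real.exp_le_exp.2 h9
  gcongr


/-- the sets which are not regular for reasons independent of the marks -/
noncomputable def OutS (X z H K C : ℕ) : Finset (Finset Ei) :=
  ((((SS X).filter fun S => K < S.card) ∪
      ((SS X).filter fun S => S.card ≤ K ∧
        X < (∏ π ∈ sm z S, nrm π) * ∏ π ∈ la z S, XX H (bl H π))) ∪
      ((SS X).filter fun S => ¬ Set.InjOn (bl H) (la z S : Set Ei))) ∪
      ((SS X).filter fun S => S.card ≤ K ∧ (la z S).card ≤ C * ((sm z S).card + 1)) ∪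
      ((SS X).filter fun S => S.card ≤ K ∧ ∃ v : Ei → F, (∃ u ∈ sm z S, v u ≠ 0) ∧
        ((la z S).filter fun π => ∑ u ∈ sm z S, v u * cs u π ≠ 0).card ≤
          C * ((sm z S).card + 1))

theorem out_subM {M : ℕ} (R : Set (Fin M → ℕ)) (μ : Ei → Fin M) (X z H K V C : ℕ) (hC : 1 ≤ C) :
    ((SS X).filter (CondM R μ)) \ ((RR X z H K 0).filter fun S => CondM R μ S ∧
        NdM V μ (sm z S) (la z S)) ⊆
      OutS X z H K C ∪ (SS X \ OutS X z H K C).filter fun S => ¬ NdM V μ (sm z S) (la z S) := by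
  intro S hS
  rw [Finset.mem_sdiff, Finset.mem_filter, Finset.mem_filter] at hS
  obtain ⟨⟨h1, hc⟩, h2⟩ := hS
  rw [mem_union]
  by_cases ho : S ∈ OutS X z H K C
  · exact Or.inl ho
  · right
    refine Finset.mem_filter.2 ⟨Finset.mem_sdiff.2 ⟨h1, ho⟩, fun hnd => h2 ⟨?_, hc, hnd⟩⟩
    unfold OutS at ho
    simp only [mem_union, mem_filter] at ho
    push Not at ho
    obtain ⟨⟨⟨⟨c1, c2⟩, c3⟩, c4⟩, -⟩ := ho
    have d1 : S.card ≤ K := c1 h1
    have d2 := c2 h1 d1
    have d3 := c3 h1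
    have d4 := c4 h1 d1
    unfold RR
    rw [mem_filter]
    refine ⟨h1, d3, d1, d2, ?_⟩
    nlinarith

theorem t_DQ (hBIL : S_BIL) (hKEY : S_KEY) (hBOX : S_BOX) (hCNT : S_CNT) (hNDC : S_NDC)
    (hFEC : S_FEC) (hRM : S_RM) (hAV : S_AV) (hLo : Pool.Agent.H451.JLM.S_LOW) (hc9 : S_C9) :
    Pool.Agent.H451.JLM.S_DQ := by
  intro k M W m₁ R hNP hR
  have hM : 0 < M := m₁.pos
  obtain ⟨D, hD⟩ := hCNT
  obtain ⟨c, X₀, hc, hlow⟩ := hLo M m₁ R hR
  have hD1 := hD.one
  rw [Metric.tendsto_nhds]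
  intro ε hε
  obtain ⟨η, hη⟩ : ∃ η : ℝ, η = c * ε / (8 * D) := ⟨_, rfl⟩
  have hη0 : 0 < η := by rw [hη]; positivity
  obtain ⟨V, hV1, hV⟩ := hBOX k M W hNP η hη0
  obtain ⟨C, hC1, hkey⟩ := hKEY hBIL k M W R V η hη0.le hV1 hV
  obtain ⟨C₂, hC₂⟩ := hRM M V η hM hη0
  obtain ⟨C₁, hC₁⟩ : ∃ C₁ : ℕ, C₁ = C₂ + 1 := ⟨_, rfl⟩
  have s1 := sml_many hD
  have s2 := sml_cut hD
  have s3 := sml_coll hD
  have s4 := sml_eps (hFEC C₁)
  have s5 := sml_eps (hNDC C₁)
  have s6 := sml_mainM hC1 M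
  have s := sml_add (sml_add (sml_add (sml_add (sml_add s1 s2) s3) s4) s5) s6
  have hδ : (0 : ℝ) < c * ε / 4 := by positivity
  filter_upwards [s (c * ε / 4) hδ, ev_eL 1, eventually_ge_atTop X₀] with X hX hl hX0
  rw [neg_zero, zero_mul, Real.exp_zero, mul_one] at hX
  have hl0 : 0 < eL X := by linarith
  have hlo := hlow X hX0
  have hXp := X_pos hl0
  have hXp' : (0 : ℝ) < X := by exact_mod_cast hXp
  have hN : (HH X : ℝ) * Real.log X < NN X := by
    unfold NN
    push_cast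
    exact Nat.lt_floor_add_one _
  obtain ⟨T, hT⟩ : ∃ T : Finset Ei, T = QB X := ⟨_, rfl⟩
  obtain ⟨O, hO⟩ : ∃ O : Finset (Finset Ei), O = OutS X (zz X) (HH X) (kk X) C₁ := ⟨_, rfl⟩
  have hSSc : ((SS X).card : ℝ) ≤ D * X := hD.all X hXp
  have hRS : ((RR X (zz X) (HH X) (kk X) 0).card : ℝ) ≤ D * X := by
    refine le_trans ?_ hSSc
    exact_mod_cast card_le_card (filter_subset _ _)
  have hc0 : (0 : ℝ) ≤ c9 ^ k := pow_nonneg hc9.2.1.le _
  have hc1 : c9 ^ k ≤ 1 := pow_le_one₀ hc9.2.1.le hc9.2.2.1.le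
  obtain ⟨E₆, hE₆⟩ : ∃ E₆ : ℝ, E₆ = (M : ℝ) ^ kk X *
    ((9 * (NN X : ℝ) + 9) ^ kk X * (3 ^ (9 * kk X ^ 2 + 9) * kap C X) * (X * (1 + Real.log X))) :=
    ⟨_, rfl⟩
  rw [← hE₆] at hX
  -- for each marking
  have hper : ∀ f : T → Fin M,
      |(((SS X).filter fun S => CondM R (mx m₁ T f) S ∧ GW (wM W (mx m₁ T f)) S).card : ℝ) -
        c9 ^ k * (((SS X).filter fun S => CondM R (mx m₁ T f) S).card : ℝ)| ≤
      η * (D * X) + E₆ + (O.card : ℝ) + (((SS X \ O).filter fun S =>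
        ¬ NdM V (mx m₁ T f) (sm (zz X) S) (la (zz X) S)).card : ℝ) := by
    intro f
    set μ := mx m₁ T f with hμ
    have hmain := hkey μ X (zz X) (HH X) (kk X) (NN X) (kap C X) hXp (HH_pos hl0) (zz_pos hl)
      (kap_nonneg hC1 X) (kap_pow hC1 hl) hN
    set A := (SS X).filter (CondM R μ) with hA
    set B := (RR X (zz X) (HH X) (kk X) 0).filter fun S => CondM R μ S ∧
      NdM V μ (sm (zz X) S) (la (zz X) S) with hB
    have hBG : (RR X (zz X) (HH X) (kk X) 0).filter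
        (fun S => (CondM R μ S ∧ NdM V μ (sm (zz X) S) (la (zz X) S)) ∧ GW (wM W μ) S) =
        B.filter fun S => GW (wM W μ) S := by
      rw [hB, filter_filter]
    rw [hBG, ← hE₆] at hmain
    have hBA : B ⊆ A := by
      intro S hS
      rw [hB, mem_filter] at hS
      rw [hA, mem_filter]
      refine ⟨?_, hS.2.1⟩
      have h1 := hS.1
      unfold RR at h1
      rw [mem_filter] at h1
      exact h1.1
    have hcmp := cmp (fun S => GW (wM W μ) S) B A hBA (c9 ^ k) hc0 hc1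
    have hMG : ((SS X).filter fun S => CondM R μ S ∧ GW (wM W μ) S) =
        A.filter fun S => GW (wM W μ) S := by
      rw [hA, filter_filter]
    have hout : ((A \ B).card : ℝ) ≤ (O.card : ℝ) + (((SS X \ O).filter fun S =>
        ¬ NdM V μ (sm (zz X) S) (la (zz X) S)).card : ℝ) := by
      have g := card_le_card (out_subM R μ X (zz X) (HH X) (kk X) V C₁ (by omega))
      rw [← hO] at g
      have g2 := g.trans (card_union_le _ _)
      exact_mod_cast g2
    have g1 : η * ((RR X (zz X) (HH X) (kk X) 0).card : ℝ) ≤ η * (D * X) :=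
      mul_le_mul_of_nonneg_left hRS hη0.le
    rw [hMG]
    linarith
  -- the sets which are not regular
  have hOc : (O.card : ℝ) ≤
      (((((SS X).filter fun S => kk X < S.card).card : ℝ) +
      (((SS X).filter fun S => S.card ≤ kk X ∧
        X < (∏ π ∈ sm (zz X) S, nrm π) * ∏ π ∈ la (zz X) S, XX (HH X) (bl (HH X) π)).card : ℝ)) +
      (((SS X).filter fun S => ¬ Set.InjOn (bl (HH X)) (la (zz X) S : Set Ei)).card : ℝ)) +
      (((SS X).filter fun S => S.card ≤ kk X ∧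
        (la (zz X) S).card ≤ C₁ * ((sm (zz X) S).card + 1)).card : ℝ) +
      (((SS X).filter fun S => S.card ≤ kk X ∧ ∃ v : Ei → F, (∃ u ∈ sm (zz X) S, v u ≠ 0) ∧
        ((la (zz X) S).filter fun π => ∑ u ∈ sm (zz X) S, v u * cs u π ≠ 0).card ≤
          C₁ * ((sm (zz X) S).card + 1)).card : ℝ) := by
    rw [hO]
    unfold OutS
    have g2 := (card_union_le (((((SS X).filter fun S => kk X < S.card) ∪
      ((SS X).filter fun S => S.card ≤ kk X ∧
        X < (∏ π ∈ sm (zz X) S, nrm π) * ∏ π ∈ la (zz X) S, XX (HH X) (bl (HH X) π))) ∪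
      ((SS X).filter fun S => ¬ Set.InjOn (bl (HH X)) (la (zz X) S : Set Ei))) ∪
      ((SS X).filter fun S => S.card ≤ kk X ∧ (la (zz X) S).card ≤ C₁ * ((sm (zz X) S).card + 1)))
      ((SS X).filter fun S => S.card ≤ kk X ∧ ∃ v : Ei → F, (∃ u ∈ sm (zz X) S, v u ≠ 0) ∧
        ((la (zz X) S).filter fun π => ∑ u ∈ sm (zz X) S, v u * cs u π ≠ 0).card ≤
          C₁ * ((sm (zz X) S).card + 1))).trans
      (Nat.add_le_add_right ((card_union_le _ _).trans (Nat.add_le_add_right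
        ((card_union_le _ _).trans (Nat.add_le_add_right (card_union_le _ _) _)) _)) _)
    exact_mod_cast g2
  -- the mean of the last term
  have hMT : (0 : ℝ) < (M : ℝ) ^ T.card := by positivity
  have hrm : ∑ f : T → Fin M, (((SS X \ O).filter fun S =>
        ¬ NdM V (mx m₁ T f) (sm (zz X) S) (la (zz X) S)).card : ℝ) ≤
      η * (D * X) * (M : ℝ) ^ T.card := by
    have hsw := sum_swap (SS X \ O) (univ : Finset (T → Fin M)) fun S f =>
      ¬ NdM V (mx m₁ T f) (sm (zz X) S) (la (zz X) S)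
    refine le_trans (le_of_eq (Eq.trans (sum_congr rfl fun f _ => ?_) hsw.symm)) ?_
    · congr!
    have h1 : ∀ S ∈ SS X \ O, ((univ.filter fun f : T → Fin M =>
        ¬ NdM V (mx m₁ T f) (sm (zz X) S) (la (zz X) S)).card : ℝ) ≤ η * (M : ℝ) ^ T.card := by
      intro S hS
      rw [Finset.mem_sdiff] at hS
      obtain ⟨hS1, hS2⟩ := hS
      rw [hO] at hS2
      unfold OutS at hS2
      simp only [mem_union, mem_filter] at hS2
      push Not at hS2
      obtain ⟨⟨⟨⟨c1, c2⟩, c3⟩, c4⟩, c5⟩ := hS2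
      have d1 : S.card ≤ kk X := c1 hS1
      have d4 := c4 hS1 d1
      have d5 := c5 hS1 d1
      refine hC₂ (sm (zz X) S) (la (zz X) S) ?_ ?_ T m₁ ?_
      · rw [hC₁] at d4
        nlinarith
      · rintro v ⟨u, hu, hvu⟩
        have h6 := d5 v ⟨u, hu, hvu⟩
        rw [hC₁] at h6
        nlinarith
      · rw [hT]
        exact (filter_subset _ _).trans (SS_sub hS1)
    refine le_trans (sum_le_sum fun S hS => (le_of_eq ?_).trans (h1 S hS)) ?_
    · congr!
    rw [sum_const, nsmul_eq_mul]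
    have h2 : ((SS X \ O).card : ℝ) ≤ D * X := by
      refine le_trans ?_ hSSc
      exact_mod_cast card_le_card sdiff_subset
    calc ((SS X \ O).card : ℝ) * (η * (M : ℝ) ^ T.card) ≤ D * X * (η * (M : ℝ) ^ T.card) := by gcongr
      _ = η * (D * X) * (M : ℝ) ^ T.card := by ring
  -- the means
  have hq1 := sum_av hAV m₁ X (fun S μ => CondM R μ S ∧ GW (wM W μ) S)
    (fun S μ μ' h => and_congr (Cond_congr h) (GW_congr h))
  have hq2 := sum_av hAV m₁ X (fun S μ => CondM R μ S) (fun S μ μ' h => Cond_congr h)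
  rw [← hT] at hq1 hq2
  obtain ⟨P, hP⟩ : ∃ P : ℝ, P = ∑ S ∈ SS X, av m₁ S fun μ => CondM R μ S := ⟨_, rfl⟩
  obtain ⟨G, hG⟩ : ∃ G : ℝ, G = ∑ S ∈ SS X, av m₁ S fun μ => CondM R μ S ∧ GW (wM W μ) S := ⟨_, rfl⟩
  have hPpos : 0 < P := by
    rw [hP]
    refine lt_of_lt_of_le ?_ hlo
    positivity
  have htot : |G - c9 ^ k * P| ≤ η * (D * X) + E₆ + (O.card : ℝ) + η * (D * X) := by
    have e1 : G - c9 ^ k * P = (∑ f : T → Fin M,
        ((((SS X).filter fun S => CondM R (mx m₁ T f) S ∧ GW (wM W (mx m₁ T f)) S).card : ℝ) -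
        c9 ^ k * (((SS X).filter fun S => CondM R (mx m₁ T f) S).card : ℝ))) /
        (M : ℝ) ^ T.card := by
      rw [hG, hP, hq1, hq2, sum_sub_distrib, ← mul_sum, sub_div, mul_div_assoc]
      congr!
    rw [e1, abs_div, abs_of_pos hMT, div_le_iff₀ hMT]
    refine (abs_sum_le_sum_abs _ _).trans ((sum_le_sum fun f _ => hper f).trans ?_)
    rw [sum_add_distrib, sum_const, card_univ, cardF, nsmul_eq_mul]
    push_cast
    have e2 : (η * (D * X) + E₆ + (O.card : ℝ) + η * (D * X)) * (M : ℝ) ^ T.card =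
        (M : ℝ) ^ T.card * (η * (D * X) + E₆ + (O.card : ℝ)) + η * (D * X) * (M : ℝ) ^ T.card := by
      ring
    rw [e2]
    exact add_le_add le_rfl hrm
  rw [Real.dist_eq, ← hP, ← hG]
  have e3 : G / P - c9 ^ k = (G - c9 ^ k * P) / P := by
    field_simp
  rw [e3, abs_div, abs_of_pos hPpos, div_lt_iff₀ hPpos]
  refine lt_of_le_of_lt htot ?_
  have e4 : η * (D * X) = ε / 8 * (c * X) := by
    rw [hη]
    field_simp
  have e5 : c * ε / 4 * X = ε / 4 * (c * X) := by ring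
  rw [← hP] at hlo
  have g2 : ε / 4 * (c * X) ≤ ε / 4 * P := mul_le_mul_of_nonneg_left hlo (by linarith)
  have g3 : ε / 8 * (c * X) ≤ ε / 8 * P := mul_le_mul_of_nonneg_left hlo (by linarith)
  have g4 : 0 < ε * P := by positivity
  rw [e4]
  rw [e5] at hX
  linarith

end Pool.Agent.H451.JLM
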