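import Pool.Agent.H451.JLM.Stm2
import Pool.Graph.R_seed8.Y170.XL.BOX

/-! JLM-BOX: the count in a box with marks (adapted from `Pool.Agent.H451.JL.t_BOXJ`). -/

set_option autoImplicit false

open scoped Classical

namespace Pool.Agent.H451.JLM

open Finset
open Pool.Agent.Y692.QS (Ei)
open Pool.Agent.Y715.T.Rec (cs)
open Pool.Agent.Y715.T.RecG (Pq)
open Pool.Agent.Y703.XK (Nd HB prs S_EQ c9)
open Pool.Agent.Y688.XK (lb cs_symm ext_sum sum_un HB_sub ez0 ez0_coe)
open Pool.Agent.H451.JL (F sw nW GW)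

section gen

variable {ω : Ei → F} {S : Finset Ei}

/-- the functions on `Ei` which solve the system -/
def GS (ω : Ei → F) (S : Finset Ei) (g : Ei → F) : Prop :=
  (∀ n, n ∉ sw ω S → g n = 0) ∧ ∀ π ∈ sw ω S, ∑ ρ ∈ S, cs π ρ * ω ρ * (g ρ - g π) = 0

theorem box_sum_sw (f : Ei → F) : ∑ ρ : sw ω S, ω ρ * f ρ = ∑ ρ ∈ S, ω ρ * f ρ := by
  rw [Finset.sum_coe_sort (sw ω S) (fun ρ => ω ρ * f ρ)]
  unfold sw
  refine Finset.sum_filter_of_ne fun x _ h0 h1 => h0 ?_
  rw [h1, zero_mul]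

theorem nW_gs : nW ω S = Nat.card {g : Ei → F // GS ω S g} := by
  unfold nW
  have key : ∀ (v : sw ω S → F) (g : Ei → F), (∀ x : sw ω S, g x = v x) → ∀ π : sw ω S,
      ∑ ρ : sw ω S, cs π ρ * ω ρ * (v ρ - v π) = ∑ ρ ∈ S, cs π ρ * ω ρ * (g ρ - g π) := by
    intro v g hg π
    have h1 := box_sum_sw (ω := ω) (S := S) (fun ρ => cs π ρ * (g ρ - g π))
    have h2 : ∑ ρ : sw ω S, cs π ρ * ω ρ * (v ρ - v π) =
        ∑ ρ : sw ω S, ω ρ * (cs π ρ * (g ρ - g π)) := by
      refine Finset.sum_congr rfl fun ρ _ => ?_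
      rw [hg, hg]
      ring
    rw [h2, h1]
    refine Finset.sum_congr rfl fun ρ _ => ?_
    ring
  refine (Nat.card_congr (Equiv.ofBijective
    (fun g : {g : Ei → F // GS ω S g} => (⟨fun x => g.1 x, fun π => by
      rw [key (fun x : sw ω S => g.1 x) g.1 (fun _ => rfl) π]
      exact g.2.2 π π.2⟩ :
      {v : sw ω S → F // ∀ π : sw ω S, ∑ ρ : sw ω S, cs π ρ * ω ρ * (v ρ - v π) = 0})) ⟨?_, ?_⟩)).symm
  · rintro ⟨g, hg⟩ ⟨g', hg'⟩ h
    have h1 : (fun x : sw ω S => g x) = fun x : sw ω S => g' x := congrArg Subtype.val h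
    refine Subtype.ext (funext fun n => ?_)
    by_cases hn : n ∈ sw ω S
    · exact congrFun h1 ⟨n, hn⟩
    · exact (hg.1 n hn).trans (hg'.1 n hn).symm
  · rintro ⟨v, hv⟩
    obtain ⟨g, hg⟩ : ∃ g : Ei → F, g = fun n => if h : n ∈ sw ω S then v ⟨n, h⟩ else 0 := ⟨_, rfl⟩
    have hgv : ∀ x : sw ω S, g x = v x := by
      intro x
      rw [hg]
      simp only [x.2, dif_pos, Subtype.coe_eta]
    refine ⟨⟨g, fun n hn => ?_, fun π hπ => ?_⟩, Subtype.ext (funext hgv)⟩
    · rw [hg]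
      simp only [hn, dif_neg, not_false_eq_true]
    · rw [← key v g hgv ⟨π, hπ⟩]
      exact hv ⟨π, hπ⟩

end gen

section one
variable {ι : Type} [Fintype ι] [LinearOrder ι] {S₀ : Finset Ei} {p : ι → Ei} {ω : Ei → F}
  {w' : ι → F}

/-- **the numbers of solutions agree** -/
theorem nW_eqM (hp : Function.Injective p) (hpr : ∀ i, Pq (p i)) (hS₀ : ∀ u ∈ S₀, Pq u)
    (hd : ∀ i, p i ∉ S₀) (h1 : ∀ i, ω (p i) = w' i) :
    nW ω (S₀ ∪ univ.image p) = nAw (fun u v : sw ω S₀ => ω u * ω v * cs u v)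
      (fun (u : sw ω S₀) l => ω u * w' l * cs u (p l)) w'
      (fun e : prs ι => cs (p e.1.1) (p e.1.2)) := by
  have hmem1 : ∀ u : sw ω S₀, (u : Ei) ∈ sw ω (S₀ ∪ univ.image p) := fun u =>
    Finset.mem_filter.2 ⟨Finset.mem_union_left _ (Finset.mem_filter.1 u.2).1,
      (Finset.mem_filter.1 u.2).2⟩
  have hmem2 : ∀ l, w' l ≠ 0 → p l ∈ sw ω (S₀ ∪ univ.image p) := fun l hl =>
    Finset.mem_filter.2 ⟨Finset.mem_union_right _ (Finset.mem_image_of_mem _ (Finset.mem_univ _)),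
      by rw [h1]; exact hl⟩
  have hmem3 : ∀ n ∈ sw ω (S₀ ∪ univ.image p), n ∉ sw ω S₀ → ∃ l, p l = n ∧ w' l ≠ 0 := by
    intro n hn hn'
    rw [sw, Finset.mem_filter, Finset.mem_union, Finset.mem_image] at hn
    rcases hn with ⟨h | ⟨l, -, h⟩, h2⟩
    · exact absurd (Finset.mem_filter.2 ⟨h, h2⟩) hn'
    · refine ⟨l, h, ?_⟩
      rw [← h1, h]
      exact h2
  have hpn : ∀ l, p l ∉ sw ω S₀ := fun l h => hd l (Finset.mem_filter.1 h).1
  -- the equations
  have hrow1 : ∀ (g : Ei → F) (u : sw ω S₀),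
      (∑ v : sw ω S₀, ω u * ω v * cs u v * (g v - g u) +
        ∑ l, ω u * w' l * cs u (p l) * (g (p l) - g u)) =
      ω u * ∑ ρ ∈ S₀ ∪ univ.image p, cs u ρ * ω ρ * (g ρ - g u) := by
    intro g u
    rw [sum_un hp hd, mul_add, Finset.mul_sum, Finset.mul_sum]
    congr 1
    · have h2 := box_sum_sw (ω := ω) (S := S₀) (fun ρ => ω u * (cs u ρ * (g ρ - g u)))
      rw [← Finset.sum_coe_sort S₀] at h2
      refine (Finset.sum_congr rfl fun v _ => ?_).trans (h2.trans
        (Finset.sum_congr rfl fun v _ => ?_))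
      · ring
      · ring
    · refine Finset.sum_congr rfl fun l _ => ?_
      rw [h1]
      ring
  have hrow2 : ∀ (g : Ei → F) (k : ι),
      (∑ u : sw ω S₀, ω u * w' k * cs u (p k) * (g u - g (p k)) +
        ∑ l, w' k * w' l * Pool.Agent.Y703.XK.ext (fun e : prs ι => cs (p e.1.1) (p e.1.2)) k l *
          (g (p l) - g (p k))) =
      w' k * ∑ ρ ∈ S₀ ∪ univ.image p, cs (p k) ρ * ω ρ * (g ρ - g (p k)) := by
    intro g k
    rw [sum_un hp hd, mul_add, Finset.mul_sum, Finset.mul_sum]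
    congr 1
    · have h2 := box_sum_sw (ω := ω) (S := S₀) (fun ρ => w' k * (cs (p k) ρ * (g ρ - g (p k))))
      rw [← Finset.sum_coe_sort S₀] at h2
      refine (Finset.sum_congr rfl fun v _ => ?_).trans (h2.trans
        (Finset.sum_congr rfl fun v _ => ?_))
      · rw [cs_symm (hS₀ v (Finset.mem_filter.1 v.2).1) (hpr k)]
        ring
      · ring
    · have h3 := ext_sum hpr k (fun l => if l = k then 0 else w' l * (g (p l) - g (p k)))
      simp only [if_true, sub_zero] at h3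
      have h4 : ∀ x : ι → ι → F, ∑ l, w' k * w' l * x k l * (g (p l) - g (p k)) =
          w' k * ∑ l, x k l * (if l = k then 0 else w' l * (g (p l) - g (p k))) := by
        intro x
        rw [Finset.mul_sum]
        refine Finset.sum_congr rfl fun l _ => ?_
        by_cases hl : l = k
        · rw [if_pos hl, hl, sub_self]
          ring
        · rw [if_neg hl]
          ring
      rw [h4, h3, ← h4 (fun k l => cs (p k) (p l))]
      refine Finset.sum_congr rfl fun l _ => ?_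
      rw [h1]
      ring
  rw [nW_gs]
  unfold nAw
  refine Nat.card_congr (Equiv.ofBijective (fun g => ⟨(fun u => g.1 u, fun l => g.1 (p l)),
    fun l hl => g.2.1 _ fun h => (Finset.mem_filter.1 h).2 (by rw [h1]; exact hl),
    fun u => ?_, fun k => ?_⟩) ⟨?_, ?_⟩)
  · refine (hrow1 g.1 u).trans ?_
    rw [g.2.2 u (hmem1 u), mul_zero]
  · refine (hrow2 g.1 k).trans ?_
    by_cases hk : w' k = 0
    · rw [hk, zero_mul]
    · rw [g.2.2 _ (hmem2 k hk), mul_zero]
  · rintro ⟨g, hg⟩ ⟨g', hg'⟩ h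
    have h2 : ((fun u : sw ω S₀ => g u, fun l => g (p l)) : (sw ω S₀ → F) × (ι → F)) =
      (fun u : sw ω S₀ => g' u, fun l => g' (p l)) := congrArg Subtype.val h
    rw [Prod.mk.injEq] at h2
    refine Subtype.ext (funext fun n => ?_)
    by_cases hn : n ∈ sw ω (S₀ ∪ univ.image p)
    · by_cases hn' : n ∈ sw ω S₀
      · exact congrFun h2.1 ⟨n, hn'⟩
      · obtain ⟨l, rfl, -⟩ := hmem3 n hn hn'
        exact congrFun h2.2 l
    · exact (hg.1 n hn).trans (hg'.1 n hn).symm
  · rintro ⟨⟨x, y⟩, hy, hxy1, hxy2⟩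
    obtain ⟨g, hg⟩ : ∃ g : Ei → F, g = fun n => if h : n ∈ sw ω S₀ then x ⟨n, h⟩ else
      if h : ∃ l, p l = n then y h.choose else 0 := ⟨_, rfl⟩
    have hgx : ∀ u : sw ω S₀, g u = x u := by
      intro u
      rw [hg]
      simp only [u.2, dif_pos, Subtype.coe_eta]
    have hgy : ∀ l, g (p l) = y l := by
      intro l
      have hex : ∃ l', p l' = p l := ⟨l, rfl⟩
      have e : g (p l) = if h : p l ∈ sw ω S₀ then x ⟨p l, h⟩ else
        if h : ∃ l', p l' = p l then y h.choose else 0 := by rw [hg]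
      rw [e, dif_neg (hpn l), dif_pos hex]
      exact congrArg y (hp hex.choose_spec)
    refine ⟨⟨g, fun n hn => ?_, fun π hπ => ?_⟩, Subtype.ext (Prod.ext (funext hgx) (funext hgy))⟩
    · have hn1 : n ∉ sw ω S₀ := fun h => hn (hmem1 ⟨n, h⟩)
      by_cases hex : ∃ l, p l = n
      · obtain ⟨l, rfl⟩ := hex
        rw [hgy]
        refine hy l ?_
        by_contra hl
        exact hn (hmem2 l hl)
      · rw [hg]
        simp only [hn1, hex, dif_neg, not_false_eq_true]
    · by_cases hπ' : π ∈ sw ω S₀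
      · have h2 := hrow1 g ⟨π, hπ'⟩
        have h3 := hxy1 ⟨π, hπ'⟩
        simp only [← hgx, ← hgy] at h3
        rw [h2] at h3
        exact (mul_eq_zero.1 h3).resolve_left (Finset.mem_filter.1 hπ').2
      · obtain ⟨k, rfl, hk⟩ := hmem3 π hπ hπ'
        have h2 := hrow2 g k
        have h3 := hxy2 k
        simp only [← hgx, ← hgy] at h3
        rw [h2] at h3
        exact (mul_eq_zero.1 h3).resolve_left hk

end one

section two
variable {ι : Type} [Fintype ι] [LinearOrder ι] {S₀ : Finset Ei}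

/-- the good labels -/
def LNM {M : ℕ} (V : ℕ) (ν : ι → Fin M) (S₀ : Finset Ei) (β : ι → S₀ → F) : Prop :=
  ∀ m, V * (S₀.card + 1) ≤ (univ.filter fun l => ν l = m).card ∧
    ∀ w : S₀ → F, (∃ u, w u ≠ 0) → ∃ l, ν l = m ∧ ∑ u, w u * β l u ≠ 0

omit [LinearOrder ι] in
theorem ndm_iff {M : ℕ} {V : ℕ} {μ : Ei → Fin M} {ν : ι → Fin M} {p : ι → Ei}
    (hp : Function.Injective p) (hν : ∀ l, μ (p l) = ν l) :
    NdM V μ S₀ (univ.image p) ↔ LNM V ν S₀ (fun i => lb S₀ (p i)) := by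
  unfold NdM LNM
  have e : ∀ m, (univ.image p).filter (fun π => μ π = m) = (univ.filter fun l => ν l = m).image p := by
    intro m
    rw [Finset.filter_image]
    congr 1
    refine Finset.filter_congr fun l _ => ?_
    rw [hν]
  refine forall_congr' fun m => ?_
  rw [e, Finset.card_image_of_injective _ hp]
  refine and_congr_right fun _ => ?_
  unfold Nd
  constructor
  · intro h w hw
    obtain ⟨u, hu⟩ := hw
    obtain ⟨x, hx, hx2⟩ := h (ez0 w) ⟨u, u.2, by rw [ez0_coe]; exact hu⟩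
    rw [Finset.mem_image] at hx
    obtain ⟨i, hi, rfl⟩ := hx
    refine ⟨i, (Finset.mem_filter.1 hi).2, ?_⟩
    rw [← Finset.sum_coe_sort S₀] at hx2
    intro h0
    apply hx2
    rw [← h0]
    refine Finset.sum_congr rfl fun u _ => ?_
    rw [ez0_coe]
    rfl
  · intro h w hw
    obtain ⟨u, hu0, hu⟩ := hw
    obtain ⟨i, hi0, hi⟩ := h (fun u => w u) ⟨⟨u, hu0⟩, hu⟩
    refine ⟨p i, Finset.mem_image_of_mem _ (Finset.mem_filter.2 ⟨Finset.mem_univ _, hi0⟩), ?_⟩
    rw [← Finset.sum_coe_sort S₀]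
    exact hi

end two

/-- **The count in a box.** -/
theorem t_BOX : S_EQ → S_SYS → S_BOX := by
  intro hEQ hSYS k M W hNP ε hε
  obtain ⟨N, hN⟩ := hSYS k M W hNP ε hε
  obtain ⟨V, hV⟩ : ∃ V : ℕ, V = max N 1 := ⟨_, rfl⟩
  refine ⟨V, by rw [hV]; exact le_max_right _ _, ?_⟩
  have hNV : N ≤ V := by rw [hV]; exact le_max_left _ _
  intro μ ι _ _ C ν X κ S₀ hκ hCX hHB hS₀ hC hdis
  obtain ⟨R, hR⟩ : ∃ R : ℝ, R = 3 ^ (prs ι).card * (κ * ∏ j, (X j : ℝ)) := ⟨_, rfl⟩
  have hR0 : 0 ≤ R := by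
    rw [hR]
    exact mul_nonneg (by positivity)
      (mul_nonneg hκ (Finset.prod_nonneg fun j _ => by positivity))
  -- facts on tuples
  have hinj : ∀ p ∈ Fintype.piFinset C, Function.Injective p := by
    intro p hp i j hij
    rw [Fintype.mem_piFinset] at hp
    by_contra hne
    have h1 := Finset.disjoint_left.1 (hdis i j hne) (hp i)
    rw [hij] at h1
    exact h1 (hp j)
  have hd : ∀ p ∈ Fintype.piFinset C, ∀ i, p i ∉ S₀ := by
    intro p hp i
    rw [Fintype.mem_piFinset] at hp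
    exact (hC i _ (hp i)).2.1
  have hpr : ∀ p ∈ Fintype.piFinset C, ∀ i, Pq (p i) := by
    intro p hp i
    rw [Fintype.mem_piFinset] at hp
    exact (hC i _ (hp i)).1
  have hmu : ∀ p ∈ Fintype.piFinset C, ∀ i, μ (p i) = ν i := by
    intro p hp i
    rw [Fintype.mem_piFinset] at hp
    exact (hC i _ (hp i)).2.2
  have hw1 : ∀ p ∈ Fintype.piFinset C, ∀ j i, wM W μ j (p i) = wt W ν j i := by
    intro p hp j i
    unfold wM wt
    rw [hmu p hp]
  -- the part with given labels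
  have h1 : ∀ β : ι → S₀ → F, LNM V ν S₀ β →
      |(((Fintype.piFinset C).filter fun p => (fun i => lb S₀ (p i)) = β ∧
          GW (wM W μ) (S₀ ∪ univ.image p)).card : ℝ) -
        c9 ^ k * (((Fintype.piFinset C).filter fun p => (fun i => lb S₀ (p i)) = β).card : ℝ)| ≤
      ε * (((Fintype.piFinset C).filter fun p => (fun i => lb S₀ (p i)) = β).card : ℝ) + R := by
    intro β hβ
    obtain ⟨C', hC'⟩ : ∃ C' : ι → Finset Ei, C' = fun i => (C i).filter fun q => lb S₀ q = β i :=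
      ⟨_, rfl⟩
    have hpi : (Fintype.piFinset C).filter (fun p => (fun i => lb S₀ (p i)) = β) =
        Fintype.piFinset C' := by
      ext p
      simp only [Finset.mem_filter, Fintype.mem_piFinset, hC']
      constructor
      · rintro ⟨h2, h3⟩ i
        exact ⟨h2 i, congrFun h3 i⟩
      · intro h2
        exact ⟨fun i => (h2 i).1, funext fun i => (h2 i).2⟩
    have hm1 : ∀ {j : Fin k} (u : sw (wM W μ j) S₀), (u : Ei) ∈ S₀ := fun u =>
      (Finset.mem_filter.1 u.2).1
    have h2 := hN (fun j => ↥(sw (wM W μ j) S₀)) ι ν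
      (fun j u v => wM W μ j u * wM W μ j v * cs u v)
      (fun j u l => wM W μ j u * wt W ν j l * β l ⟨u, hm1 u⟩)
      S₀.card
      (fun j u v => by
        rw [cs_symm (hS₀ u (hm1 u)) (hS₀ v (hm1 v)), mul_comm (wM W μ j u)])
      (fun j u l hl => by
        have e : wt W ν j l = 0 := hl
        rw [e, mul_zero, zero_mul])
      (fun j => by
        rw [Fintype.card_coe]
        exact Finset.card_le_card (Finset.filter_subset _ _))
      (by
        rintro j v ⟨u, hu⟩
        obtain ⟨m, hm⟩ := hNP.1 j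
        obtain ⟨l, hl, hl2⟩ := (hβ m).2
          (fun x => if h : (x : Ei) ∈ sw (wM W μ j) S₀ then wM W μ j x * v ⟨x, h⟩ else 0)
          ⟨⟨u, hm1 u⟩, by
            rw [dif_pos u.2]
            exact mul_ne_zero (Finset.mem_filter.1 u.2).2 hu⟩
        refine ⟨l, fun h0 => hl2 ?_⟩
        have hwl : wt W ν j l ≠ 0 := by
          unfold wt
          rw [hl]
          exact hm
        have h3 : ∑ u : sw (wM W μ j) S₀, v u * (wM W μ j u * wt W ν j l * β l ⟨u, hm1 u⟩) =
            wt W ν j l * ∑ x : S₀, (if h : (x : Ei) ∈ sw (wM W μ j) S₀ then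
              wM W μ j x * v ⟨x, h⟩ else 0) * β l x := by
          have h4 := box_sum_sw (ω := wM W μ j) (S := S₀)
            (fun n => if h : n ∈ sw (wM W μ j) S₀ then v ⟨n, h⟩ *
              β l ⟨n, (Finset.mem_filter.1 h).1⟩ else 0)
          rw [← Finset.sum_coe_sort S₀] at h4
          have h5 : ∑ x : S₀, (if h : (x : Ei) ∈ sw (wM W μ j) S₀ then
              wM W μ j x * v ⟨x, h⟩ else 0) * β l x =
              ∑ x : S₀, wM W μ j x * (if h : (x : Ei) ∈ sw (wM W μ j) S₀ then v ⟨x, h⟩ *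
              β l ⟨x, (Finset.mem_filter.1 h).1⟩ else 0) := by
            refine Finset.sum_congr rfl fun x _ => ?_
            by_cases h : (x : Ei) ∈ sw (wM W μ j) S₀
            · rw [dif_pos h, dif_pos h]
              ring
            · rw [dif_neg h, dif_neg h, mul_zero, zero_mul]
          rw [h5, ← h4, Finset.mul_sum]
          refine Finset.sum_congr rfl fun x _ => ?_
          rw [dif_pos x.2]
          ring
        rw [h3] at h0
        exact (mul_eq_zero.1 h0).resolve_left hwl)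
      (fun m => (Nat.mul_le_mul_right _ hNV).trans (hβ m).1)
    obtain ⟨Q, hQ⟩ : ∃ Q : (prs ι → F) → Prop, Q = fun α => ∀ j : Fin k,
        nAw (fun u v : sw (wM W μ j) S₀ => wM W μ j u * wM W μ j v * cs u v)
          (fun (u : sw (wM W μ j) S₀) l => wM W μ j u * wt W ν j l * β l ⟨u, hm1 u⟩)
          (wt W ν j) α = 3 := ⟨_, rfl⟩
    have h3 := hEQ ι C' X κ hκ
      (fun i => (Finset.card_le_card (by rw [hC']; exact Finset.filter_subset _ _)).trans (hCX i))
      (by rw [hC']; exact HB_sub hHB fun i q => lb S₀ q = β i) Q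
    have h4 : ((Fintype.piFinset C).filter fun p => (fun i => lb S₀ (p i)) = β ∧
        GW (wM W μ) (S₀ ∪ univ.image p)) = ((Fintype.piFinset C').filter fun p =>
          Q fun e => cs (p e.1.1) (p e.1.2)) := by
      rw [← hpi, Finset.filter_filter]
      refine Finset.filter_congr fun p hp => ?_
      refine and_congr_right fun hl => ?_
      unfold GW
      subst hl
      rw [hQ]
      refine forall_congr' fun j => ?_
      rw [nW_eqM (hinj p hp) (hpr p hp) hS₀ (hd p hp) (hw1 p hp j)]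
      exact Iff.rfl
    have h5 : (((Fintype.piFinset C').card : ℕ) : ℝ) = ∏ j, ((C' j).card : ℝ) := by
      rw [Fintype.card_piFinset]
      push_cast
      rfl
    rw [h4, hpi, h5]
    rw [← hR] at h3
    obtain ⟨n, hn⟩ : ∃ n : ℝ, n = (((Fintype.piFinset C').filter fun p =>
          Q fun e => cs (p e.1.1) (p e.1.2)).card : ℝ) := ⟨_, rfl⟩
    obtain ⟨q, hq⟩ : ∃ q : ℝ, q = ((univ.filter Q).card : ℝ) / 3 ^ (prs ι).card := ⟨_, rfl⟩
    obtain ⟨P, hP⟩ : ∃ P : ℝ, P = ∏ j, ((C' j).card : ℝ) := ⟨_, rfl⟩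
    have hP0 : 0 ≤ P := by
      rw [hP]
      exact Finset.prod_nonneg fun j _ => by positivity
    have h2' : |q - c9 ^ k| ≤ ε := by
      have e : (univ.filter Q) = (univ.filter fun α : prs ι → F => ∀ j : Fin k,
          nAw (fun u v : sw (wM W μ j) S₀ => wM W μ j u * wM W μ j v * cs u v)
          (fun (u : sw (wM W μ j) S₀) l => wM W μ j u * wt W ν j l * β l ⟨u, hm1 u⟩)
          (wt W ν j) α = 3) := by
        ext α
        rw [Finset.mem_filter, Finset.mem_filter, hQ]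
      rw [hq, e]
      exact h2
    rw [← hn, ← hq, ← hP] at h3
    rw [← hn, ← hP]
    have h6 : |n - c9 ^ k * P| ≤ |n - q * P| + |q - c9 ^ k| * P := by
      have h7 : n - c9 ^ k * P = (n - q * P) + (q - c9 ^ k) * P := by ring
      have h8 : |(q - c9 ^ k) * P| = |q - c9 ^ k| * P := by rw [abs_mul, abs_of_nonneg hP0]
      rw [h7, ← h8]
      exact abs_add_le _ _
    have h7 : |q - c9 ^ k| * P ≤ ε * P := mul_le_mul_of_nonneg_right h2' hP0
    linarith
  -- sum over the labels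
  obtain ⟨LL, hLL⟩ : ∃ LL : Finset (ι → S₀ → F), LL = univ.filter (fun β => LNM V ν S₀ β) :=
    ⟨_, rfl⟩
  have hfib : ∀ T : (ι → Ei) → Prop,
      (((Fintype.piFinset C).filter fun p => NdM V μ S₀ (univ.image p) ∧ T p).card : ℝ) =
      ∑ β ∈ LL, (((Fintype.piFinset C).filter fun p =>
        (fun i => lb S₀ (p i)) = β ∧ T p).card : ℝ) := by
    intro T
    rw [Finset.card_eq_sum_card_fiberwise (f := fun (p : ι → Ei) (i : ι) => lb S₀ (p i))
      (t := LL) (by
        intro p hp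
        rw [Finset.mem_coe, Finset.mem_filter] at hp
        rw [Finset.mem_coe, hLL, Finset.mem_filter]
        exact ⟨Finset.mem_univ _, (ndm_iff (hinj p hp.1) (hmu p hp.1)).1 hp.2.1⟩)]
    push_cast
    refine Finset.sum_congr rfl fun β hβ => ?_
    rw [hLL, Finset.mem_filter] at hβ
    congr 2
    ext p
    simp only [Finset.mem_filter]
    constructor
    · rintro ⟨⟨h3, h4, h4'⟩, h5⟩
      exact ⟨h3, h5, h4'⟩
    · rintro ⟨h3, h4, h5⟩
      refine ⟨⟨h3, ?_, h5⟩, h4⟩
      rw [ndm_iff (hinj p h3) (hmu p h3), h4]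
      exact hβ.2
  have hf1 := hfib fun p => GW (wM W μ) (S₀ ∪ univ.image p)
  have hf2 := hfib fun _ => True
  simp only [and_true] at hf2
  rw [hf1, hf2, Finset.mul_sum, ← Finset.sum_sub_distrib]
  refine (Finset.abs_sum_le_sum_abs _ _).trans ?_
  refine (Finset.sum_le_sum fun β hβ => h1 β (by
    rw [hLL] at hβ
    exact (Finset.mem_filter.1 hβ).2)).trans ?_
  rw [Finset.sum_add_distrib, ← Finset.mul_sum, Finset.sum_const, nsmul_eq_mul]
  have h5 : ((LL.card : ℕ) : ℝ) ≤ 3 ^ (S₀.card * Fintype.card ι) := by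
    have h6 : LL.card ≤ Fintype.card (ι → S₀ → F) :=
      Finset.card_le_univ _
    rw [Fintype.card_fun, Fintype.card_fun, ZMod.card, Fintype.card_coe, ← pow_mul] at h6
    exact_mod_cast h6
  have h6 := mul_le_mul_of_nonneg_right h5 hR0
  rw [pow_add, mul_assoc, ← hR]
  linarith

end Pool.Agent.H451.JLM
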