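import Pool.Agent.H451.JLM.Stm
import Pool.Agent.H451.JL.EX

/-!
# JLM-EX: the moments in terms of the dimensions of the spaces of the solutions
-/

set_option autoImplicit false
set_option linter.unusedVariables false
set_option linter.unusedSectionVars false

open scoped Classical

namespace Pool.Agent.H451.JLM

open Finset
open Pool.Agent.Y699.E (ez)
open Pool.Agent.Y703.XK (prs ext c9)
open Pool.Agent.H451.JL (F In mu sT eT Qc)
open Pool.Agent.H451.JL.EX (card_sub In_eq en cl Qc_eq)

namespace EX

/-- tuples independent modulo a vector -/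
def IM {W : Type} [AddCommGroup W] [Module F W] (o : W) {d : ℕ} (w : Fin d → W) : Prop :=
  ∀ (g : Fin d → F) (γ : F), ∑ i, g i • w i = γ • o → g = 0

theorem card_IM (W : Type) [AddCommGroup W] [Module F W] [Finite W] (o : W) (ho : o ≠ 0) (d : ℕ) :
    (Nat.card {w : Fin d → W // IM o w} : ℝ) = 3 ^ d * In d (Module.finrank F W - 1) := by
  obtain ⟨C, hC⟩ := Submodule.exists_isCompl (Submodule.span F {o})
  let e := Submodule.prodEquivOfIsCompl _ _ hC
  have he : ∀ x : Submodule.span F {o} × C, e x = (x.1 : W) + (x.2 : W) := fun x => rfl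
  have hfr : Module.finrank F C = Module.finrank F W - 1 := by
    have h1 := Submodule.finrank_add_eq_of_isCompl hC
    rw [finrank_span_singleton ho] at h1
    omega
  have hsp : Nat.card (Submodule.span F {o}) = 3 := by
    have h1 := Module.natCard_eq_pow_finrank (K := F) (V := Submodule.span F {o})
    rw [finrank_span_singleton ho, pow_one, Nat.card_zmod] at h1
    exact h1
  let E : (Fin d → Submodule.span F {o}) × {c : Fin d → C // LinearIndependent F c} ≃
      {w : Fin d → W // IM o w} :=
    { toFun := fun x => ⟨fun i => e (x.1 i, x.2.1 i), by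
        intro g γ hg
        have h1 : ∑ i, g i • e (x.1 i, x.2.1 i) = e (∑ i, g i • x.1 i, ∑ i, g i • x.2.1 i) := by
          have h2 : ((∑ i, g i • x.1 i, ∑ i, g i • x.2.1 i) : Submodule.span F {o} × C) =
              ∑ i, g i • (x.1 i, x.2.1 i) := by
            refine Prod.ext ?_ ?_
            · rw [Prod.fst_sum]
              rfl
            · rw [Prod.snd_sum]
              rfl
          rw [h2, map_sum]
          exact Finset.sum_congr rfl fun i _ => (map_smul e _ _).symm
        have h3 : γ • o = e (⟨γ • o, Submodule.smul_mem _ _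
            (Submodule.mem_span_singleton_self o)⟩, 0) := by
          rw [he]
          simp
        rw [h1, h3] at hg
        have h4 := congrArg Prod.snd (e.injective hg)
        exact funext fun i => (Fintype.linearIndependent_iff.1 x.2.2) g h4 i⟩
      invFun := fun w => (fun i => (e.symm (w.1 i)).1, ⟨fun i => (e.symm (w.1 i)).2, by
        rw [Fintype.linearIndependent_iff]
        intro g hg i
        have h1 : ∑ i, g i • w.1 i = ((∑ i, g i • (e.symm (w.1 i)).1 : Submodule.span F {o}) : W) := by
          have h2 : ∑ i, g i • w.1 i = e (∑ i, g i • e.symm (w.1 i)) := by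
            rw [map_sum]
            refine Finset.sum_congr rfl fun i _ => ?_
            rw [map_smul, LinearEquiv.apply_symm_apply]
          rw [h2, he, Prod.fst_sum, Prod.snd_sum]
          have h5 : ∑ i, (g i • e.symm (w.1 i)).2 = 0 := hg
          rw [h5]
          simp
        obtain ⟨γ, hγ⟩ := Submodule.mem_span_singleton.1
          (∑ i, g i • (e.symm (w.1 i)).1 : Submodule.span F {o}).2
        have h3 := w.2 g γ (h1.trans hγ.symm)
        rw [h3]
        rfl⟩)
      left_inv := fun x => by
        refine Prod.ext ?_ (Subtype.ext ?_)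
        · funext i
          simp
        · funext i
          simp
      right_inv := fun w => by
        apply Subtype.ext
        funext i
        simp }
  rw [← Nat.card_congr E, Nat.card_prod, Nat.card_fun, hsp, Nat.cast_mul, In_eq, hfr]
  simp

section main

variable {J : Type} [Fintype J] [LinearOrder J] {k : ℕ} (s : Sys J k) (d : Fin k → ℕ)
  (w : Fin k → J → F)

/-- tuples as families -/
noncomputable def fam : s.Tu (cl d) ≃ (∀ x : Σ j : Fin k, Fin (d j), s.L x.1) :=
  Equiv.piCongrLeft (fun x : Σ j : Fin k, Fin (d j) => s.L x.1) (en d).symm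

theorem fam_apply (t : s.Tu (cl d)) (a : Fin (∑ j, d j)) :
    fam s d t ((en d).symm a) = t a :=
  Equiv.piCongrLeft_apply_apply (fun x : Σ j : Fin k, Fin (d j) => s.L x.1) (en d).symm t a

theorem sum_fam {M : Type} [AddCommMonoid M] (t : s.Tu (cl d))
    (φ : ∀ x : Σ j : Fin k, Fin (d j), s.L x.1 → M) :
    ∑ a, φ ((en d).symm a) (t a) = ∑ j, ∑ i : Fin (d j), φ ⟨j, i⟩ (fam s d t ⟨j, i⟩) := by
  rw [← Fintype.sum_sigma (fun x : Σ j : Fin k, Fin (d j) => φ x (fam s d t x)),
    ← Equiv.sum_comp (en d).symm]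
  apply Finset.sum_congr rfl
  intro a _
  rw [fam_apply]

theorem BI_iff (m₀ : ℕ) (hs : s.OK w m₀) (t : s.Tu (cl d)) :
    s.BI (cl d) w t ↔ ∀ j, IM (s.o j) (fun i : Fin (d j) => fam s d t ⟨j, i⟩) := by
  constructor
  · intro h j g γ hg
    -- the extension of `g`
    let G' : (Σ j : Fin k, Fin (d j)) → F := fun x => if h : x.1 = j then g (h ▸ x.2) else 0
    have hG1 : ∀ i, G' ⟨j, i⟩ = g i := by
      intro i
      simp [G']
    have hG2 : ∀ j', j' ≠ j → ∀ i, G' ⟨j', i⟩ = 0 := by
      intro j' hj' i
      simp [G', hj']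
    have key : ∀ (M : Type) [AddCommGroup M] [Module F M] (f : ∀ j, s.L j →ₗ[F] M),
        ∑ a, G' ((en d).symm a) • f (cl d a) (t a) = γ • f j (s.o j) := by
      intro M _ _ f
      have h1 := sum_fam s d t (fun x v => G' x • f x.1 v)
      refine h1.trans ?_
      rw [Finset.sum_eq_single j]
      · simp only [hG1]
        have h2 : ∑ i, g i • (f j) (fam s d t ⟨j, i⟩) = f j (∑ i, g i • fam s d t ⟨j, i⟩) := by
          rw [map_sum]
          apply Finset.sum_congr rfl
          intro i _
          rw [map_smul]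
        rw [h2, hg, map_smul]
      · intro j' _ hj'
        apply Finset.sum_eq_zero
        intro i _
        simp only [hG2 j' hj' i, zero_smul]
      · simp
    have h3 := h j (fun a => G' ((en d).symm a)) γ ?_ (fun l => ?_) (fun l => ?_)
    · funext i
      have h4 := congrFun h3 (en d ⟨j, i⟩)
      simp only [Equiv.symm_apply_apply, Pi.zero_apply] at h4
      rw [← hG1 i]
      exact h4
    · intro a ha
      by_contra hne
      apply ha
      exact hG2 _ hne _
    · have h4 := congrFun (key (J → F) s.y) l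
      simp only [Finset.sum_apply, Pi.smul_apply, smul_eq_mul] at h4
      rw [hs.oy] at h4
      refine Eq.trans h4 ?_
      split_ifs <;> simp
    · have h4 := congrFun (key (J → F) s.b) l
      simp only [Finset.sum_apply, Pi.smul_apply, smul_eq_mul] at h4
      rw [hs.ob] at h4
      refine Eq.trans h4 ?_
      simp
  · rintro h j g γ hj hY hB
    have hz : ∀ x : Σ j : Fin k, Fin (d j), x.1 ≠ j → g (en d x) = 0 := by
      intro x hx
      by_contra hne
      apply hx
      have := hj _ hne
      simpa [cl] using this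
    have key : ∀ (M : Type) [AddCommGroup M] [Module F M] (f : ∀ j, s.L j →ₗ[F] M),
        ∑ a, g a • f (cl d a) (t a) = f j (∑ i : Fin (d j), g (en d ⟨j, i⟩) • fam s d t ⟨j, i⟩) := by
      intro M _ _ f
      have h2 := sum_fam s d t (fun x v => g (en d x) • f x.1 v)
      simp only [Equiv.apply_symm_apply] at h2
      refine h2.trans ?_
      rw [Finset.sum_eq_single j]
      · rw [map_sum]
        apply Finset.sum_congr rfl
        intro i _
        rw [map_smul]
      · intro j' _ hj'
        apply Finset.sum_eq_zero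
        intro i _
        rw [hz ⟨j', i⟩ hj', zero_smul]
      · simp
    have h5 : ∑ i : Fin (d j), g (en d ⟨j, i⟩) • (fam s d t ⟨j, i⟩ : s.L j) = γ • s.o j := by
      rw [← sub_eq_zero]
      apply hs.inj j
      · rw [map_sub, ← key (J → F) s.y, map_smul]
        funext l
        simp only [Pi.sub_apply, Finset.sum_apply, Pi.smul_apply, smul_eq_mul, Pi.zero_apply]
        rw [hs.oy]
        have h6 := hY l
        unfold Sys.Y at h6
        rw [h6]
        split_ifs <;> simp
      · rw [map_sub, ← key (J → F) s.b, map_smul, hs.ob]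
        funext l
        simp only [Pi.sub_apply, Finset.sum_apply, Pi.smul_apply, smul_eq_mul, Pi.zero_apply]
        have h6 := hB l
        unfold Sys.B at h6
        rw [h6]
        simp
    have h6 := h j (fun i => g (en d ⟨j, i⟩)) γ h5
    funext a
    by_cases ha : cl d a = j
    · obtain ⟨x, rfl⟩ := (en d).surjective a
      obtain ⟨j', i⟩ := x
      have hj' : j' = j := by simpa [cl] using ha
      subst hj'
      exact congrFun h6 i
    · by_contra hne
      exact ha (hj a hne)

theorem Sat_iff (t : s.Tu (cl d)) (α : prs J → F) :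
    s.Sat (cl d) w t α ↔ ∀ x : Σ j : Fin k, Fin (d j), fam s d t x ∈ s.R w x.1 α := by
  have hR : ∀ j (p : s.L j), p ∈ s.R w j α ↔ lap (w j) α (s.y j p) = s.b j p := by
    intro j p
    unfold Sys.R
    rw [LinearMap.mem_ker, LinearMap.sub_apply, LinearMap.comp_apply, sub_eq_zero]
  constructor
  · intro h x
    rw [hR]
    obtain ⟨a, rfl⟩ := (en d).symm.surjective x
    rw [fam_apply]
    exact h a
  · intro h a
    have h1 := h ((en d).symm a)
    rw [hR, fam_apply] at h1
    exact h1

theorem o_mem (m₀ : ℕ) (hs : s.OK w m₀) (j : Fin k) (α : prs J → F) : s.o j ∈ s.R w j α := by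
  unfold Sys.R
  rw [LinearMap.mem_ker, LinearMap.sub_apply, LinearMap.comp_apply, hs.ob, sub_zero]
  funext l
  show ∑ l', w j l * w j l' * ext α l l' * (s.y j (s.o j) l' - s.y j (s.o j) l) = 0
  refine Finset.sum_eq_zero fun l' _ => ?_
  rw [hs.oy, hs.oy]
  by_cases h1 : w j l = 0
  · rw [h1]; ring
  · by_cases h2 : w j l' = 0
    · rw [h2]; ring
    · rw [if_neg h1, if_neg h2]; ring

/-- the tuples of solutions as families of tuples which are independent modulo `o` -/
noncomputable def eqv (m₀ : ℕ) (hs : s.OK w m₀) (α : prs J → F) :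
    {u : (∀ x : Σ j : Fin k, Fin (d j), s.L x.1) //
      (∀ j, IM (s.o j) (fun i : Fin (d j) => u ⟨j, i⟩)) ∧ ∀ x, u x ∈ s.R w x.1 α} ≃
    ∀ j, {v : Fin (d j) → s.R w j α // IM (⟨s.o j, o_mem s w m₀ hs j α⟩ : s.R w j α) v} where
  toFun u := fun j => ⟨fun i => ⟨u.1 ⟨j, i⟩, u.2.2 ⟨j, i⟩⟩, by
    intro g γ hg
    refine u.2.1 j g γ ?_
    have h := congrArg (s.R w j α).subtype hg
    rw [map_sum] at h
    exact h⟩
  invFun v := ⟨fun x => ((v x.1).1 x.2 : s.L x.1), by
    constructor
    · intro j g γ hg
      refine (v j).2 g γ (Subtype.ext ?_)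
      simpa using hg
    · intro x
      exact ((v x.1).1 x.2).2⟩
  left_inv u := by
    apply Subtype.ext
    funext x
    rfl
  right_inv v := by
    funext j
    apply Subtype.ext
    funext i
    rfl

theorem count (m₀ : ℕ) (hs : s.OK w m₀) (hw : ∀ j, ∃ l, w j l ≠ 0) (α : prs J → F) :
    (Nat.card {t : s.Tu (cl d) // s.BI (cl d) w t ∧ s.Sat (cl d) w t α} : ℝ) =
      3 ^ (∑ j, d j) * ∏ j, In (d j) (Module.finrank F (s.R w j α) - 1) := by
  have h1 : Nat.card {t : s.Tu (cl d) // s.BI (cl d) w t ∧ s.Sat (cl d) w t α} =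
      Nat.card (∀ j, {v : Fin (d j) → s.R w j α //
        IM (⟨s.o j, o_mem s w m₀ hs j α⟩ : s.R w j α) v}) := by
    apply Nat.card_congr
    refine Equiv.trans (Equiv.subtypeEquiv (fam s d) (fun t => ?_)) (eqv s d w m₀ hs α)
    rw [BI_iff s d w m₀ hs t, Sat_iff s d w t α]
  rw [h1, Nat.card_pi, Nat.cast_prod, ← Finset.prod_pow_eq_pow_sum, ← Finset.prod_mul_distrib]
  apply Finset.prod_congr rfl
  intro j _
  apply card_IM
  intro h
  have h2 : s.o j = 0 := congrArg Subtype.val h
  obtain ⟨l, hl⟩ := hw j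
  have h3 := hs.oy j l
  rw [h2, if_neg hl, map_zero] at h3
  exact zero_ne_one h3

end main

end EX

/-- **JLM-EX** -/
theorem t_EX : S_MOM → S_EX := by
  intro hM J _ _ k M m₀ n₀ W μ s d hNP hs hn0 hcl
  have h := hM J k M (∑ j, d j) m₀ n₀ W μ s (cl d) hNP hs hn0 hcl
  rw [Qc_eq] at h
  have hw : ∀ j, ∃ l, wt W μ j l ≠ 0 := by
    intro j
    obtain ⟨m, hm⟩ := hNP.1 j
    have h1 := lt_of_lt_of_le (Nat.lt_of_lt_of_le Nat.zero_lt_one hn0) (hcl m)
    obtain ⟨l, hl⟩ := Finset.card_pos.1 h1
    refine ⟨l, ?_⟩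
    unfold wt
    rw [(Finset.mem_filter.1 hl).2]
    exact hm
  set A := (∑ α : prs J → F, ∏ j, In (d j) (Module.finrank F (s.R (wt W μ) j α) - 1)) /
      3 ^ (prs J).card with hA
  have h1 : (∑ t : s.Tu (cl d), if s.BI (cl d) (wt W μ) t then pr (s.Sat (cl d) (wt W μ) t) else 0)
      = 3 ^ (∑ j, d j) * A := by
    have h2 : ∀ t : s.Tu (cl d), (if s.BI (cl d) (wt W μ) t then pr (s.Sat (cl d) (wt W μ) t)
        else 0) = (∑ α : prs J → F, if s.BI (cl d) (wt W μ) t ∧ s.Sat (cl d) (wt W μ) t α
        then (1 : ℝ) else 0) / 3 ^ (prs J).card := by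
      intro t
      by_cases hb : s.BI (cl d) (wt W μ) t
      · rw [if_pos hb]
        unfold pr
        rw [Finset.sum_boole]
        simp only [hb, true_and]
      · rw [if_neg hb]
        simp [hb]
    rw [Finset.sum_congr rfl fun t _ => h2 t, ← Finset.sum_div, Finset.sum_comm, hA,
      mul_div_assoc', Finset.mul_sum]
    congr 1
    apply Finset.sum_congr rfl
    intro α _
    rw [← EX.count s d (wt W μ) m₀ hs hw α, card_sub]
    refine Finset.sum_congr rfl fun x _ => ?_
    split_ifs <;> rfl
  rw [h1, pow_add, ← Finset.prod_pow_eq_pow_sum univ (fun j => (d j).choose 2), ← mul_sub, abs_mul,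
    abs_of_pos (by positivity)] at h
  have h3 : (1 : ℝ) ≤ 3 ^ (∑ j, d j) := one_le_pow₀ (by norm_num)
  calc |A - ∏ j, (3 : ℝ) ^ ((d j).choose 2)| ≤ 3 ^ (∑ j, d j) *
        |A - ∏ j, (3 : ℝ) ^ ((d j).choose 2)| := le_mul_of_one_le_left (abs_nonneg _) h3
    _ ≤ _ := h

end Pool.Agent.H451.JLM
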