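import Mathlib
import Pool.Agent.H451.JLM.Stm

/-!
# Project JLM, part FOU: the Fourier formula for several Laplacian equations
-/

set_option autoImplicit false
set_option linter.unusedVariables false

open scoped Classical

namespace Pool.Agent.H451.JLM

open Finset
open Pool.Agent.Y699.E (ez ez_zero ez_add ez_sum sum_ez)
open Pool.Agent.Y703.XK (prs ext c9)
open Pool.Agent.H451.JL (F In mu sT eT Qc)

namespace Fou

theorem sum_pi {ι : Type} [Fintype ι] (a : ι → F) :
    ∑ α : ι → F, ez (∑ i, α i * a i) = if (∀ i, a i = 0) then (3 : ℂ) ^ Fintype.card ι else 0 := by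
  have h1 : ∑ α : ι → F, ez (∑ i, α i * a i) = ∏ i, ∑ c : F, ez (c * a i) := by
    rw [Finset.prod_univ_sum, Fintype.piFinset_univ]
    exact Finset.sum_congr rfl fun α _ => ez_sum _ _
  rw [h1]
  simp only [sum_ez]
  by_cases h : ∀ i, a i = 0
  · rw [if_pos h]
    simp only [h, if_true, prod_const, card_univ]
  · rw [if_neg h]
    push Not at h
    obtain ⟨i, hi⟩ := h
    exact Finset.prod_eq_zero (Finset.mem_univ i) (if_neg hi)

variable {J : Type} [Fintype J] [LinearOrder J] {k D : ℕ}

/-- the allowed values -/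
noncomputable def vs (w : Fin k → J → F) (c : Fin D → Fin k) (a : Fin D) (l : J) : Finset F :=
  if w (c a) l = 0 then {0} else univ

theorem US_eq (w : Fin k → J → F) (c : Fin D → Fin k) :
    US w c = Fintype.piFinset fun a => Fintype.piFinset fun l => vs w c a l := by
  ext u
  simp only [US, mem_filter, mem_univ, true_and, Fintype.mem_piFinset, vs]
  refine forall_congr' fun a => forall_congr' fun l => ?_
  by_cases h : w (c a) l = 0
  · simp [h]
  · simp [h]

theorem sum_vs (w : Fin k → J → F) (c : Fin D → Fin k) (a : Fin D) (l : J) (r : F)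
    (hr : w (c a) l = 0 → r = 0) : ∑ x ∈ vs w c a l, ez (x * r) =
      if r = 0 then (if w (c a) l = 0 then 1 else 3) else 0 := by
  unfold vs
  by_cases h : w (c a) l = 0
  · rw [if_pos h, if_pos h, if_pos (hr h), sum_singleton, zero_mul, ez_zero]
  · rw [if_neg h, if_neg h, sum_ez]

theorem prod_vs (w : Fin k → J → F) (c : Fin D → Fin k) :
    ∏ a : Fin D, ∏ l, (if w (c a) l = 0 then (1 : ℂ) else 3) = 3 ^ nn w c := by
  unfold nn
  rw [← Finset.prod_pow_eq_pow_sum]
  refine Finset.prod_congr rfl fun a _ => ?_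
  unfold sp
  rw [← Finset.prod_const, Finset.prod_filter]
  refine Finset.prod_congr rfl fun l _ => ?_
  by_cases h : w (c a) l = 0
  · simp [h]
  · simp [h]

theorem sum_US (w : Fin k → J → F) (c : Fin D → Fin k) (r : Fin D → J → F)
    (hr : ∀ a l, w (c a) l = 0 → r a l = 0) :
    ∑ u ∈ US w c, ez (∑ a, ∑ l, u a l * r a l) =
      if (∀ a, r a = 0) then (3 : ℂ) ^ nn w c else 0 := by
  have h1 : ∑ u ∈ US w c, ez (∑ a, ∑ l, u a l * r a l) =
      ∏ a : Fin D, ∏ l, ∑ x ∈ vs w c a l, ez (x * r a l) := by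
    rw [US_eq]
    have h2 : ∀ a : Fin D, ∏ l, ∑ x ∈ vs w c a l, ez (x * r a l) =
        ∑ v ∈ Fintype.piFinset (fun l => vs w c a l), ∏ l, ez (v l * r a l) := fun a =>
      Finset.prod_univ_sum _ _
    simp only [h2]
    rw [Finset.prod_univ_sum]
    refine Finset.sum_congr rfl fun u _ => ?_
    rw [ez_sum]
    exact Finset.prod_congr rfl fun a _ => ez_sum _ _
  rw [h1]
  have h3 : ∀ a l, ∑ x ∈ vs w c a l, ez (x * r a l) =
      if r a l = 0 then (if w (c a) l = 0 then 1 else 3) else 0 := fun a l =>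
    sum_vs w c a l (r a l) (hr a l)
  simp only [h3]
  by_cases h : ∀ a, r a = 0
  · rw [if_pos h, ← prod_vs]
    refine Finset.prod_congr rfl fun a _ => Finset.prod_congr rfl fun l _ => ?_
    have h4 : r a l = 0 := by rw [h a]; rfl
    rw [if_pos h4]
  · rw [if_neg h]
    push Not at h
    obtain ⟨a, ha⟩ := h
    obtain ⟨l, hl⟩ := Function.ne_iff.1 ha
    have h4 : ¬ r a l = 0 := hl
    refine Finset.prod_eq_zero (Finset.mem_univ a) (Finset.prod_eq_zero (Finset.mem_univ l) ?_)
    rw [if_neg h4]

theorem sum_pairs (G : J → J → F) (h0 : ∀ l, G l l = 0) :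
    ∑ l, ∑ l', G l l' = ∑ e : prs J, (G e.1.1 e.1.2 + G e.1.2 e.1.1) := by
  have h1 : ∀ l l', G l l' = (if l < l' then G l l' else 0) + (if l' < l then G l l' else 0) := by
    intro l l'
    rcases lt_trichotomy l l' with h | h | h
    · rw [if_pos h, if_neg h.not_gt, add_zero]
    · subst h
      rw [if_neg (lt_irrefl _), h0, add_zero]
    · rw [if_neg h.not_gt, if_pos h, zero_add]
  have h2 : ∑ l, ∑ l', G l l' = ∑ l, ∑ l', (if l < l' then G l l' + G l' l else 0) := by
    calc ∑ l, ∑ l', G l l' = ∑ l, ∑ l', ((if l < l' then G l l' else 0) +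
          (if l' < l then G l l' else 0)) :=
          Finset.sum_congr rfl fun l _ => Finset.sum_congr rfl fun l' _ => h1 l l'
      _ = ∑ l, ∑ l', (if l < l' then G l l' else 0) +
          ∑ l, ∑ l', (if l' < l then G l l' else 0) := by
          simp only [Finset.sum_add_distrib]
      _ = ∑ l, ∑ l', (if l < l' then G l l' else 0) +
          ∑ l, ∑ l', (if l < l' then G l' l else 0) := by
          rw [Finset.sum_comm (f := fun l l' => if l' < l then G l l' else 0)]
      _ = _ := by
          simp only [← Finset.sum_add_distrib]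
          refine Finset.sum_congr rfl fun l _ => Finset.sum_congr rfl fun l' _ => ?_
          by_cases h : l < l'
          · rw [if_pos h, if_pos h, if_pos h]
          · rw [if_neg h, if_neg h, if_neg h, add_zero]
  rw [h2, ← Finset.sum_product', Finset.univ_product_univ]
  rw [Finset.sum_coe_sort (prs J) (fun e => G e.1 e.2 + G e.2 e.1)]
  unfold prs
  rw [Finset.sum_filter]

theorem ext_lt {α : prs J → F} (e : prs J) : Pool.Agent.Y703.XK.ext α e.1.1 e.1.2 = α e := by
  unfold Pool.Agent.Y703.XK.ext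
  rw [dif_pos (show (e.1.1, e.1.2) ∈ prs J from e.2)]

theorem ext_gt {α : prs J → F} (e : prs J) : Pool.Agent.Y703.XK.ext α e.1.2 e.1.1 = α e := by
  unfold Pool.Agent.Y703.XK.ext
  have h1 : e.1.1 < e.1.2 := by
    have h0 : e.1 ∈ prs J := e.2
    unfold prs at h0
    exact (Finset.mem_filter.1 h0).2
  have h2 : (e.1.2, e.1.1) ∉ prs J := by
    unfold prs
    simp only [mem_filter, mem_univ, true_and]
    exact h1.not_gt
  rw [dif_neg h2, dif_pos (show (e.1.1, e.1.2) ∈ prs J from e.2)]

theorem lap_sum (w : J → F) (α : prs J → F) (y u : J → F) :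
    ∑ l, u l * lap w α y l = ∑ e : prs J, α e *
      (-(w e.1.1 * w e.1.2 * (u e.1.1 - u e.1.2) * (y e.1.1 - y e.1.2))) := by
  have h1 : ∑ l, u l * lap w α y l =
      ∑ l, ∑ l', u l * (w l * w l' * ext α l l' * (y l' - y l)) := by
    refine Finset.sum_congr rfl fun l _ => ?_
    rw [← Finset.mul_sum]
    rfl
  rw [h1, sum_pairs _ (fun l => by ring)]
  refine Finset.sum_congr rfl fun e _ => ?_
  rw [ext_lt, ext_gt]
  ring

/-- the linear form of a pair -/
def ph (w : Fin k → J → F) (c : Fin D → Fin k) (y u : Fin D → J → F) (l l' : J) : F :=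
  ∑ a, w (c a) l * w (c a) l' * (u a l - u a l') * (y a l - y a l')

theorem expo (w : Fin k → J → F) (c : Fin D → Fin k) (y u : Fin D → J → F) (α : prs J → F) :
    -∑ a, ∑ l, u a l * lap (w (c a)) α (y a) l =
      ∑ e : prs J, α e * ph w c y u e.1.1 e.1.2 := by
  simp only [lap_sum]
  rw [Finset.sum_comm, ← Finset.sum_neg_distrib]
  refine Finset.sum_congr rfl fun e _ => ?_
  unfold ph
  rw [Finset.mul_sum, ← Finset.sum_neg_distrib]
  refine Finset.sum_congr rfl fun a _ => ?_
  ring

theorem UL_iff (w : Fin k → J → F) (c : Fin D → Fin k) (y u : Fin D → J → F) :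
    UL w c y u ↔ ∀ e : prs J, ph w c y u e.1.1 e.1.2 = 0 := by
  constructor
  · intro h e
    exact h e.1.1 e.1.2
  · intro h l l'
    rcases lt_trichotomy l l' with h1 | h1 | h1
    · exact h ⟨(l, l'), by unfold prs; simpa using h1⟩
    · subst h1
      refine Finset.sum_eq_zero fun a _ => ?_
      ring
    · have h2 : ph w c y u l' l = 0 := h ⟨(l', l), by unfold prs; simpa using h1⟩
      rw [← h2]
      unfold ph
      refine Finset.sum_congr rfl fun a _ => ?_
      ring

theorem lap_zero (w : J → F) (α : prs J → F) (y : J → F) (l : J) (h : w l = 0) :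
    lap w α y l = 0 := by
  show ∑ l', w l * w l' * ext α l l' * (y l' - y l) = 0
  refine Finset.sum_eq_zero fun l' _ => ?_
  rw [h]
  ring

end Fou

open Fou

theorem t_FOU : S_FOU := by
  intro J _ _ k D w c y b hy hb
  have hb' : ∀ a l, w (c a) l = 0 → b a l = 0 := by
    have := hb
    unfold US at this
    simpa using this
  have h1 : ∀ α : prs J → F, ∑ u ∈ US w c,
      ez (∑ a, ∑ l, u a l * (b a l - lap (w (c a)) α (y a) l)) =
      if (∀ a, lap (w (c a)) α (y a) = b a) then (3 : ℂ) ^ nn w c else 0 := by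
    intro α
    rw [sum_US w c (fun a l => b a l - lap (w (c a)) α (y a) l) (fun a l h => by
      rw [hb' a l h, lap_zero _ _ _ _ h, sub_zero])]
    have h2 : (∀ a, (fun l => b a l - lap (w (c a)) α (y a) l) = 0) ↔
        ∀ a, lap (w (c a)) α (y a) = b a := by
      refine forall_congr' fun a => ?_
      constructor
      · intro h
        funext l
        have := congrFun h l
        exact (sub_eq_zero.1 this).symm
      · intro h
        funext l
        rw [h, sub_self]
        rfl
    by_cases h3 : ∀ a, lap (w (c a)) α (y a) = b a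
    · rw [if_pos h3, if_pos (h2.2 h3)]
    · rw [if_neg h3, if_neg (fun h => h3 (h2.1 h))]
  have h2 : ((univ.filter fun α : prs J → F => ∀ a, lap (w (c a)) α (y a) = b a).card : ℂ) *
      3 ^ nn w c = ∑ α : prs J → F, ∑ u ∈ US w c,
        ez (∑ a, ∑ l, u a l * (b a l - lap (w (c a)) α (y a) l)) := by
    simp only [h1]
    rw [← Finset.sum_filter, Finset.sum_const, nsmul_eq_mul]
  rw [h2, Finset.sum_comm, Finset.sum_filter, Finset.mul_sum]
  refine Finset.sum_congr rfl fun u _ => ?_
  have h3 : ∀ α : prs J → F, ez (∑ a, ∑ l, u a l * (b a l - lap (w (c a)) α (y a) l)) =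
      ez (∑ a, ∑ l, u a l * b a l) * ez (∑ e : prs J, α e * ph w c y u e.1.1 e.1.2) := by
    intro α
    rw [← ez_add, ← expo, ← sub_eq_add_neg, ← Finset.sum_sub_distrib]
    congr 1
    refine Finset.sum_congr rfl fun a _ => ?_
    rw [← Finset.sum_sub_distrib]
    refine Finset.sum_congr rfl fun l _ => ?_
    ring
  simp only [h3]
  have h5 := sum_pi (ι := prs J) (fun e => ph w c y u e.1.1 e.1.2)
  rw [Fintype.card_coe] at h5
  rw [← Finset.mul_sum]
  have h6 : ∑ α : prs J → F, ez (∑ e : prs J, α e * ph w c y u e.1.1 e.1.2) =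
      if (∀ e : prs J, ph w c y u e.1.1 e.1.2 = 0) then (3 : ℂ) ^ (prs J).card else 0 := by
    refine Eq.trans (Finset.sum_congr ?_ fun _ _ => rfl) (h5.trans ?_)
    · ext x
      simp only [Finset.mem_univ]
    by_cases h : ∀ e : prs J, ph w c y u e.1.1 e.1.2 = 0
    · rw [if_pos h]
    · rw [if_neg h]
  rw [h6]
  by_cases h4 : UL w c y u
  · rw [if_pos h4, if_pos ((UL_iff w c y u).1 h4), mul_comm]
  · rw [if_neg h4, if_neg (fun h => h4 ((UL_iff w c y u).2 h)), mul_zero, mul_zero]

end Pool.Agent.H451.JLM
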