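import Pool.Agent.H451.JLM.Stm

/-!
# JLM-GRA: the graph configurations (by helper215)
-/

set_option autoImplicit false
set_option linter.unusedSectionVars false

open scoped Classical

namespace Pool.Agent.H451.JLM

open Finset
open Pool.Agent.Y699.E (ez)
open Pool.Agent.H451.JL (F Qc)

namespace GRAL

theorem eq_zero_of_neg (x : F) (h : x = -x) : x = 0 := by
  revert x
  decide

theorem anti_zero {D : ℕ} (f : Fin D → Fin D → F) (h : ∀ a a', f a a' = - f a' a) :
    ∑ a, ∑ a', f a a' = 0 := by
  refine eq_zero_of_neg _ ?_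
  conv_lhs => rw [sum_comm]
  rw [← sum_neg_distrib]
  refine sum_congr rfl fun a _ => ?_
  rw [← sum_neg_distrib]
  exact sum_congr rfl fun a' _ => h a' a

section

variable {J : Type} [Fintype J] [LinearOrder J] {k D : ℕ} {w : Fin k → J → F}
  {c : Fin D → Fin k} {y b : Fin D → J → F}

theorem gr_ul (u : Fin D → J → F) (h : Gr w c y u) : UL w c y u := by
  obtain ⟨A, e, h1, h2, h3⟩ := h
  intro l l'
  have h4 : ∀ a, w (c a) l * w (c a) l' * (u a l - u a l') * (y a l - y a l') =
      ∑ a', A a a' * (w (c a) l * w (c a) l' * (y a' l - y a' l') * (y a l - y a l')) := by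
    intro a
    by_cases hl : w (c a) l = 0
    · simp [hl]
    by_cases hl' : w (c a) l' = 0
    · simp [hl']
    rw [h3 a l hl, h3 a l' hl', add_sub_add_right_eq_sub, ← sum_sub_distrib, mul_sum, sum_mul]
    exact sum_congr rfl fun _ _ => by ring
  rw [sum_congr rfl fun a _ => h4 a]
  refine anti_zero _ fun a a' => ?_
  by_cases hA : A a a' = 0
  · have hA' : A a' a = 0 := by rw [h2, hA, neg_zero]
    rw [hA, hA']
    ring
  · rw [h1 a a' hA, h2 a a']
    ring

theorem gr_exp (hb : b ∈ US w c) (hs : ∀ a, ∑ l, b a l = 0)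
    (hsym : ∀ a a', c a = c a' → ∑ l, b a l * y a' l = ∑ l, b a' l * y a l)
    (u : Fin D → J → F) (h : Gr w c y u) : ∑ a, ∑ l, u a l * b a l = 0 := by
  obtain ⟨A, e, h1, h2, h3⟩ := h
  have hb' : ∀ a l, w (c a) l = 0 → b a l = 0 := (mem_filter.1 hb).2
  have h4 : ∀ a, ∑ l, u a l * b a l = ∑ a', A a a' * ∑ l, b a l * y a' l := by
    intro a
    have h5 : ∀ l, u a l * b a l = (∑ a', A a a' * (b a l * y a' l)) + e a * b a l := by
      intro l
      by_cases hl : w (c a) l = 0
      · simp [hb' a l hl]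
      · rw [h3 a l hl, add_mul, sum_mul]
        congr 1
        exact sum_congr rfl fun _ _ => by ring
    rw [sum_congr rfl fun l _ => h5 l, sum_add_distrib, ← mul_sum, hs, mul_zero, add_zero,
      sum_comm]
    exact sum_congr rfl fun _ _ => (mul_sum _ _ _).symm
  rw [sum_congr rfl fun a _ => h4 a]
  refine anti_zero _ fun a a' => ?_
  by_cases hA : A a a' = 0
  · have hA' : A a' a = 0 := by rw [h2, hA, neg_zero]
    rw [hA, hA']
    ring
  · rw [hsym a a' (h1 a a' hA), h2 a a']
    ring

/-- the pairs of indices of the same colour -/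
abbrev PP (c : Fin D → Fin k) : Type := {e : Fin D × Fin D // e.1 < e.2 ∧ c e.1 = c e.2}

/-- the alternating matrix -/
noncomputable def toA (A : PP c → F) (a a' : Fin D) : F :=
  if h : a < a' ∧ c a = c a' then A ⟨(a, a'), h⟩ else
    if h : a' < a ∧ c a' = c a then - A ⟨(a', a), h⟩ else 0

theorem toA_col (A : PP c → F) (a a' : Fin D) (h : toA A a a' ≠ 0) : c a = c a' := by
  unfold toA at h
  by_cases h1 : a < a' ∧ c a = c a'
  · exact h1.2
  · by_cases h2 : a' < a ∧ c a' = c a
    · exact h2.2.symm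
    · rw [dif_neg h1, dif_neg h2] at h
      exact absurd rfl h

theorem toA_neg (A : PP c → F) (a a' : Fin D) : toA A a a' = - toA A a' a := by
  unfold toA
  by_cases h1 : a < a' ∧ c a = c a'
  · have h2 : ¬ (a' < a ∧ c a' = c a) := fun h => lt_asymm h1.1 h.1
    rw [dif_pos h1, dif_neg h2, dif_pos h1, neg_neg]
  · by_cases h2 : a' < a ∧ c a' = c a
    · rw [dif_neg h1, dif_pos h2, dif_pos h2]
    · rw [dif_neg h1, dif_neg h2, dif_neg h2, dif_neg h1, neg_zero]

theorem toA_of {A : Fin D → Fin D → F} (h1 : ∀ a a', A a a' ≠ 0 → c a = c a')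
    (h2 : ∀ a a', A a a' = - A a' a) (a a' : Fin D) :
    toA (fun p : PP c => A p.1.1 p.1.2) a a' = A a a' := by
  unfold toA
  by_cases h3 : a < a' ∧ c a = c a'
  · rw [dif_pos h3]
  · by_cases h4 : a' < a ∧ c a' = c a
    · rw [dif_neg h3, dif_pos h4]
      exact (h2 a a').symm
    · rw [dif_neg h3, dif_neg h4]
      by_contra hne
      have h5 : A a a' ≠ 0 := fun h => hne h.symm
      have h6 := h1 a a' h5
      rcases lt_trichotomy a a' with h7 | h7 | h7
      · exact h3 ⟨h7, h6⟩
      · subst h7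
        exact h5 (eq_zero_of_neg _ (h2 a a))
      · exact h4 ⟨h7, h6.symm⟩

theorem toA_inj {A B : PP c → F} (h : ∀ a a', toA A a a' = toA B a a') : A = B := by
  funext ⟨⟨a, a'⟩, h1⟩
  have h2 := h a a'
  unfold toA at h2
  have h3 : a < a' ∧ c a = c a' := h1
  rw [dif_pos h3, dif_pos h3] at h2
  exact h2

/-- the configuration of a pair -/
noncomputable def Ph (w : Fin k → J → F) (y : Fin D → J → F) (p : (PP c → F) × (Fin D → F)) :
    Fin D → J → F :=
  fun a l => if w (c a) l = 0 then 0 else (∑ a', toA p.1 a a' * y a' l) + p.2 a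

theorem Ph_inj (hw : ∀ j, ∃ l, w j l ≠ 0) (hy : y ∈ US w c) (hB : BY w c y) :
    Function.Injective (Ph (c := c) w y) := by
  have hy' : ∀ a l, w (c a) l = 0 → y a l = 0 := (mem_filter.1 hy).2
  rintro ⟨A, e⟩ ⟨B, f⟩ h
  have h1 : ∀ a l, w (c a) l ≠ 0 →
      ∑ a', (toA A a a' - toA B a a') * y a' l = -(e a - f a) := by
    intro a l hl
    have h2 := congrFun (congrFun h a) l
    simp only [Ph, if_neg hl] at h2
    simp only [sub_mul, sum_sub_distrib]
    linear_combination h2
  have h3 : ∀ a, (fun a' => toA A a a' - toA B a a') = 0 := by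
    intro a
    refine hB (c a) _ (-(e a - f a)) (fun a' ha' => ?_) (fun l => ?_)
    · by_cases hA : toA A a a' = 0
      · refine (toA_col B a a' fun hB => ha' ?_).symm
        rw [hA, hB, sub_zero]
      · exact (toA_col A a a' hA).symm
    · by_cases hl : w (c a) l = 0
      · rw [if_pos hl]
        refine sum_eq_zero fun a' _ => ?_
        by_cases hc : c a' = c a
        · rw [hy' a' l (hc ▸ hl), mul_zero]
        · have hA : toA A a a' = 0 := by
            by_contra h4
            exact hc (toA_col A a a' h4).symm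
          have hB' : toA B a a' = 0 := by
            by_contra h4
            exact hc (toA_col B a a' h4).symm
          change (toA A a a' - toA B a a') * y a' l = 0
          rw [hA, hB', sub_zero, zero_mul]
      · rw [if_neg hl]
        exact h1 a l hl
  have h4 : A = B := toA_inj fun a a' => sub_eq_zero.1 (congrFun (h3 a) a')
  have h5 : e = f := by
    funext a
    obtain ⟨l, hl⟩ := hw (c a)
    have h6 := h1 a l hl
    have h7 : ∀ a', toA A a a' - toA B a a' = 0 := fun a' => congrFun (h3 a) a'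
    simp only [h7, zero_mul, sum_const_zero] at h6
    have h8 : e a - f a = 0 := by
      rw [← neg_eq_zero]
      exact h6.symm
    exact sub_eq_zero.1 h8
  rw [h4, h5]

theorem image_Ph : (US w c).filter (Gr w c y) = univ.image (Ph (c := c) w y) := by
  ext u
  simp only [mem_filter, mem_image, mem_univ, true_and]
  constructor
  · rintro ⟨hu, A, e, h1, h2, h3⟩
    have hu' : ∀ a l, w (c a) l = 0 → u a l = 0 := (mem_filter.1 hu).2
    refine ⟨(fun p : PP c => A p.1.1 p.1.2, e), ?_⟩
    funext a l
    simp only [Ph]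
    by_cases hl : w (c a) l = 0
    · rw [if_pos hl, hu' a l hl]
    · rw [if_neg hl, h3 a l hl]
      simp only [toA_of h1 h2]
  · rintro ⟨⟨A, e⟩, rfl⟩
    refine ⟨mem_filter.2 ⟨mem_univ _, fun a l hl => ?_⟩, toA A, e, toA_col A, toA_neg A,
      fun a l hl => ?_⟩
    · simp only [Ph, if_pos hl]
    · simp only [Ph, if_neg hl]

theorem card_PP : Fintype.card (PP c) = Qc c := by
  unfold Qc
  rw [Fintype.card_subtype]

end

end GRAL

open GRAL in
theorem t_GRA : S_GRA := by
  intro J _ _ k D w c y b hw hy hb hs hsym hB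
  refine ⟨fun u hu => gr_ul u hu, ?_⟩
  have h1 : ∀ u ∈ (US w c).filter (Gr w c y), ez (∑ a, ∑ l, u a l * b a l) = 1 := by
    intro u hu
    rw [gr_exp hb hs hsym u (mem_filter.1 hu).2]
    simp [ez]
  rw [sum_congr rfl h1, sum_const, nsmul_eq_mul, mul_one, image_Ph,
    card_image_of_injective _ (Ph_inj hw hy hB), card_univ, Fintype.card_prod, Fintype.card_fun,
    Fintype.card_fun, card_PP, ZMod.card, Fintype.card_fin]
  push_cast
  rw [pow_add, mul_comm]

end Pool.Agent.H451.JLM
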