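import Pool.Agent.H451.JLM.Stm

/-! JLM-ISO: sets of points which are pairwise unlinked for the form `∑ y_a u_a`. -/

set_option autoImplicit false

open scoped Classical

namespace Pool.Agent.H451.JLM

open Finset
open Pool.Agent.H451.JL (F)

namespace ISOp

/-- the polar form -/
noncomputable def bf (ι : Type) [Fintype ι] : LinearMap.BilinForm F (ι → F × F) :=
  LinearMap.mk₂ F (fun z z' => ∑ a, ((z a).1 * (z' a).2 + (z a).2 * (z' a).1))
    (fun x y z => by
      rw [← sum_add_distrib]
      exact sum_congr rfl fun a _ => by simp only [Pi.add_apply, Prod.fst_add, Prod.snd_add]; ring)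
    (fun c x y => by
      rw [smul_sum]
      exact sum_congr rfl fun a _ => by
        simp only [Pi.smul_apply, Prod.smul_fst, Prod.smul_snd, smul_eq_mul]; ring)
    (fun x y z => by
      rw [← sum_add_distrib]
      exact sum_congr rfl fun a _ => by simp only [Pi.add_apply, Prod.fst_add, Prod.snd_add]; ring)
    (fun c x y => by
      rw [smul_sum]
      exact sum_congr rfl fun a _ => by
        simp only [Pi.smul_apply, Prod.smul_fst, Prod.smul_snd, smul_eq_mul]; ring)

theorem bf_apply {ι : Type} [Fintype ι] (z z' : ι → F × F) :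
    bf ι z z' = ∑ a, ((z a).1 * (z' a).2 + (z a).2 * (z' a).1) := rfl

theorem bf_symm {ι : Type} [Fintype ι] (z z' : ι → F × F) : bf ι z z' = bf ι z' z := by
  rw [bf_apply, bf_apply]
  exact sum_congr rfl fun a _ => by ring

theorem bf_sep {ι : Type} [Fintype ι] (z : ι → F × F) (h : ∀ z', bf ι z z' = 0) : z = 0 := by
  funext a
  have h1 := h (Pi.single a (0, 1))
  have h2 := h (Pi.single a (1, 0))
  rw [bf_apply, sum_eq_single a] at h1 h2
  · simp only [Pi.single_eq_same, mul_one, mul_zero, add_zero, zero_add] at h1 h2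
    exact Prod.ext h1 h2
  · intro b _ hb
    rw [Pi.single_eq_of_ne hb]
    simp
  · intro h; exact absurd (mem_univ a) h
  · intro b _ hb
    rw [Pi.single_eq_of_ne hb]
    simp
  · intro h; exact absurd (mem_univ a) h

theorem bf_nondeg (ι : Type) [Fintype ι] : (bf ι).Nondegenerate :=
  ⟨fun z h => bf_sep z h, fun z h => bf_sep z fun z' => by rw [bf_symm]; exact h z'⟩

theorem rank_iso {ι : Type} [Fintype ι] (V : Submodule F (ι → F × F)) (hV : ∀ z ∈ V, ∀ z' ∈ V, bf ι z z' = 0) :
    Module.finrank F V ≤ Fintype.card ι := by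
  have h1 := LinearMap.BilinForm.finrank_orthogonal (bf_nondeg ι) V
  have h2 : V ≤ (bf ι).orthogonal V := by
    intro z hz
    rw [LinearMap.BilinForm.mem_orthogonal_iff]
    intro n hn
    exact hV n hn z hz
  have h3 := Submodule.finrank_mono h2
  have h4 : Module.finrank F (ι → F × F) = 2 * Fintype.card ι := by
    rw [Module.finrank_pi_fintype]
    simp [Module.finrank_prod]
    ring
  have h5 := Submodule.finrank_le V
  omega

theorem card_iso {D : ℕ} (A : Finset (Fin D)) (V : Submodule F (Fin D → F × F))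
    (hA : ∀ z ∈ V, ∀ a, a ∉ A → z a = 0) (hV : ∀ z ∈ V, ∀ z' ∈ V, bf (Fin D) z z' = 0) :
    Nat.card V ≤ 3 ^ A.card := by
  set res : (Fin D → F × F) →ₗ[F] (A → F × F) := LinearMap.funLeft F (F × F) (Subtype.val : A → Fin D) with hres
  have hr : ∀ z (a : A), res z a = z a := fun z a => rfl
  have hbf : ∀ z ∈ V, ∀ z' ∈ V, bf A (res z) (res z') = 0 := by
    intro z hz z' hz'
    rw [← hV z hz z' hz', bf_apply, bf_apply]
    simp only [hr]
    rw [sum_coe_sort A fun a => (z a).1 * (z' a).2 + (z a).2 * (z' a).1]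
    refine sum_subset (subset_univ _) fun a _ ha => ?_
    rw [hA z hz a ha]
    simp
  have hinj : Function.Injective (res.domRestrict V) := by
    rw [← LinearMap.ker_eq_bot, LinearMap.ker_eq_bot']
    intro z hz
    apply Subtype.ext
    funext a
    by_cases ha : a ∈ A
    · exact congrFun hz ⟨a, ha⟩
    · exact hA z z.2 a ha
  have h1 : Module.finrank F V = Module.finrank F (V.map res) := by
    have h2 := LinearMap.finrank_range_of_inj hinj
    rw [LinearMap.range_domRestrict] at h2
    exact h2.symm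
  have h2 := rank_iso (V.map res) (by
    rintro _ ⟨z, hz, rfl⟩ _ ⟨z', hz', rfl⟩
    exact hbf z hz z' hz')
  rw [← h1, Fintype.card_coe] at h2
  rw [Nat.card_eq_fintype_card, Module.card_eq_pow_finrank (K := F) (V := V), ZMod.card]
  exact Nat.pow_le_pow_right (by norm_num) h2

end ISOp

open ISOp in
/-- JLM-ISO -/
theorem t_ISO : S_ISO := by
  intro D A T hA hQ
  rcases T.eq_empty_or_nonempty with rfl | ⟨t₀, ht₀⟩
  · refine ⟨by simp, fun h => ?_⟩
    rw [card_empty] at h
    have : 0 < 3 ^ A.card := by positivity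
    omega
  set S : Set (Fin D → F × F) := {x | ∃ t ∈ T, x = t - t₀} with hS
  set V : Submodule F (Fin D → F × F) := Submodule.span F S with hV
  have hmem : ∀ t ∈ T, t - t₀ ∈ V := fun t ht => Submodule.subset_span ⟨t, ht, rfl⟩
  -- the polar form vanishes on the generators
  have h0 : ∀ s ∈ T, ∀ t ∈ T, bf (Fin D) (s - t₀) (t - t₀) = 0 := by
    intro s hs t ht
    have e1 := hQ s hs t₀ ht₀
    have e2 := hQ t ht t₀ ht₀
    have e3 := hQ s hs t ht
    rw [bf_apply]
    have e4 : ∑ a, (((s - t₀) a).1 * ((t - t₀) a).2 + ((s - t₀) a).2 * ((t - t₀) a).1) =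
        ∑ a, (s a - t₀ a).1 * (s a - t₀ a).2 + ∑ a, (t a - t₀ a).1 * (t a - t₀ a).2 -
          ∑ a, (s a - t a).1 * (s a - t a).2 := by
      rw [← sum_add_distrib, ← sum_sub_distrib]
      refine sum_congr rfl fun a _ => ?_
      simp only [Pi.sub_apply, Prod.fst_sub, Prod.snd_sub]
      ring
    rw [e4, e1, e2, e3]
    ring
  have h1 : ∀ z ∈ V, ∀ t ∈ T, bf (Fin D) z (t - t₀) = 0 := by
    intro z hz t ht
    have hle : V ≤ LinearMap.ker ((bf (Fin D)).flip (t - t₀)) := by
      rw [hV, Submodule.span_le]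
      rintro _ ⟨s, hs, rfl⟩
      rw [SetLike.mem_coe, LinearMap.mem_ker]
      exact h0 s hs t ht
    exact LinearMap.mem_ker.1 (hle hz)
  have h2 : ∀ z ∈ V, ∀ z' ∈ V, bf (Fin D) z z' = 0 := by
    intro z hz z' hz'
    have hle : V ≤ LinearMap.ker (bf (Fin D) z) := by
      rw [hV, Submodule.span_le]
      rintro _ ⟨s, hs, rfl⟩
      rw [SetLike.mem_coe, LinearMap.mem_ker]
      exact h1 z hz s hs
    exact LinearMap.mem_ker.1 (hle hz')
  have h3 : ∀ z ∈ V, ∀ a, a ∉ A → z a = 0 := by
    intro z hz a ha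
    have hle : V ≤ LinearMap.ker (LinearMap.proj a : (Fin D → F × F) →ₗ[F] F × F) := by
      rw [hV, Submodule.span_le]
      rintro _ ⟨s, hs, rfl⟩
      rw [SetLike.mem_coe, LinearMap.mem_ker]
      show s a - t₀ a = 0
      rw [hA s hs a ha, hA t₀ ht₀ a ha, sub_zero]
    exact LinearMap.mem_ker.1 (hle hz)
  have hcard := card_iso A V h3 h2
  -- the translates
  set f : T → V := fun t => ⟨t.1 - t₀, hmem t.1 t.2⟩ with hf
  have hinj : Function.Injective f := by
    intro s t hst
    have := congrArg Subtype.val hst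
    exact Subtype.ext (sub_left_injective this)
  have hTV : T.card ≤ Nat.card V := by
    have h4 := Nat.card_le_card_of_injective f hinj
    rwa [Nat.card_eq_fintype_card, Fintype.card_coe] at h4
  refine ⟨hTV.trans hcard, fun hle => ⟨V, le_antisymm hcard (hle.trans hTV), h3, ?_, ?_⟩⟩
  · intro z hz z' hz'
    exact h2 z hz z' hz'
  · intro t ht z
    have hsurj : Function.Surjective f := by
      have h4 : Nat.card T = Nat.card V := by
        apply le_antisymm
        · exact Nat.card_le_card_of_injective f hinj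
        · rw [Nat.card_eq_fintype_card (α := T), Fintype.card_coe]
          exact hcard.trans hle
      exact ((Nat.bijective_iff_injective_and_card f).2 ⟨hinj, h4⟩).2
    constructor
    · intro hz
      have := V.sub_mem (hmem z hz) (hmem t ht)
      rwa [sub_sub_sub_cancel_right] at this
    · intro hz
      have h5 : z - t₀ ∈ V := by
        have := V.add_mem hz (hmem t ht)
        rwa [sub_add_sub_cancel] at this
      obtain ⟨s, hs⟩ := hsurj ⟨z - t₀, h5⟩
      have h6 : s.1 - t₀ = z - t₀ := congrArg Subtype.val hs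
      have h7 : s.1 = z := sub_left_injective h6
      rw [← h7]
      exact s.2

end Pool.Agent.H451.JLM
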