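import Mathlib
import Pool.Agent.H451.JLM.Stm

/-!
# Project JLM (helper451): the joint law (`S_JLM`)
-/

set_option autoImplicit false
set_option linter.unusedVariables false

open scoped Classical

namespace Pool.Agent.H451.JLM

open Finset
open Pool.Agent.Y703.XK (prs ext c9)
open Pool.Agent.H451.JL (F In mu sT eT Qc)

namespace JLMa

section rank

variable {J : Type} [Fintype J] [LinearOrder J] {k : ℕ}

lemma mem_R (s : Sys J k) (w : Fin k → J → F) (j : Fin k) (α : prs J → F) (p : s.L j) :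
    p ∈ s.R w j α ↔ lap (w j) α (s.y j p) = s.b j p := by
  unfold Sys.R
  rw [LinearMap.mem_ker, LinearMap.sub_apply, sub_eq_zero, LinearMap.comp_apply]

lemma lap_ind (w : J → F) (α : prs J → F) (v : J → F) (hv : ∀ l, v l = if w l = 0 then 0 else 1) :
    lap w α v = 0 := by
  funext l
  show ∑ l', w l * w l' * ext α l l' * (v l' - v l) = 0
  refine Finset.sum_eq_zero fun l' _ => ?_
  by_cases h1 : w l = 0
  · rw [h1]; ring
  · by_cases h2 : w l' = 0
    · rw [h2]; ring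
    · rw [hv l, hv l', if_neg h1, if_neg h2]; ring

lemma o_mem {s : Sys J k} {w : Fin k → J → F} {m₀ : ℕ} (hs : s.OK w m₀) (j : Fin k)
    (α : prs J → F) : s.o j ∈ s.R w j α := by
  rw [mem_R, hs.ob, lap_ind (w j) α _ (hs.oy j)]

lemma o_ne {s : Sys J k} {w : Fin k → J → F} {m₀ : ℕ} (hs : s.OK w m₀) (j : Fin k)
    (h : ∃ l, w j l ≠ 0) : s.o j ≠ 0 := by
  intro h0
  obtain ⟨l, hl⟩ := h
  have h1 := hs.oy j l
  rw [h0, map_zero, if_neg hl] at h1
  exact zero_ne_one h1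

lemma rank_iff {s : Sys J k} {w : Fin k → J → F} {m₀ : ℕ} (hs : s.OK w m₀) (j : Fin k)
    (h : ∃ l, w j l ≠ 0) (α : prs J → F) :
    Nat.card (s.R w j α) = 3 ↔ Module.finrank F (s.R w j α) - 1 = 0 := by
  have hfin : Module.Finite F (s.L j) := Module.Finite.of_finite
  have hc : Nat.card (s.R w j α) = 3 ^ Module.finrank F (s.R w j α) := by
    have h1 := Module.card_eq_pow_finrank (K := F) (V := s.R w j α)
    rw [Nat.card_eq_fintype_card, h1, ZMod.card]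
  have hpos : 0 < Module.finrank F (s.R w j α) := by
    have hnt : Nontrivial (s.R w j α) := by
      refine ⟨⟨s.o j, o_mem hs j α⟩, 0, fun h0 => o_ne hs j h ?_⟩
      exact congrArg Subtype.val h0
    exact Module.finrank_pos
  rw [hc]
  constructor
  · intro h3
    have h4 : (3 : ℕ) ^ Module.finrank F (s.R w j α) = 3 ^ 1 := by rw [h3, pow_one]
    have h5 := Nat.pow_right_injective (le_refl 2 |>.trans (by norm_num : 2 ≤ 3)) h4
    omega
  · intro h3
    have h4 : Module.finrank F (s.R w j α) = 1 := by omega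
    rw [h4, pow_one]

end rank

/-- the error terms are monotone in the number of the vectors -/
lemma er_mono {D D₀ : ℕ} (h : D ≤ D₀) (M m₀ n₀ : ℕ) : er D M m₀ n₀ ≤ er D₀ M m₀ n₀ := by
  unfold er
  have hq : ∀ d : ℕ, (0 : ℝ) ≤ 1 - (1 / 3 : ℝ) ^ d := fun d =>
    sub_nonneg.2 (pow_le_one₀ (by norm_num) (by norm_num))
  refine add_le_add ?_ ?_
  · refine mul_le_mul_of_nonneg_right ?_ (by positivity)
    refine pow_le_pow_right₀ (by norm_num) ?_
    have h2 : D ^ 2 ≤ D₀ ^ 2 := Nat.pow_le_pow_left h 2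
    omega
  · refine mul_le_mul ?_ (mul_le_mul ?_ ?_ (pow_nonneg (hq _) _) (by positivity)) 
      (mul_nonneg (by positivity) (pow_nonneg (hq _) _)) (by positivity)
    · exact pow_le_pow_right₀ (by norm_num) (Nat.mul_le_mul_left _ h)
    · exact pow_le_pow_right₀ (by norm_num)
        (Nat.mul_le_mul_right _ (Nat.pow_le_pow_right (by norm_num) h))
    · refine pow_le_pow_left₀ (hq _) (sub_le_sub_left ?_ _) _
      exact pow_le_pow_of_le_one (by norm_num) (by norm_num) h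

/-- the error terms for large `n₀` -/
lemma er_le (D M m₀ N : ℕ) (hN : 1 ≤ N) (h3 : (3 : ℝ) ^ D * (1 - (1 / 3 : ℝ) ^ D) ^ N ≤ 1) :
    er D M m₀ (N * (m₀ + 1)) ≤ 3 ^ (D ^ 2 + 2 * D + 1) * (1 / 3 : ℝ) ^ N +
      2 ^ (9 ^ D * M) * (1 - (1 / 3 : ℝ) ^ D) ^ N := by
  unfold er
  have hq : (0 : ℝ) ≤ 1 - (1 / 3 : ℝ) ^ D := sub_nonneg.2 (pow_le_one₀ (by norm_num) (by norm_num))
  set q : ℝ := 1 - (1 / 3 : ℝ) ^ D with hqd
  refine add_le_add ?_ ?_
  · have e : (3 : ℝ) ^ (D ^ 2 + 2 * D + 1 + m₀) * (1 / 3 : ℝ) ^ (N * (m₀ + 1)) =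
        3 ^ (D ^ 2 + 2 * D + 1) * ((3 * (1 / 3 : ℝ) ^ N) ^ m₀ * (1 / 3 : ℝ) ^ N) := by
      rw [mul_pow, ← pow_mul, pow_add 3 (D ^ 2 + 2 * D + 1) m₀, mul_add, mul_one, pow_add]
      ring
    rw [e]
    refine mul_le_mul_of_nonneg_left ?_ (by positivity)
    have h1 : (3 * (1 / 3 : ℝ) ^ N) ^ m₀ ≤ 1 := by
      refine pow_le_one₀ (by positivity) ?_
      have h2 : (1 / 3 : ℝ) ^ N ≤ (1 / 3 : ℝ) ^ 1 :=
        pow_le_pow_of_le_one (by norm_num) (by norm_num) hN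
      linarith
    calc (3 * (1 / 3 : ℝ) ^ N) ^ m₀ * (1 / 3 : ℝ) ^ N ≤ 1 * (1 / 3 : ℝ) ^ N :=
          mul_le_mul_of_nonneg_right h1 (by positivity)
      _ = (1 / 3 : ℝ) ^ N := one_mul _
  · have e : (3 : ℝ) ^ (m₀ * D) * (2 ^ (9 ^ D * M) * q ^ (N * (m₀ + 1))) =
        2 ^ (9 ^ D * M) * ((3 ^ D * q ^ N) ^ m₀ * q ^ N) := by
      rw [mul_pow, ← pow_mul, ← pow_mul, mul_add, mul_one, pow_add, mul_comm D m₀]
      ring
    rw [e]
    refine mul_le_mul_of_nonneg_left ?_ (by positivity)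
    have h1 : (3 ^ D * q ^ N) ^ m₀ ≤ 1 := pow_le_one₀ (by positivity) h3
    calc (3 ^ D * q ^ N) ^ m₀ * q ^ N ≤ 1 * q ^ N :=
          mul_le_mul_of_nonneg_right h1 (by positivity)
      _ = q ^ N := one_mul _

end JLMa

open JLMa

theorem t_JLM : S_EX → Pool.Agent.H451.JL.S_TR → Pool.Agent.H451.JL.S_C → Pool.Agent.H451.JL.S_E →
    Pool.Agent.Y703.XK.S_C9 → S_JLM := by
  intro hEX hTR hC hE _ k M W hNP ε hε
  have hp : Filter.Tendsto (fun t : ℕ => (1 / 3 : ℝ) ^ t) Filter.atTop (nhds 0) :=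
    tendsto_pow_atTop_nhds_zero_of_lt_one (by norm_num) (by norm_num)
  have he : Filter.Tendsto eT Filter.atTop (nhds 0) :=
    squeeze_zero (fun t => (hE t).1) (fun t => (hE t).2) hp
  have hsT : Filter.Tendsto sT Filter.atTop (nhds c9) := by
    rw [tendsto_iff_norm_sub_tendsto_zero]
    exact squeeze_zero (fun t => norm_nonneg _) (fun t => hC t) he
  have h1 : Filter.Tendsto (fun t => (1 + eT t) ^ k - 1 + |sT t ^ k - c9 ^ k|) Filter.atTop
      (nhds 0) := by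
    have a1 : Filter.Tendsto (fun t => (1 + eT t) ^ k - 1) Filter.atTop
        (nhds ((1 + 0) ^ k - 1)) := ((he.const_add 1).pow k).sub_const 1
    have a2 : Filter.Tendsto (fun t => |sT t ^ k - c9 ^ k|) Filter.atTop
        (nhds |c9 ^ k - c9 ^ k|) := ((hsT.pow k).sub_const _).abs
    have := a1.add a2
    simpa using this
  obtain ⟨t, ht⟩ := (h1.eventually (gt_mem_nhds (show (0 : ℝ) < ε / 2 by positivity))).exists
  obtain ⟨C, hC0, hT⟩ := hTR k t
  obtain ⟨D₀, hD₀⟩ : ∃ D₀, D₀ = k * (t + 1) := ⟨_, rfl⟩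
  obtain ⟨q, hq⟩ : ∃ q : ℝ, q = 1 - (1 / 3 : ℝ) ^ D₀ := ⟨_, rfl⟩
  have hq0 : 0 ≤ q := by
    rw [hq]
    exact sub_nonneg.2 (pow_le_one₀ (by norm_num) (by norm_num))
  have hq1 : q < 1 := by
    rw [hq]
    have : (0 : ℝ) < (1 / 3 : ℝ) ^ D₀ := by positivity
    linarith
  have hqT : Filter.Tendsto (fun N : ℕ => q ^ N) Filter.atTop (nhds 0) :=
    tendsto_pow_atTop_nhds_zero_of_lt_one hq0 hq1
  have h2 : Filter.Tendsto (fun N : ℕ => C * (3 ^ (D₀ ^ 2 + 2 * D₀ + 1) * (1 / 3 : ℝ) ^ N +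
      2 ^ (9 ^ D₀ * M) * q ^ N)) Filter.atTop
      (nhds (C * (3 ^ (D₀ ^ 2 + 2 * D₀ + 1) * 0 + 2 ^ (9 ^ D₀ * M) * 0))) :=
    ((hp.const_mul _).add (hqT.const_mul _)).const_mul _
  rw [mul_zero, mul_zero, add_zero, mul_zero] at h2
  have h3 : Filter.Tendsto (fun N : ℕ => (3 : ℝ) ^ D₀ * q ^ N) Filter.atTop
      (nhds (3 ^ D₀ * 0)) := hqT.const_mul _
  rw [mul_zero] at h3
  obtain ⟨N, ⟨hN1, hN2⟩, hN3⟩ := (((h2.eventually
    (gt_mem_nhds (show (0 : ℝ) < ε / 2 by positivity))).and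
    (h3.eventually (gt_mem_nhds (show (0 : ℝ) < 1 by norm_num)))).and
    (Filter.eventually_ge_atTop 1)).exists
  refine ⟨N, ?_⟩
  intro J _ _ μ m₀ s hs hcl
  have hn1 : 1 ≤ N * (m₀ + 1) := Nat.mul_pos hN3 (Nat.succ_pos _)
  have hsup : ∀ j, ∃ l, wt W μ j l ≠ 0 := by
    intro j
    obtain ⟨m, hm⟩ := hNP.1 j
    have h4 : 0 < (univ.filter fun l => μ l = m).card := lt_of_lt_of_le hn1 (hcl m)
    obtain ⟨l, hl⟩ := Finset.card_pos.1 h4
    refine ⟨l, ?_⟩
    unfold wt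
    rw [(Finset.mem_filter.1 hl).2]
    exact hm
  have hcard : (Fintype.card (prs J → F) : ℝ) = 3 ^ (prs J).card := by
    rw [Fintype.card_fun, ZMod.card, Fintype.card_coe]
    push_cast
    rfl
  have h5 := hT (prs J → F) (fun α j => Module.finrank F (s.R (wt W μ) j α) - 1)
    (er D₀ M m₀ (N * (m₀ + 1))) Fintype.card_pos (by
      unfold er
      rw [← hq]
      positivity) (by
      intro d hd
      have h6 := hEX J k M m₀ (N * (m₀ + 1)) W μ s d hNP hs hn1 hcl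
      rw [hcard]
      refine h6.trans (er_mono ?_ M m₀ _)
      rw [hD₀]
      calc ∑ j, d j ≤ ∑ _j : Fin k, (t + 1) := Finset.sum_le_sum fun j _ => hd j
        _ = k * (t + 1) := by simp)
  have e : pr (fun α => ∀ j, Nat.card (s.R (wt W μ) j α) = 3) =
      ((univ.filter fun α : prs J → F => ∀ j, Module.finrank F (s.R (wt W μ) j α) - 1 = 0).card : ℝ) /
        (Fintype.card (prs J → F) : ℝ) := by
    unfold pr
    rw [hcard]
    congr 3
    ext α
    simp only [Finset.mem_filter, Finset.mem_univ, true_and]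
    exact forall_congr' fun j => rank_iff hs j (hsup j) α
  rw [← e] at h5
  have h6 : C * er D₀ M m₀ (N * (m₀ + 1)) ≤ C * (3 ^ (D₀ ^ 2 + 2 * D₀ + 1) * (1 / 3 : ℝ) ^ N +
      2 ^ (9 ^ D₀ * M) * q ^ N) := by
    refine mul_le_mul_of_nonneg_left ?_ hC0
    have h7 := er_le D₀ M m₀ N hN3 (by rw [← hq]; exact hN2.le)
    rw [← hq] at h7
    exact h7
  have h8 := abs_sub_le (pr (fun α => ∀ j, Nat.card (s.R (wt W μ) j α) = 3)) (sT t ^ k) (c9 ^ k)
  linarith

end Pool.Agent.H451.JLM
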