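import Mathlib
import Pool.Agent.H451.JLM.Stm2
import Pool.Graph.R_seed8.Y696.XL.Key3

/-!
# Project JLM: the sum over the boxes with marks (adaptation of `Pool.Agent.H451.JL.t_KEJ`)
-/

set_option autoImplicit false

namespace Pool.Agent.H451.JLM

open Finset
open Pool.Agent.Y692.QS (Ei w nr toC)
open Pool.Agent.Y715.T.Rec (cs)
open Pool.Agent.Y715.T.RecG (Pq)
open Pool.Agent.Y699.E (ez nrm QB mem_QB pq_nrm_two nrm_prod PS_prod PD SB mem_SB card_SB_le
  hsum_SB lg)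
open Pool.Agent.Y703.CX (jj XX)
open Pool.Agent.Y703.XK (Nd SS RR HB prs ext c9 sm la bl S_BIL S_EQ S_C9 S_CNT)
open Pool.Agent.XLK
open Pool.Agent.H451.JL (F sw nW GW)
open scoped Classical

/-- the statement for the boxes with the decidability of equality as a variable -/
theorem bxm_dec {k M : ℕ} {W : Fin k → Fin M → F} {V : ℕ} {ε : ℝ}
    (hB : BXM W V ε) (μ : Ei → Fin M) (ι : Type) [Fintype ι] [inst : DecidableEq ι]
    (lo : LinearOrder ι) (C : ι → Finset Ei) (ν : ι → Fin M) (X : ι → ℕ) (κ : ℝ)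
    (S₀ : Finset Ei) (h1 : 0 ≤ κ)
    (h2 : ∀ i, (C i).card ≤ X i) (h3 : HB C X κ) (h4 : ∀ u ∈ S₀, Pq u)
    (h5 : ∀ i, ∀ π ∈ C i, Pq π ∧ π ∉ S₀ ∧ μ π = ν i)
    (h6 : ∀ i l, i ≠ l → Disjoint (C i) (C l)) :
    |(((Fintype.piFinset C).filter fun p => NdM V μ S₀ (univ.image p) ∧
        GW (wM W μ) (S₀ ∪ univ.image p)).card : ℝ) -
      c9 ^ k * (((Fintype.piFinset C).filter fun p => NdM V μ S₀ (univ.image p)).card : ℝ)| ≤
    ε * (((Fintype.piFinset C).filter fun p => NdM V μ S₀ (univ.image p)).card : ℝ) +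
    3 ^ (S₀.card * Fintype.card ι + (prs ι).card) * (κ * ∏ j, (X j : ℝ)) := by
  have h := hB μ ι C ν X κ S₀ h1 h2 h3 h4 h5 h6
  have e : inst = fun a b => lo.toDecidableEq a b := Subsingleton.elim _ _
  subst e
  exact h

/-- the partition of the tuples according to the marks -/
theorem part_marks {ι : Type} [Fintype ι] [DecidableEq ι] {M : ℕ} (μ : Ei → Fin M)
    (C : ι → Finset Ei) (P : (ι → Ei) → Prop) :
    ((Fintype.piFinset C).filter P).card =
      ∑ ν : ι → Fin M, ((Fintype.piFinset fun i => (C i).filter fun π => μ π = ν i).filter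
        P).card := by
  rw [Finset.card_eq_sum_card_fiberwise (f := fun (p : ι → Ei) (i : ι) => μ (p i))
    (t := (univ : Finset (ι → Fin M))) (fun _ _ => Finset.mem_coe.2 (Finset.mem_univ _))]
  refine Finset.sum_congr rfl fun ν _ => ?_
  congr 1
  ext p
  simp only [Finset.mem_filter, Fintype.mem_piFinset]
  constructor
  · rintro ⟨⟨h1, h2⟩, h3⟩
    exact ⟨fun i => ⟨h1 i, congrFun h3 i⟩, h2⟩
  · rintro ⟨h1, h2⟩
    exact ⟨⟨fun i => (h1 i).1, h2⟩, funext fun i => (h1 i).2⟩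

/-- the residues of a marked key -/
def ResM {M : ℕ} (R : Set (Fin M → ℕ)) (μ : Ei → Fin M) (S₀ : Finset Ei) (J : Finset ℕ)
    (ν : J → Fin M) : Prop :=
  (fun m => ((∏ π ∈ S₀.filter (fun π => μ π = m), nrm π) *
    ∏ i ∈ univ.filter (fun i : J => ν i = m), (i : ℕ)) % 9) ∈ R

theorem prod_mod' {ι : Type} (s : Finset ι) (f g : ι → ℕ) (h : ∀ i ∈ s, f i % 9 = g i % 9) :
    (∏ i ∈ s, f i) % 9 = (∏ i ∈ s, g i) % 9 := by
  rw [Finset.prod_nat_mod s 9 f, Finset.prod_nat_mod s 9 g]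
  rw [Finset.prod_congr rfl h]

theorem cond_iff {M : ℕ} {R : Set (Fin M → ℕ)} {μ : Ei → Fin M} {z H : ℕ} (hH : 1 ≤ H)
    {S₀ : Finset Ei} {J : Finset ℕ} (h₀ : ∀ q ∈ S₀, nrm q ≤ z)
    {ν : J → Fin M} {p : J → Ei} (hp : ∀ i : J, p i ∈ CC z H i) (hν : ∀ i, μ (p i) = ν i) :
    CondM R μ (S₀ ∪ univ.image p) ↔ ResM R μ S₀ J ν := by
  have hinj : Function.Injective p := by
    intro i j hij
    have h1 := ((mem_CC hH).1 (hp i)).2.2
    have h2 := ((mem_CC hH).1 (hp j)).2.2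
    rw [hij] at h1
    exact Subtype.ext (h1.symm.trans h2)
  have hdis : ∀ m, Disjoint (S₀.filter fun π => μ π = m)
      ((univ.image p).filter fun π => μ π = m) := by
    intro m
    rw [Finset.disjoint_left]
    intro x hx hx'
    rw [Finset.mem_filter] at hx hx'
    rw [Finset.mem_image] at hx'
    obtain ⟨⟨i, -, rfl⟩, -⟩ := hx'
    have h1 := ((mem_CC hH).1 (hp i)).2.1
    have h2 := h₀ _ hx.1
    omega
  have key : ∀ m, (∏ π ∈ (S₀ ∪ univ.image p).filter (fun π => μ π = m), nrm π) % 9 =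
      ((∏ π ∈ S₀.filter (fun π => μ π = m), nrm π) *
        ∏ i ∈ univ.filter (fun i : J => ν i = m), (i : ℕ)) % 9 := by
    intro m
    rw [Finset.filter_union, Finset.prod_union (hdis m), Finset.filter_image,
      Finset.prod_image (fun a _ b _ h => hinj h)]
    have e1 : (univ.filter fun i : J => μ (p i) = m) = univ.filter fun i : J => ν i = m := by
      ext i
      simp only [Finset.mem_filter, Finset.mem_univ, true_and, hν]
    rw [e1, Nat.mul_mod, Nat.mul_mod (∏ π ∈ S₀.filter (fun π => μ π = m), nrm π)]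
    congr 2
    refine prod_mod' _ _ _ fun i _ => ?_
    rw [← ph_mod H, ((mem_CC hH).1 (hp i)).2.2]
  unfold CondM ResM
  rw [funext key]

theorem per_keyM {k M : ℕ} {W : Fin k → Fin M → F} {R : Set (Fin M → ℕ)} {V : ℕ} {ε : ℝ}
    (hB : BXM W V ε) (hε : 0 ≤ ε) {C₁ : ℝ}
    (hb1 : ∀ (P Q : Finset Ei) (A B z : ℕ) (c d : Ei → ℂ) (a : ZMod 3),
      (∀ π ∈ P, Pq π ∧ nrm π ≤ A) → (∀ ρ ∈ Q, Pq ρ ∧ nrm ρ ≤ B) → Disjoint P Q → a ≠ 0 →
      1 ≤ z → z ≤ A → z ≤ B → (∀ π, ‖c π‖ ≤ 1) → (∀ ρ, ‖d ρ‖ ≤ 1) →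
      ‖∑ π ∈ P, ∑ ρ ∈ Q, c π * d ρ * ez (a * cs π ρ)‖ ^ 24 * z ≤ C₁ * ((A : ℝ) * B) ^ 24)
    (μ : Ei → Fin M) (hM : 1 ≤ M)
    {X z H K : ℕ} {κ : ℝ} (hH : 1 ≤ H) (hz : 1 ≤ z) (hκ : 0 ≤ κ)
    (h1 : C₁ ≤ κ ^ 24 * z)
    {S₀ : Finset Ei} {J : Finset ℕ}
    (hkey : (S₀, J) ∈ (RR X z H K 0).image (ky z H)) :
    |(((RR X z H K 0).filter fun S => ky z H S = (S₀, J) ∧
        ((CondM R μ S ∧ NdM V μ (sm z S) (la z S)) ∧ GW (wM W μ) S)).card : ℝ) -
      c9 ^ k * (((RR X z H K 0).filter fun S => ky z H S = (S₀, J) ∧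
        (CondM R μ S ∧ NdM V μ (sm z S) (la z S))).card : ℝ)| ≤
    ε * (((RR X z H K 0).filter fun S => ky z H S = (S₀, J) ∧ True).card : ℝ) +
      (M : ℝ) ^ K * ((3 ^ (9 * K ^ 2) * κ) * (X * (1 / ((∏ p ∈ S₀, nrm p : ℕ) : ℝ)))) := by
  obtain ⟨h₀O, h₀, hJi, hCd, hJf⟩ := key_facts hH hkey
  obtain ⟨c1, c4, c5, c6⟩ := hCd
  have hcJ : Fintype.card J = J.card := Fintype.card_coe J
  have hCmem : ∀ i : J, ∀ p ∈ CC z H i, Pq p ∧ z < nrm p ∧ nrm p ≤ XX H (i.1 / 9) := by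
    intro i p hp
    obtain ⟨k1, k2, k3⟩ := (mem_CC hH).1 hp
    refine ⟨k1, k2, ?_⟩
    unfold CC at hp
    rw [Finset.mem_filter, mem_QB] at hp
    exact hp.1.1
  have hdis : ∀ i l : J, i ≠ l → Disjoint (CC z H (i : ℕ)) (CC z H (l : ℕ)) := by
    intro i l hil
    rw [Finset.disjoint_left]
    intro p hp hp'
    have h5 := ((mem_CC hH).1 hp).2.2
    have h6 := ((mem_CC hH).1 hp').2.2
    exact hil (Subtype.ext (h5.symm.trans h6))
  have hzX : ∀ i : J, z ≤ XX H (i.1 / 9) := fun i => (hJf i i.2).1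
  have hN0 : (0 : ℝ) < ((∏ p ∈ S₀, nrm p : ℕ) : ℝ) := by
    exact_mod_cast Finset.prod_pos fun p hp => nrm_one_le (h₀O p hp)
  have hJK : J.card ≤ K := by omega
  have hSK : S₀.card ≤ K := by omega
  -- the boxes
  let Cν : (J → Fin M) → J → Finset Ei := fun ν i => (CC z H (i : ℕ)).filter fun π => μ π = ν i
  have hErr : (3 : ℝ) ^ (S₀.card * Fintype.card J + (prs J).card) *
      (κ * ∏ j : J, ((16 * XX H (j.1 / 9) : ℕ) : ℝ)) ≤
      (3 ^ (9 * K ^ 2) * κ) * (X * (1 / ((∏ p ∈ S₀, nrm p : ℕ) : ℝ))) := by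
    obtain ⟨m, hm⟩ : ∃ m : ℕ, m = (prs J).card := ⟨_, rfl⟩
    have hpr : m ≤ K * K := by
      rw [hm]
      refine (prs_card J).trans ?_
      rw [hcJ]
      exact Nat.mul_le_mul hJK hJK
    rw [← hm]
    have hprod : ∏ j : J, ((16 * XX H (j.1 / 9) : ℕ) : ℝ) ≤
        3 ^ (3 * K) * (X * (1 / ((∏ p ∈ S₀, nrm p : ℕ) : ℝ))) := by
      have h5 : ∏ j : J, ((16 * XX H (j.1 / 9) : ℕ) : ℝ) =
          16 ^ J.card * ((∏ i ∈ J, XX H (i / 9) : ℕ) : ℝ) := by
        rw [← Finset.prod_coe_sort J (fun i => XX H (i / 9))]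
        push_cast
        rw [Finset.prod_mul_distrib, Finset.prod_const, Finset.card_univ, hcJ]
      have h6 : ((∏ i ∈ J, XX H (i / 9) : ℕ) : ℝ) ≤ X * (1 / ((∏ p ∈ S₀, nrm p : ℕ) : ℝ)) := by
        rw [mul_one_div, le_div_iff₀ hN0, mul_comm]
        exact_mod_cast c5
      have h7 : (16 : ℝ) ^ J.card ≤ 3 ^ (3 * K) := by
        calc (16 : ℝ) ^ J.card ≤ 27 ^ J.card := pow_le_pow_left₀ (by norm_num) (by norm_num) _
          _ = 3 ^ (3 * J.card) := by rw [pow_mul]; norm_num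
          _ ≤ 3 ^ (3 * K) := pow_le_pow_right₀ (by norm_num) (by omega)
      rw [h5]
      gcongr
    have hpw : (3 : ℝ) ^ (S₀.card * Fintype.card J + m) * 3 ^ (3 * K) ≤
        3 ^ (9 * K ^ 2) := by
      rw [← pow_add]
      apply pow_le_pow_right₀ (by norm_num)
      rw [hcJ]
      have h5 : S₀.card * J.card ≤ K * K := Nat.mul_le_mul hSK hJK
      have h6 : K ≤ K * K := by
        rcases Nat.eq_zero_or_pos K with h | h
        · rw [h]
        · exact Nat.le_mul_of_pos_left K h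
      nlinarith
    have hX1 : (0 : ℝ) ≤ X * (1 / ((∏ p ∈ S₀, nrm p : ℕ) : ℝ)) := by positivity
    calc (3 : ℝ) ^ (S₀.card * Fintype.card J + m) *
        (κ * ∏ j : J, ((16 * XX H (j.1 / 9) : ℕ) : ℝ)) ≤
        3 ^ (S₀.card * Fintype.card J + m) *
          (κ * (3 ^ (3 * K) * (X * (1 / ((∏ p ∈ S₀, nrm p : ℕ) : ℝ))))) := by gcongr
      _ = (3 ^ (S₀.card * Fintype.card J + m) * 3 ^ (3 * K)) *
          (κ * (X * (1 / ((∏ p ∈ S₀, nrm p : ℕ) : ℝ)))) := by ring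
      _ ≤ 3 ^ (9 * K ^ 2) * (κ * (X * (1 / ((∏ p ∈ S₀, nrm p : ℕ) : ℝ)))) := by gcongr
      _ = _ := by ring
  -- the counts
  have e1 : ((RR X z H K 0).filter fun S => ky z H S = (S₀, J) ∧
      ((CondM R μ S ∧ NdM V μ (sm z S) (la z S)) ∧ GW (wM W μ) S)).card =
      ∑ ν : J → Fin M, ((Fintype.piFinset (Cν ν)).filter fun p =>
        ResM R μ S₀ J ν ∧ (NdM V μ S₀ (univ.image p) ∧
          GW (wM W μ) (S₀ ∪ univ.image p))).card := by
    refine ((fcc fun _ _ => Iff.rfl).trans (key_bij hH hkey (fun S => (CondM R μ S ∧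
      NdM V μ (sm z S) (la z S)) ∧ GW (wM W μ) S)).symm).trans ?_
    rw [part_marks μ]
    refine Finset.sum_congr rfl fun ν _ => fcc ?_
    intro p hp
    rw [Fintype.mem_piFinset] at hp
    have hp1 : ∀ i : J, p i ∈ CC z H i := fun i => (Finset.mem_filter.1 (hp i)).1
    have hp2 : ∀ i : J, μ (p i) = ν i := fun i => (Finset.mem_filter.1 (hp i)).2
    rw [sm_fill hH h₀ hp1, la_fill hH h₀ hp1, cond_iff hH h₀ hp1 hp2]
    tauto
  have e2 : ((RR X z H K 0).filter fun S => ky z H S = (S₀, J) ∧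
      (CondM R μ S ∧ NdM V μ (sm z S) (la z S))).card =
      ∑ ν : J → Fin M, ((Fintype.piFinset (Cν ν)).filter fun p =>
        ResM R μ S₀ J ν ∧ NdM V μ S₀ (univ.image p)).card := by
    refine ((fcc fun _ _ => Iff.rfl).trans (key_bij hH hkey (fun S => CondM R μ S ∧
      NdM V μ (sm z S) (la z S))).symm).trans ?_
    rw [part_marks μ]
    refine Finset.sum_congr rfl fun ν _ => fcc ?_
    intro p hp
    rw [Fintype.mem_piFinset] at hp
    have hp1 : ∀ i : J, p i ∈ CC z H i := fun i => (Finset.mem_filter.1 (hp i)).1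
    have hp2 : ∀ i : J, μ (p i) = ν i := fun i => (Finset.mem_filter.1 (hp i)).2
    rw [sm_fill hH h₀ hp1, la_fill hH h₀ hp1, cond_iff hH h₀ hp1 hp2]
  have e3 : (((RR X z H K 0).filter fun S => ky z H S = (S₀, J) ∧
      (CondM R μ S ∧ NdM V μ (sm z S) (la z S))).card : ℝ) ≤
      (((RR X z H K 0).filter fun S => ky z H S = (S₀, J) ∧ True).card : ℝ) := by
    have : (RR X z H K 0).filter (fun S => ky z H S = (S₀, J) ∧
        (CondM R μ S ∧ NdM V μ (sm z S) (la z S))) ⊆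
        (RR X z H K 0).filter fun S => ky z H S = (S₀, J) ∧ True := by
      intro S hS
      rw [Finset.mem_filter] at hS ⊢
      exact ⟨hS.1, hS.2.1, trivial⟩
    exact_mod_cast Finset.card_le_card this
  -- each box
  have hper : ∀ ν : J → Fin M,
      |(((Fintype.piFinset (Cν ν)).filter fun p =>
        ResM R μ S₀ J ν ∧ (NdM V μ S₀ (univ.image p) ∧
          GW (wM W μ) (S₀ ∪ univ.image p))).card : ℝ) -
        c9 ^ k * (((Fintype.piFinset (Cν ν)).filter fun p =>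
        ResM R μ S₀ J ν ∧ NdM V μ S₀ (univ.image p)).card : ℝ)| ≤
      ε * (((Fintype.piFinset (Cν ν)).filter fun p =>
        ResM R μ S₀ J ν ∧ NdM V μ S₀ (univ.image p)).card : ℝ) +
        (3 ^ (9 * K ^ 2) * κ) * (X * (1 / ((∏ p ∈ S₀, nrm p : ℕ) : ℝ))) := by
    intro ν
    have hE0 : (0 : ℝ) ≤ (3 ^ (9 * K ^ 2) * κ) *
        (X * (1 / ((∏ p ∈ S₀, nrm p : ℕ) : ℝ))) := by positivity
    by_cases hr : ResM R μ S₀ J ν
    · have hCsub : ∀ i : J, Cν ν i ⊆ CC z H (i : ℕ) := fun i => Finset.filter_subset _ _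
      have hHB : HB (Cν ν) (fun i : J => 16 * XX H (i.1 / 9)) κ :=
        hb_box hb1 _ _ hz hκ h1 (fun i => by have := hzX i; omega)
          (fun i p hp => by
            obtain ⟨k1, k2, k3⟩ := hCmem i p (hCsub i hp)
            exact ⟨k1, by omega⟩)
          (fun i l hil => (hdis i l hil).mono (hCsub i) (hCsub l))
      have hcard : ∀ i : J, (Cν ν i).card ≤ 16 * XX H (i.1 / 9) := by
        intro i
        refine (Finset.card_le_card (hCsub i)).trans ?_
        refine (Finset.card_filter_le _ _).trans (card_QB_le ?_)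
        have := hzX i
        omega
      have hbox := bxm_dec hB μ J inferInstance (Cν ν) ν
        (fun i : J => 16 * XX H (i.1 / 9)) κ S₀ hκ hcard hHB h₀O (fun i p hp => by
          obtain ⟨k1, k2, k3⟩ := hCmem i p (hCsub i hp)
          refine ⟨k1, fun h => ?_, (Finset.mem_filter.1 hp).2⟩
          have := h₀ p h
          omega) (fun i l hil => (hdis i l hil).mono (hCsub i) (hCsub l))
      have f1 : ((Fintype.piFinset (Cν ν)).filter fun p =>
          ResM R μ S₀ J ν ∧ (NdM V μ S₀ (univ.image p) ∧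
            GW (wM W μ) (S₀ ∪ univ.image p))).card =
          ((Fintype.piFinset (Cν ν)).filter fun p => NdM V μ S₀ (univ.image p) ∧
            GW (wM W μ) (S₀ ∪ univ.image p)).card :=
        fcc fun p _ => ⟨fun h => h.2, fun h => ⟨hr, h⟩⟩
      have f2 : ((Fintype.piFinset (Cν ν)).filter fun p =>
          ResM R μ S₀ J ν ∧ NdM V μ S₀ (univ.image p)).card =
          ((Fintype.piFinset (Cν ν)).filter fun p => NdM V μ S₀ (univ.image p)).card :=
        fcc fun p _ => ⟨fun h => h.2, fun h => ⟨hr, h⟩⟩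
      rw [f1, f2]
      exact hbox.trans (add_le_add (le_refl _) hErr)
    · have f1 : (Fintype.piFinset (Cν ν)).filter (fun p =>
          ResM R μ S₀ J ν ∧ (NdM V μ S₀ (univ.image p) ∧
            GW (wM W μ) (S₀ ∪ univ.image p))) = ∅ := by
        rw [Finset.filter_eq_empty_iff]
        rintro p - ⟨h2, -⟩
        exact hr h2
      have f2 : (Fintype.piFinset (Cν ν)).filter (fun p =>
          ResM R μ S₀ J ν ∧ NdM V μ S₀ (univ.image p)) = ∅ := by
        rw [Finset.filter_eq_empty_iff]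
        rintro p - ⟨h2, -⟩
        exact hr h2
      rw [f1, f2, Finset.card_empty, Nat.cast_zero, mul_zero, sub_zero, abs_zero, mul_zero,
        zero_add]
      exact hE0
  have hMK : (M : ℝ) ^ J.card ≤ (M : ℝ) ^ K :=
    pow_le_pow_right₀ (by exact_mod_cast hM) hJK
  have hX1 : (0 : ℝ) ≤ (3 ^ (9 * K ^ 2) * κ) * (X * (1 / ((∏ p ∈ S₀, nrm p : ℕ) : ℝ))) := by
    positivity
  rw [e1, e2]
  rw [e2] at e3
  push_cast at e3 ⊢
  rw [Finset.mul_sum, ← Finset.sum_sub_distrib]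
  refine (Finset.abs_sum_le_sum_abs _ _).trans ((Finset.sum_le_sum fun ν _ => hper ν).trans ?_)
  rw [Finset.sum_add_distrib, ← Finset.mul_sum, Finset.sum_const, Finset.card_univ, nsmul_eq_mul]
  have hcc : ((Fintype.card (J → Fin M) : ℕ) : ℝ) = (M : ℝ) ^ J.card := by
    rw [Fintype.card_fun, Fintype.card_fin, hcJ]
    push_cast
    ring
  rw [hcc]
  have e4 := mul_le_mul_of_nonneg_left e3 hε
  have e5 := mul_le_mul_of_nonneg_right hMK hX1
  push_cast at e4 e5 ⊢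
  linarith

/-- **JLM-KEY.** -/
theorem t_KEY : S_KEY := by
  rintro ⟨C₁, hC₁, hb1⟩ k M W R V ε hε hV hB
  refine ⟨C₁, hC₁, ?_⟩
  intro μ X z H K N κ hX hH hz hκ h1 hN
  have hM : 1 ≤ M := by
    rcases Nat.eq_zero_or_pos M with h | h
    · subst h
      exact (μ 0).elim0
    · exact h
  set T := (RR X z H K 0).image (ky z H) with hT
  have hfib : ∀ P : Finset Ei → Prop, (((RR X z H K 0).filter fun S => P S).card : ℝ) =
      ∑ k' ∈ T, (((RR X z H K 0).filter fun S => ky z H S = k' ∧ P S).card : ℝ) := by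
    intro P
    rw [Finset.card_eq_sum_card_fiberwise (f := ky z H) (t := T) (by
      intro S hS
      rw [Finset.mem_coe, Finset.mem_filter] at hS
      exact Finset.mem_coe.2 (Finset.mem_image_of_mem _ hS.1))]
    push_cast
    refine Finset.sum_congr rfl fun k' _ => ?_
    congr 2
    ext S
    simp only [Finset.mem_filter]
    tauto
  have hall : ((RR X z H K 0).card : ℝ) =
      ∑ k' ∈ T, (((RR X z H K 0).filter fun S => ky z H S = k' ∧ True).card : ℝ) := by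
    rw [Finset.card_eq_sum_card_fiberwise (f := ky z H) (t := T) (by
      intro S hS
      exact Finset.mem_coe.2 (Finset.mem_image_of_mem _ hS))]
    push_cast
    exact Finset.sum_congr rfl fun k' _ => congrArg _ (fcc fun _ _ => by tauto)
  have q1 : (((RR X z H K 0).filter fun S => (CondM R μ S ∧ NdM V μ (sm z S) (la z S)) ∧
      GW (wM W μ) S).card : ℝ) =
      ∑ k' ∈ T, (((RR X z H K 0).filter fun S => ky z H S = k' ∧
        ((CondM R μ S ∧ NdM V μ (sm z S) (la z S)) ∧ GW (wM W μ) S)).card : ℝ) :=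
    (congrArg _ (fcc fun _ _ => Iff.rfl)).trans ((hfib fun S => (CondM R μ S ∧
      NdM V μ (sm z S) (la z S)) ∧ GW (wM W μ) S).trans
      (Finset.sum_congr rfl fun k' _ => congrArg _ (fcc fun _ _ => Iff.rfl)))
  have q2 : (((RR X z H K 0).filter fun S => CondM R μ S ∧
      NdM V μ (sm z S) (la z S)).card : ℝ) =
      ∑ k' ∈ T, (((RR X z H K 0).filter fun S => ky z H S = k' ∧
        (CondM R μ S ∧ NdM V μ (sm z S) (la z S))).card : ℝ) :=
    (congrArg _ (fcc fun _ _ => Iff.rfl)).trans ((hfib fun S => CondM R μ S ∧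
      NdM V μ (sm z S) (la z S)).trans
      (Finset.sum_congr rfl fun k' _ => congrArg _ (fcc fun _ _ => Iff.rfl)))
  rw [q1, q2, Finset.mul_sum, ← Finset.sum_sub_distrib, hall, Finset.mul_sum]
  refine (Finset.abs_sum_le_sum_abs _ _).trans ?_
  have h3 : ∑ k' ∈ T, |(((RR X z H K 0).filter fun S => ky z H S = k' ∧
      ((CondM R μ S ∧ NdM V μ (sm z S) (la z S)) ∧ GW (wM W μ) S)).card : ℝ) -
      c9 ^ k * (((RR X z H K 0).filter fun S =>
      ky z H S = k' ∧ (CondM R μ S ∧ NdM V μ (sm z S) (la z S))).card : ℝ)| ≤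
      ∑ k' ∈ T, (ε * (((RR X z H K 0).filter fun S =>
      ky z H S = k' ∧ True).card : ℝ) +
      (M : ℝ) ^ K * ((3 ^ (9 * K ^ 2) * κ) *
        (X * (1 / ((∏ p ∈ k'.1, nrm p : ℕ) : ℝ))))) := by
    refine Finset.sum_le_sum fun k' hk => ?_
    obtain ⟨S₀, J⟩ := k'
    exact per_keyM hB hε hb1 μ hM hH hz hκ h1 hk
  refine h3.trans ?_
  rw [Finset.sum_add_distrib, ← Finset.mul_sum (f := fun k' : Finset Ei × Finset ℕ =>
    (3 ^ (9 * K ^ 2) * κ) * (X * (1 / ((∏ p ∈ k'.1, nrm p : ℕ) : ℝ))))]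
  refine add_le_add (le_refl _) ?_
  refine mul_le_mul_of_nonneg_left ?_ (by positivity)
  exact keg_err hX hH hz hκ hN fun k' hk => hk

end Pool.Agent.H451.JLM
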