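import Pool.Agent.H451.JLM.Stm

/-!
# Project JLM (helper451): the moments (by helper738)
-/

set_option autoImplicit false
set_option linter.unusedVariables false

open scoped Classical

namespace Pool.Agent.H451.JLM

open Finset
open Pool.Agent.Y699.E (ez)
open Pool.Agent.Y703.XK (prs ext c9)
open Pool.Agent.H451.JL (F In mu sT eT Qc)

namespace MOML

variable {J : Type} [Fintype J] [LinearOrder J] {k D M : ℕ}

theorem pr_nonneg (Q : (prs J → F) → Prop) : 0 ≤ pr Q := by
  unfold pr; positivity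

theorem Qc_le {D k : ℕ} (c : Fin D → Fin k) : Qc c ≤ D ^ 2 := by
  unfold Qc
  refine (card_filter_le _ _).trans ?_
  rw [card_univ, Fintype.card_prod, Fintype.card_fin, sq]

variable (s : Sys J k) (c : Fin D → Fin k) {w : Fin k → J → F} {m₀ : ℕ}

theorem Y_mem (hs : s.OK w m₀) (t : s.Tu c) : s.Y c t ∈ US w c := by
  unfold US
  simp only [mem_filter, mem_univ, true_and]
  intro a l hl
  exact hs.sy _ _ _ hl

theorem B_mem (hs : s.OK w m₀) (t : s.Tu c) : s.B c t ∈ US w c := by
  unfold US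
  simp only [mem_filter, mem_univ, true_and]
  intro a l hl
  exact hs.sb _ _ _ hl

theorem BI_of_BY (t : s.Tu c) (h : BY w c (s.Y c t)) : s.BI c w t :=
  fun j g γ hg hy _ => h j g γ hg hy

/-- a tuple with dependent `y`-parts satisfying `BI` has no solutions -/
theorem not_sat (t : s.Tu c) (hBI : s.BI c w t) (hBY : ¬ BY w c (s.Y c t)) (α : prs J → F) :
    ¬ s.Sat c w t α := by
  intro hsat
  unfold BY at hBY
  push Not at hBY
  obtain ⟨j, g, γ, hg, hy, hg0⟩ := hBY
  refine hg0 (hBI j g γ hg hy ?_)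
  intro l
  have h1 : ∀ a, g a * s.B c t a l = g a * lap (w j) α (s.Y c t a) l := by
    intro a
    by_cases ha : g a = 0
    · rw [ha]; ring
    · rw [← hsat a, hg a ha]
  have h2 : ∑ a, g a * s.B c t a l = lap (w j) α (∑ a, g a • s.Y c t a) l := by
    rw [map_sum, Finset.sum_apply]
    refine sum_congr rfl fun a _ => ?_
    rw [h1, map_smul]
    rfl
  rw [h2]
  have h3 : (∑ a, g a • s.Y c t a) = fun l => if w j l = 0 then 0 else γ := by
    funext l
    rw [← hy l, Finset.sum_apply]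
    rfl
  rw [h3]
  change ∑ l', w j l * w j l' * ext α l l' * ((if w j l' = 0 then 0 else γ) -
    (if w j l = 0 then 0 else γ)) = 0
  refine sum_eq_zero fun l' _ => ?_
  by_cases h4 : w j l = 0
  · rw [h4]; ring
  · by_cases h5 : w j l' = 0
    · rw [h5]; ring
    · rw [if_neg h4, if_neg h5]; ring

/-- the number of the tuples -/
theorem card_tuples (hs : s.OK w m₀) : Fintype.card (s.Tu c) = 3 ^ nn w c := by
  unfold nn
  rw [Fintype.card_pi, ← Finset.prod_pow_eq_pow_sum]
  refine prod_congr rfl fun a _ => ?_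
  rw [← Nat.card_eq_fintype_card, hs.card]

/-- the number of the tuples with given `y`-parts -/
theorem card_fib (hs : s.OK w m₀) (y : Fin D → J → F) :
    (univ.filter fun t : s.Tu c => s.Y c t = y).card ≤ 3 ^ (m₀ * D) := by
  rcases (univ.filter fun t : s.Tu c => s.Y c t = y).eq_empty_or_nonempty with h | ⟨t0, ht0⟩
  · rw [h]; simp
  · have h0 : s.Y c t0 = y := (mem_filter.1 ht0).2
    let T := ∀ a : Fin D, {p : s.L (c a) // s.y (c a) p = 0}
    have h1 : (univ.filter fun t : s.Tu c => s.Y c t = y).card ≤ (univ : Finset T).card := by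
      refine Finset.card_le_card_of_injOn (fun t a => if h : s.y (c a) (t a - t0 a) = 0 then
        (⟨t a - t0 a, h⟩ : {p : s.L (c a) // s.y (c a) p = 0}) else ⟨0, map_zero _⟩)
        (fun _ _ => mem_univ _) ?_
      intro t ht u hu htu
      have ht' : s.Y c t = y := (mem_filter.1 (Finset.mem_coe.1 ht)).2
      have hu' : s.Y c u = y := (mem_filter.1 (Finset.mem_coe.1 hu)).2
      funext a
      have e1 : s.y (c a) (t a - t0 a) = 0 := by
        rw [map_sub]
        have : s.Y c t a = s.Y c t0 a := by rw [ht', h0]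
        exact sub_eq_zero.2 this
      have e2 : s.y (c a) (u a - t0 a) = 0 := by
        rw [map_sub]
        have : s.Y c u a = s.Y c t0 a := by rw [hu', h0]
        exact sub_eq_zero.2 this
      have e3 := congrFun htu a
      simp only [e1, e2, dif_pos] at e3
      have e4 := congrArg Subtype.val e3
      simpa using e4
    refine h1.trans ?_
    rw [card_univ, Fintype.card_pi]
    calc ∏ a : Fin D, Fintype.card {p : s.L (c a) // s.y (c a) p = 0}
        ≤ ∏ _a : Fin D, 3 ^ m₀ := by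
          refine prod_le_prod' fun a _ => ?_
          rw [← Nat.card_eq_fintype_card]
          exact hs.ker _
      _ = 3 ^ (m₀ * D) := by
          rw [prod_const, card_univ, Fintype.card_fin, ← pow_mul]

/-- the number of the tuples with a given relation -/
theorem card_rel (hs : s.OK w m₀) {n₀ : ℕ} (hsp : ∀ j, n₀ ≤ (sp (w j)).card) (g : Fin D → F)
    (hg : g ≠ 0) (r : J → F) :
    (univ.filter fun t : s.Tu c => ∀ l, ∑ a, g a * s.Y c t a l = r l).card * 3 ^ n₀ ≤
      3 ^ m₀ * 3 ^ nn w c := by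
  obtain ⟨a₀, ha₀⟩ : ∃ a, g a ≠ 0 := by
    by_contra h
    push Not at h
    exact hg (funext h)
  set Z := univ.filter fun t : s.Tu c => ∀ l, ∑ a, g a * s.Y c t a l = r l with hZ
  let T' := ∀ b : {b : Fin D // b ≠ a₀}, s.L (c b)
  let φ : s.Tu c → T' := fun t b => t b
  have hfib : ∀ t' : T', (Z.filter fun t => φ t = t').card ≤ 3 ^ m₀ := by
    intro t'
    rcases (Z.filter fun t => φ t = t').eq_empty_or_nonempty with h | ⟨t0, ht0⟩
    · rw [h]; simp
    · rw [mem_filter] at ht0
      obtain ⟨hZ0, hφ0⟩ := ht0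
      have hZ0' : ∀ l, ∑ a, g a * s.Y c t0 a l = r l := by simpa [hZ] using hZ0
      have key : ∀ t ∈ (Z.filter fun t => φ t = t'), s.y (c a₀) (t a₀ - t0 a₀) = 0 := by
        intro t ht
        rw [mem_filter] at ht
        obtain ⟨hZt, hφt⟩ := ht
        have hZt' : ∀ l, ∑ a, g a * s.Y c t a l = r l := by simpa [hZ] using hZt
        have h1 : ∀ a, a ≠ a₀ → t a = t0 a := fun a ha => by
          have := congrFun (hφt.trans hφ0.symm) ⟨a, ha⟩
          exact this
        funext l
        have h2 : ∑ a, g a * (s.Y c t a l - s.Y c t0 a l) = 0 := by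
          simp only [mul_sub, sum_sub_distrib, hZt', hZ0', sub_self]
        rw [Finset.sum_eq_single a₀] at h2
        · have h3 := (mul_eq_zero.1 h2).resolve_left ha₀
          rw [map_sub]
          exact h3
        · intro b _ hb
          have : s.Y c t b = s.Y c t0 b := by
            unfold Sys.Y
            rw [h1 b hb]
          rw [this, sub_self, mul_zero]
        · intro h; exact absurd (mem_univ _) h
      refine le_trans ?_ (hs.ker (c a₀))
      rw [Nat.card_eq_fintype_card, ← Finset.card_univ]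
      refine Finset.card_le_card_of_injOn (fun t => if h : s.y (c a₀) (t a₀ - t0 a₀) = 0 then
        (⟨t a₀ - t0 a₀, h⟩ : {p : s.L (c a₀) // s.y (c a₀) p = 0}) else ⟨0, map_zero _⟩)
        (fun _ _ => mem_univ _) ?_
      intro t ht u hu htu
      have ht' := key t ht
      have hu' := key u hu
      simp only [ht', hu', dif_pos] at htu
      have h4 : t a₀ = u a₀ := by
        have := congrArg Subtype.val htu
        simpa using this
      have ht2 := (mem_filter.1 (Finset.mem_coe.1 ht)).2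
      have hu2 := (mem_filter.1 (Finset.mem_coe.1 hu)).2
      funext a
      by_cases ha : a = a₀
      · subst ha; exact h4
      · exact congrFun (ht2.trans hu2.symm) ⟨a, ha⟩
  have h1 : Z.card ≤ 3 ^ m₀ * Fintype.card T' := by
    rw [← Finset.card_univ (α := T')]
    exact Finset.card_le_mul_card_image_of_maps_to (f := φ) (fun _ _ => mem_univ _) _
      (fun t' _ => hfib t')
  have h2 : Fintype.card T' * 3 ^ (sp (w (c a₀))).card = 3 ^ nn w c := by
    rw [← card_tuples s c hs, Fintype.card_pi, Fintype.card_pi]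
    have h3 := Fintype.prod_eq_mul_prod_subtype_ne (fun a => Fintype.card (s.L (c a))) a₀
    rw [h3, mul_comm]
    congr 1
    rw [← Nat.card_eq_fintype_card, hs.card]
  calc Z.card * 3 ^ n₀ ≤ (3 ^ m₀ * Fintype.card T') * 3 ^ (sp (w (c a₀))).card :=
        Nat.mul_le_mul h1 (Nat.pow_le_pow_right (by norm_num) (hsp _))
    _ = 3 ^ m₀ * 3 ^ nn w c := by rw [mul_assoc, h2]

/-- the number of the tuples with dependent `y`-parts -/
theorem card_dep (hs : s.OK w m₀) {n₀ : ℕ} (hsp : ∀ j, n₀ ≤ (sp (w j)).card) :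
    (univ.filter fun t : s.Tu c => ¬ BY w c (s.Y c t)).card * 3 ^ n₀ ≤
      3 ^ (D + 1) * (3 ^ m₀ * 3 ^ nn w c) := by
  -- the colour of `g`
  let col : (Fin D → F) → Option (Fin k) := fun g =>
    if h : ∃ a, g a ≠ 0 then some (c h.choose) else none
  let rr : (Fin D → F) × F → J → F := fun p l =>
    if h : ∃ a, p.1 a ≠ 0 then (if w (c h.choose) l = 0 then 0 else p.2) else 0
  have h1 : (univ.filter fun t : s.Tu c => ¬ BY w c (s.Y c t)) ⊆
      (univ.filter fun p : (Fin D → F) × F => p.1 ≠ 0).biUnion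
        (fun p => univ.filter fun t : s.Tu c => ∀ l, ∑ a, p.1 a * s.Y c t a l = rr p l) := by
    intro t ht
    simp only [mem_filter, mem_univ, true_and] at ht
    unfold BY at ht
    push Not at ht
    obtain ⟨j, g, γ, hg, hy, hg0⟩ := ht
    simp only [mem_biUnion, mem_filter, mem_univ, true_and]
    refine ⟨(g, γ), hg0, fun l => ?_⟩
    have h2 : ∃ a, g a ≠ 0 := by
      by_contra h
      push Not at h
      exact hg0 (funext h)
    have h3 : c h2.choose = j := hg _ h2.choose_spec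
    rw [hy l]
    simp only [rr]
    rw [dif_pos h2, h3]
  have h2 := (card_le_card h1).trans card_biUnion_le
  have h3 : (univ.filter fun p : (Fin D → F) × F => p.1 ≠ 0).card ≤ 3 ^ (D + 1) := by
    refine (card_filter_le _ _).trans ?_
    rw [card_univ, Fintype.card_prod, Fintype.card_fun, ZMod.card, Fintype.card_fin, pow_succ]
  calc _ ≤ (∑ p ∈ univ.filter fun p : (Fin D → F) × F => p.1 ≠ 0,
        (univ.filter fun t : s.Tu c => ∀ l, ∑ a, p.1 a * s.Y c t a l = rr p l).card) * 3 ^ n₀ :=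
        Nat.mul_le_mul_right _ h2
    _ = ∑ p ∈ univ.filter fun p : (Fin D → F) × F => p.1 ≠ 0,
        (univ.filter fun t : s.Tu c => ∀ l, ∑ a, p.1 a * s.Y c t a l = rr p l).card * 3 ^ n₀ :=
        sum_mul _ _ _
    _ ≤ ∑ p ∈ univ.filter fun p : (Fin D → F) × F => p.1 ≠ 0, 3 ^ m₀ * 3 ^ nn w c :=
        sum_le_sum fun p hp => card_rel s c hs hsp p.1 (mem_filter.1 hp).2 _
    _ = (univ.filter fun p : (Fin D → F) × F => p.1 ≠ 0).card * (3 ^ m₀ * 3 ^ nn w c) := by
        rw [sum_const, smul_eq_mul]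
    _ ≤ _ := Nat.mul_le_mul_right _ h3

end MOML

open MOML

theorem t_MOM : S_FOU → S_STR → S_GRA → S_NF → S_MOM := by
  intro hF hS hG hN J _ _ k M D m₀ n₀ W μ s c hNP hs hn₀ hcl
  set w := wt W μ with hw
  have hne : ∀ j, ∃ l, w j l ≠ 0 := by
    intro j
    obtain ⟨m, hm⟩ := hNP.1 j
    have h1 : 0 < (univ.filter fun l => μ l = m).card := lt_of_lt_of_le hn₀ (hcl m)
    obtain ⟨l, hl⟩ := card_pos.1 h1
    refine ⟨l, ?_⟩
    have h2 : μ l = m := (mem_filter.1 hl).2
    rw [hw]
    unfold wt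
    rwa [h2]
  have hsp : ∀ j, n₀ ≤ (sp (w j)).card := by
    intro j
    obtain ⟨m, hm⟩ := hNP.1 j
    refine (hcl m).trans (card_le_card ?_)
    intro l hl
    have h2 : μ l = m := (mem_filter.1 hl).2
    unfold sp
    simp only [mem_filter, mem_univ, true_and]
    rw [hw]
    unfold wt
    rwa [h2]
  set NF : (Fin D → J → F) → ℕ := fun y =>
    ((US w c).filter fun u => UL w c y u ∧ ¬ Full W μ c y u).card with hNF
  have key : ∀ t : s.Tu c, BY w c (s.Y c t) →
      |pr (s.Sat c w t) * 3 ^ nn w c - 3 ^ (D + Qc c)| ≤ (NF (s.Y c t) : ℝ) := by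
    intro t hBY
    have hY := Y_mem s c hs t
    have hB := B_mem s c hs t
    have h1 := hF J k D w c (s.Y c t) (s.B c t) hY hB
    have hsum : ∀ a, ∑ l, s.B c t a l = 0 := fun a => hs.sum _ _
    have hsym : ∀ a a', c a = c a' → ∑ l, s.B c t a l * s.Y c t a' l =
        ∑ l, s.B c t a' l * s.Y c t a l := by
      intro a a' haa
      have aux : ∀ (i j : Fin k) (h : i = j) (p : s.L i) (q : s.L j),
          ∑ l, s.b i p l * s.y j q l = ∑ l, s.b j q l * s.y i p l := by
        intro i j h p q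
        subst h
        exact hs.sym i p q
      exact aux _ _ haa (t a) (t a')
    obtain ⟨hGU, hGs⟩ := hG J k D w c (s.Y c t) (s.B c t) hne hY hB hsum hsym hBY
    have h2 : ((pr (s.Sat c w t) : ℝ) : ℂ) * 3 ^ nn w c =
        ∑ u ∈ (US w c).filter (UL w c (s.Y c t)), ez (∑ a, ∑ l, u a l * s.B c t a l) := by
      have h3 : (3 : ℂ) ^ (prs J).card ≠ 0 := pow_ne_zero _ (by norm_num)
      have h4 : ((pr (s.Sat c w t) : ℝ) : ℂ) =
          ((univ.filter fun α : prs J → F => ∀ a, lap (w (c a)) α (s.Y c t a) =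
            s.B c t a).card : ℂ) / 3 ^ (prs J).card := by
        have h5 : (univ.filter (s.Sat c w t)) = (univ.filter fun α : prs J → F =>
            ∀ a, lap (w (c a)) α (s.Y c t a) = s.B c t a) := by
          ext α
          simp only [mem_filter, mem_univ, true_and]
          exact Iff.rfl
        unfold pr
        rw [h5]
        push_cast
        rfl
      rw [h4, div_mul_eq_mul_div, h1, mul_div_cancel_left₀ _ h3]
    have h3 := Finset.sum_filter_add_sum_filter_not ((US w c).filter (UL w c (s.Y c t)))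
      (Gr w c (s.Y c t)) (fun u => ez (∑ a, ∑ l, u a l * s.B c t a l))
    have h4 : ((US w c).filter (UL w c (s.Y c t))).filter (Gr w c (s.Y c t)) =
        (US w c).filter (Gr w c (s.Y c t)) := by
      rw [filter_filter]
      refine filter_congr fun u _ => ?_
      exact ⟨fun h => h.2, fun h => ⟨hGU u h, h⟩⟩
    rw [h4, hGs] at h3
    rw [← h3] at h2
    have h5 : ((pr (s.Sat c w t) * 3 ^ nn w c - 3 ^ (D + Qc c) : ℝ) : ℂ) =
        ∑ u ∈ ((US w c).filter (UL w c (s.Y c t))).filter (fun u => ¬ Gr w c (s.Y c t) u),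
          ez (∑ a, ∑ l, u a l * s.B c t a l) := by
      push_cast
      rw [h2]
      ring
    have h6 : |pr (s.Sat c w t) * 3 ^ nn w c - 3 ^ (D + Qc c)| =
        ‖((pr (s.Sat c w t) * 3 ^ nn w c - 3 ^ (D + Qc c) : ℝ) : ℂ)‖ := by
      rw [Complex.norm_real, Real.norm_eq_abs]
    rw [h6, h5]
    refine (norm_sum_le _ _).trans ?_
    have h7 : ∀ u ∈ ((US w c).filter (UL w c (s.Y c t))).filter (fun u => ¬ Gr w c (s.Y c t) u),
        ‖ez (∑ a, ∑ l, u a l * s.B c t a l)‖ = 1 := fun u _ => Pool.Agent.Y699.E.norm_ez _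
    rw [sum_congr rfl h7, sum_const, nsmul_eq_mul, mul_one]
    rw [hNF]
    simp only
    norm_cast
    refine card_le_card ?_
    intro u hu
    simp only [mem_filter] at hu ⊢
    refine ⟨hu.1.1, hu.1.2, fun hfull => hu.2 ?_⟩
    exact hS J k M D W μ c (s.Y c t) u hNP hY hu.1.1 hu.1.2 hBY hfull
  -- the sum
  set T1 := univ.filter fun t : s.Tu c => BY w c (s.Y c t) with hT1
  set T3 := univ.filter fun t : s.Tu c => ¬ BY w c (s.Y c t) with hT3
  have hT13 : T1.card + T3.card = 3 ^ nn w c := by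
    rw [← card_tuples s c hs, ← card_univ, hT1, hT3]
    exact Finset.card_filter_add_card_filter_not _
  have hS1 : (∑ t : s.Tu c, if s.BI c w t then pr (s.Sat c w t) else 0) =
      ∑ t ∈ T1, pr (s.Sat c w t) := by
    rw [hT1, sum_filter]
    refine sum_congr rfl fun t _ => ?_
    by_cases h1 : BY w c (s.Y c t)
    · rw [if_pos h1, if_pos (BI_of_BY s c t h1)]
    · rw [if_neg h1]
      by_cases h2 : s.BI c w t
      · rw [if_pos h2]
        unfold pr
        rw [div_eq_zero_iff]
        left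
        norm_cast
        rw [card_eq_zero, filter_eq_empty_iff]
        intro α _
        exact not_sat s c t h2 h1 α
      · rw [if_neg h2]
  rw [hS1]
  set S : ℝ := ∑ t ∈ T1, pr (s.Sat c w t) with hSdef
  have hA : |S * 3 ^ nn w c - T1.card * 3 ^ (D + Qc c)| ≤ ∑ t ∈ T1, (NF (s.Y c t) : ℝ) := by
    have h1 : S * 3 ^ nn w c - T1.card * 3 ^ (D + Qc c) =
        ∑ t ∈ T1, (pr (s.Sat c w t) * 3 ^ nn w c - 3 ^ (D + Qc c)) := by
      rw [sum_sub_distrib, sum_const, nsmul_eq_mul, hSdef, sum_mul]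
    rw [h1]
    refine (abs_sum_le_sum_abs _ _).trans (sum_le_sum fun t ht => ?_)
    exact key t (mem_filter.1 ht).2
  have hB : (∑ t ∈ T1, (NF (s.Y c t) : ℝ)) ≤
      3 ^ (m₀ * D) * (2 ^ (9 ^ D * M) * (1 - (1 / 3 : ℝ) ^ D) ^ n₀ * 3 ^ nn w c) := by
    have h1 : (∑ t ∈ T1, (NF (s.Y c t) : ℝ)) ≤ ∑ t : s.Tu c, (NF (s.Y c t) : ℝ) :=
      sum_le_sum_of_subset_of_nonneg (filter_subset _ _) fun _ _ _ => by positivity
    have h2 : ∑ t : s.Tu c, (NF (s.Y c t) : ℝ) =
        ∑ y ∈ US w c, ∑ t ∈ univ.filter (fun t : s.Tu c => s.Y c t = y), (NF (s.Y c t) : ℝ) :=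
      (sum_fiberwise_of_maps_to (fun t _ => Y_mem s c hs t) _).symm
    have h3 : ∀ y ∈ US w c, ∑ t ∈ univ.filter (fun t : s.Tu c => s.Y c t = y),
        (NF (s.Y c t) : ℝ) ≤ 3 ^ (m₀ * D) * (NF y : ℝ) := by
      intro y _
      have h4 : ∀ t ∈ univ.filter (fun t : s.Tu c => s.Y c t = y),
          (NF (s.Y c t) : ℝ) = (NF y : ℝ) := by
        intro t ht
        rw [(mem_filter.1 ht).2]
      rw [sum_congr rfl h4, sum_const, nsmul_eq_mul]
      refine mul_le_mul_of_nonneg_right ?_ (by positivity)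
      exact_mod_cast card_fib s c hs y
    have h5 : ∑ y ∈ US w c, (NF y : ℝ) = (((US w c ×ˢ US w c).filter fun p =>
        UL w c p.1 p.2 ∧ ¬ Full W μ c p.1 p.2).card : ℝ) := by
      rw [card_filter, sum_product]
      push_cast
      refine sum_congr rfl fun y _ => ?_
      rw [hNF]
      simp only
      rw [card_filter]
      push_cast
      rfl
    have h6 := hN J k M D n₀ W μ c hcl
    calc _ ≤ _ := h1
      _ = _ := h2
      _ ≤ ∑ y ∈ US w c, 3 ^ (m₀ * D) * (NF y : ℝ) := sum_le_sum h3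
      _ = 3 ^ (m₀ * D) * ∑ y ∈ US w c, (NF y : ℝ) := (mul_sum _ _ _).symm
      _ ≤ _ := by
        rw [h5]
        exact mul_le_mul_of_nonneg_left h6 (by positivity)
  have hC : (T3.card : ℝ) * 3 ^ (D + Qc c) ≤
      3 ^ (D ^ 2 + 2 * D + 1 + m₀) * (1 / 3 : ℝ) ^ n₀ * 3 ^ nn w c := by
    have h1 : (T3.card : ℝ) * 3 ^ n₀ ≤ 3 ^ (D + 1) * (3 ^ m₀ * 3 ^ nn w c) := by
      have := card_dep s c hs hsp
      rw [← hT3] at this
      exact_mod_cast this
    have h2 : (T3.card : ℝ) ≤ 3 ^ (D + 1) * (3 ^ m₀ * 3 ^ nn w c) * (1 / 3 : ℝ) ^ n₀ := by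
      have h3 : (3 : ℝ) ^ n₀ * (1 / 3 : ℝ) ^ n₀ = 1 := by
        rw [← mul_pow]; norm_num
      calc (T3.card : ℝ) = T3.card * 3 ^ n₀ * (1 / 3 : ℝ) ^ n₀ := by
            rw [mul_assoc, h3, mul_one]
        _ ≤ _ := mul_le_mul_of_nonneg_right h1 (by positivity)
    have h4 : (3 : ℝ) ^ (D + Qc c) ≤ 3 ^ (D + D ^ 2) :=
      pow_le_pow_right₀ (by norm_num) (Nat.add_le_add_left (Qc_le c) _)
    calc (T3.card : ℝ) * 3 ^ (D + Qc c) ≤
          (3 ^ (D + 1) * (3 ^ m₀ * 3 ^ nn w c) * (1 / 3 : ℝ) ^ n₀) * 3 ^ (D + D ^ 2) :=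
          mul_le_mul h2 h4 (by positivity) (by positivity)
      _ = _ := by ring
  have hfin : |S - 3 ^ (D + Qc c)| * 3 ^ nn w c ≤ er D M m₀ n₀ * 3 ^ nn w c := by
    have h3 : (0 : ℝ) < 3 ^ nn w c := by positivity
    have h4 : (3 : ℝ) ^ nn w c = T1.card + T3.card := by
      exact_mod_cast hT13.symm
    have h5 : |S - 3 ^ (D + Qc c)| * 3 ^ nn w c =
        |(S * 3 ^ nn w c - T1.card * 3 ^ (D + Qc c)) - T3.card * 3 ^ (D + Qc c)| := by
      rw [← abs_of_pos h3, ← abs_mul, abs_of_pos h3]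
      congr 1
      rw [sub_mul]
      have : (3 : ℝ) ^ (D + Qc c) * 3 ^ nn w c = T1.card * 3 ^ (D + Qc c) +
          T3.card * 3 ^ (D + Qc c) := by rw [h4]; ring
      rw [this]
      ring
    rw [h5]
    refine (abs_sub _ _).trans ?_
    have h6 : |(T3.card : ℝ) * 3 ^ (D + Qc c)| = T3.card * 3 ^ (D + Qc c) :=
      abs_of_nonneg (by positivity)
    rw [h6]
    unfold er
    linarith
  exact le_of_mul_le_mul_right hfin (by positivity)

end Pool.Agent.H451.JLM
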