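import Pool.Agent.H451.JLM.Stm2
import Pool.Agent.H451.JL.FEW
import Pool.Graph.R_seed8.Y433.XK.Few

/-! JLM-NDC (helper343): few sets have almost degenerate labels. Adaptation of
`Pool.Agent.H451.JL.t_FEWJ`, `Pool.Agent.Y433.XK.gen`. -/

set_option autoImplicit false
set_option linter.unusedVariables false

open scoped Classical

namespace Pool.Agent.H451.JLM

open Finset Filter
open Pool.Agent.Y692.QS (Ei)
open Pool.Agent.Y715.T.Rec (cs)
open Pool.Agent.Y715.T.RecG (Pq)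
open Pool.Agent.Y699.E
open Pool.Agent.Y703.CX (eL zz kk)
open Pool.Agent.Y703.XK (SS sm la)
open Pool.Agent.Y433.XK (pN pN_pos eulerE M_le small_sum fiber_le)
open Pool.Agent.Y495.CX.Few (eL_tendsto log_small zz_ge loglog_zz rpow_eq)
open Pool.Agent.H451.JL (F)
open Pool.Agent.H451.JL.FewJ (nrm_le_of_dvd mul_split const_sum gw gw_nonneg gw_le ez_eq_one xab_val)

namespace NDC

/-- the Dirichlet sum of the character weight -/
theorem g1_sum {A B : Ei} (hA : PS A) (hB : PS B) (h1 : A ≠ B) (T : ℕ) :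
      ∑ n ∈ SB T, mf (fun π => (1 + 2 * (xab A B π).re) / 3) n / nrm n ≤
        (2460375 * lg (nrm A * nrm B)) ^ (1 / 3 : ℝ) * (lg T) ^ (2 / 3 : ℝ) := by
  have hch := xab_ch hA hB
  have hl := one_le_lg (nrm A * nrm B)
  have hlT := lg_pos T
  have hAA : ∑ n ∈ PB (T ^ 3), mf (fun π => 3 * ((1 + 2 * (xab A B π).re) / 3)) n / nrm n ≤
      (2460375 * lg (nrm A * nrm B)) * lg T ^ 2 := by
    have e1 : (fun π : Ei => 3 * ((1 + 2 * (xab A B π).re) / 3)) = fun π => 1 + 2 * (xab A B π).re := by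
      funext π; ring
    rw [e1]
    refine (conv_bound hch (chs_log hA hB h1) (T ^ 3)).trans ?_
    have e5 := lg_cube T
    have e6 := lg_pos (T ^ 3)
    have e7 : (32 * lg (T ^ 3)) ^ 2 ≤ (96 * lg T) ^ 2 := by
      apply pow_le_pow_left₀ (by positivity)
      linarith
    calc (32 * lg (T ^ 3)) ^ 2 * (264 * lg (nrm A * nrm B)) ≤ (96 * lg T) ^ 2 * (264 * lg (nrm A * nrm B)) := by
          apply mul_le_mul_of_nonneg_right e7 (by positivity)
      _ = 2433024 * (lg (nrm A * nrm B) * lg T ^ 2) := by ring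
      _ ≤ 2460375 * (lg (nrm A * nrm B) * lg T ^ 2) := by
          have : 0 ≤ lg (nrm A * nrm B) * lg T ^ 2 := by positivity
          linarith
      _ = _ := by ring
  have hv := fun π => hch.val π
  have h3 := (hall3 (g := fun π => (1 + 2 * (xab A B π).re) / 3)
    (fun π => by have := re_nonneg (hv π); linarith)
    (fun π => by have := re_le (hv π); linarith) T).trans hAA
  have A0 : 0 < 2460375 * lg (nrm A * nrm B) := by linarith
  apply le_of_pow_le_pow_left₀ (n := 3) (by norm_num) (by positivity)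
  refine h3.trans (le_of_eq ?_)
  rw [mul_pow, ← Real.rpow_natCast, ← Real.rpow_natCast, ← Real.rpow_natCast, ← Real.rpow_mul A0.le,
    ← Real.rpow_mul hlT.le]
  norm_num

theorem gw_sum₀ {A B : Ei} (hA : PS A) (hB : PS B) (C₁ : ℝ) (hC₁ : 0 ≤ C₁)
    (hg1 : ∀ T : ℕ, ∑ n ∈ SB T, mf (fun π => (1 + 2 * (xab A B π).re) / 3) n / nrm n ≤
      C₁ * (lg T) ^ (2 / 3 : ℝ)) (C₂ : ℝ) (hC₂ : 0 ≤ C₂)
    (hM : ∀ N : ℕ, 3 ≤ N → ∑ π ∈ QB N, (1 : ℝ) / nrm π ≤ 2 * Real.log (Real.log N) + C₂) (T : ℕ) :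
      ∑ n ∈ SB T, mf (gw (xab A B)) n ≤
        (32 + 21 * C₁ * Real.exp (C₂ / 24)) * (T * (lg T) ^ (-(1 / 4) : ℝ)) := by
  have hch := xab_ch hA hB
  have hlT := lg_pos T
  have hl1 := one_le_lg T
  have hpos : 0 ≤ (T : ℝ) * (lg T) ^ (-(1 / 4) : ℝ) := by positivity
  rcases Nat.lt_or_ge T 3 with hT | hT
  · rcases Nat.eq_zero_or_pos T with h0 | h0
    · rw [SB_empty h0, sum_empty]
      positivity
    · have h2 : ∑ n ∈ SB T, mf (gw (xab A B)) n ≤ 16 * T := by
        refine (sum_le_sum fun n _ => mf_le_one (gw_nonneg _) (gw_le _) n).trans ?_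
        rw [sum_const, nsmul_eq_mul, mul_one]
        exact card_SB_le h0
      have h3 : lg T ≤ 2 := by
        refine (lg_mono (show T ≤ 2 by omega)).trans (le_of_eq ?_)
        unfold lg
        norm_num
      have h4 : (1 / 2 : ℝ) ≤ (lg T) ^ (-(1 / 4) : ℝ) := by
        calc (1 / 2 : ℝ) = 2 ^ (-1 : ℝ) := by rw [Real.rpow_neg_one]; norm_num
          _ ≤ 2 ^ (-(1 / 4) : ℝ) := Real.rpow_le_rpow_of_exponent_le (by norm_num) (by norm_num)
          _ ≤ (lg T) ^ (-(1 / 4) : ℝ) := Real.rpow_le_rpow_of_nonpos hlT h3 (by norm_num)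
      have hTr : (0 : ℝ) ≤ T := Nat.cast_nonneg _
      calc ∑ n ∈ SB T, mf (gw (xab A B)) n ≤ 16 * T := h2
        _ = 32 * (T * (1 / 2)) := by ring
        _ ≤ 32 * (T * (lg T) ^ (-(1 / 4) : ℝ)) := by gcongr
        _ ≤ (32 + 21 * C₁ * Real.exp (C₂ / 24)) * (T * (lg T) ^ (-(1 / 4) : ℝ)) := by
            apply mul_le_mul_of_nonneg_right _ hpos
            have : 0 ≤ 21 * C₁ * Real.exp (C₂ / 24) := by positivity
            linarith
  · have hT1 : 1 ≤ T := by omega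
    have hTr : (0 : ℝ) < T := by exact_mod_cast (by omega : 0 < T)
    have hlog : 1 ≤ Real.log T := by
      rw [Real.le_log_iff_exp_le hTr]
      have := Real.exp_one_lt_d9
      have h3 : (3 : ℝ) ≤ T := by exact_mod_cast hT
      linarith
    set S := ∑ n ∈ SB T, mf (gw (xab A B)) n with hS
    have hS0 : 0 ≤ S := sum_nonneg fun n _ => mf_nonneg (gw_nonneg _) n
    have h2 := hall1 (gw_nonneg (xab A B)) (gw_le (xab A B)) hT1
    rw [← hS] at h2
    have hle : ∑ n ∈ SB T, mf (gw (xab A B)) n / nrm n ≤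
        ∑ n ∈ SB T, mf (fun π => (1 + 2 * (xab A B π).re) / 3 + 1 / 24) n / nrm n := by
      refine sum_le_sum fun n _ => ?_
      refine div_le_div_of_nonneg_right ?_ (Nat.cast_nonneg _)
      unfold mf
      refine prod_le_prod (fun π _ => gw_nonneg _ _) fun π _ => ?_
      have h5 := re_nonneg (hch.val π)
      unfold gw
      split_ifs with h6
      · rw [h6]
        norm_num
      · linarith
    have h3 := hle.trans (mul_split (g₁ := fun π => (1 + 2 * (xab A B π).re) / 3)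
      (g₂ := fun _ => 1 / 24) (fun π => by have := re_nonneg (hch.val π); linarith)
      (fun _ => by norm_num) T)
    have h4 := const_sum (1 / 24) (by norm_num) T
    have h5 : Real.exp (1 / 24 * ∑ π ∈ QB T, (1 : ℝ) / nrm π) ≤
        Real.exp (C₂ / 24) * (lg T) ^ (1 / 12 : ℝ) := by
      have h6 := hM T hT
      have h7 : (lg T) ^ (1 / 12 : ℝ) ≥ (Real.log T) ^ (1 / 12 : ℝ) :=
        Real.rpow_le_rpow (by linarith) (log_le_lg hT1) (by norm_num)
      have h8 : (Real.log T) ^ (1 / 12 : ℝ) = Real.exp (1 / 12 * Real.log (Real.log T)) := by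
        rw [Real.rpow_def_of_pos (by linarith), mul_comm]
      calc Real.exp (1 / 24 * ∑ π ∈ QB T, (1 : ℝ) / nrm π)
          ≤ Real.exp (C₂ / 24 + 1 / 12 * Real.log (Real.log T)) := by
            apply Real.exp_le_exp.2
            linarith
        _ = Real.exp (C₂ / 24) * (Real.log T) ^ (1 / 12 : ℝ) := by rw [Real.exp_add, h8]
        _ ≤ Real.exp (C₂ / 24) * (lg T) ^ (1 / 12 : ℝ) := by gcongr
    have h6 : ∑ n ∈ SB T, mf (gw (xab A B)) n / nrm n ≤
        (C₁ * (lg T) ^ (2 / 3 : ℝ)) * (Real.exp (C₂ / 24) * (lg T) ^ (1 / 12 : ℝ)) := by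
      refine h3.trans ?_
      refine mul_le_mul (hg1 T) (h4.trans h5) ?_ (by positivity)
      exact sum_nonneg fun n _ => div_nonneg (mf_nonneg (fun _ => by norm_num) _) (Nat.cast_nonneg _)
    have h7 : (lg T) ^ (2 / 3 : ℝ) * (lg T) ^ (1 / 12 : ℝ) = (lg T) ^ (-(1 / 4) : ℝ) * lg T := by
      rw [← Real.rpow_add hlT]
      have := Real.rpow_add hlT (-(1 / 4)) 1
      rw [Real.rpow_one] at this
      rw [← this]
      norm_num
    have h8 := lg_le_log (show 2 ≤ T by omega)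
    have h9 : S * lg T ≤ (21 * C₁ * Real.exp (C₂ / 24)) * (T * (lg T) ^ (-(1 / 4) : ℝ)) * lg T := by
      calc S * lg T ≤ S * (3 * Real.log T) := mul_le_mul_of_nonneg_left h8 hS0
        _ = 3 * (S * Real.log T) := by ring
        _ ≤ 3 * (7 * T * ((C₁ * (lg T) ^ (2 / 3 : ℝ)) *
              (Real.exp (C₂ / 24) * (lg T) ^ (1 / 12 : ℝ)))) := by
            have h10 : 7 * (T : ℝ) * ∑ n ∈ SB T, mf (gw (xab A B)) n / nrm n ≤
                7 * T * ((C₁ * (lg T) ^ (2 / 3 : ℝ)) *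
                  (Real.exp (C₂ / 24) * (lg T) ^ (1 / 12 : ℝ))) :=
              mul_le_mul_of_nonneg_left h6 (by positivity)
            linarith
        _ = 21 * C₁ * Real.exp (C₂ / 24) * T * ((lg T) ^ (2 / 3 : ℝ) * (lg T) ^ (1 / 12 : ℝ)) := by
            ring
        _ = _ := by rw [h7]; ring
    have h10 := le_of_mul_le_mul_right h9 hlT
    refine h10.trans ?_
    apply mul_le_mul_of_nonneg_right _ hpos
    linarith

/-- the sum of the weight, with an explicit dependence on the character -/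
theorem gw_sum : ∃ C : ℝ, 0 ≤ C ∧ ∀ A B : Ei, PS A → PS B → A ≠ B → ∀ T : ℕ,
    ∑ n ∈ SB T, mf (gw (xab A B)) n ≤
      C * lg (nrm A * nrm B) * (T * (lg T) ^ (-(1 / 4) : ℝ)) := by
  obtain ⟨C₂, hC₂, hM⟩ := M_le
  refine ⟨32 + 21 * 2460375 * Real.exp (C₂ / 24), by positivity, fun A B hA hB h1 T => ?_⟩
  have hl := one_le_lg (nrm A * nrm B)
  have h := gw_sum₀ hA hB ((2460375 * lg (nrm A * nrm B)) ^ (1 / 3 : ℝ)) (by positivity)
    (g1_sum hA hB h1) C₂ hC₂ hM T
  refine h.trans ?_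
  have hpos : 0 ≤ (T : ℝ) * (lg T) ^ (-(1 / 4) : ℝ) := by
    have := lg_pos T
    positivity
  refine mul_le_mul_of_nonneg_right ?_ hpos
  have h2 : (2460375 * lg (nrm A * nrm B)) ^ (1 / 3 : ℝ) ≤ 2460375 * lg (nrm A * nrm B) := by
    calc (2460375 * lg (nrm A * nrm B)) ^ (1 / 3 : ℝ) ≤ (2460375 * lg (nrm A * nrm B)) ^ (1 : ℝ) :=
          Real.rpow_le_rpow_of_exponent_le (by linarith) (by norm_num)
      _ = _ := Real.rpow_one _
  have h3 : 0 ≤ Real.exp (C₂ / 24) := (Real.exp_pos _).le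
  have h4 : 21 * (2460375 * lg (nrm A * nrm B)) ^ (1 / 3 : ℝ) * Real.exp (C₂ / 24) ≤
      21 * (2460375 * lg (nrm A * nrm B)) * Real.exp (C₂ / 24) := by
    gcongr
  have h5 : (32 + 21 * 2460375 * Real.exp (C₂ / 24)) * lg (nrm A * nrm B) =
    32 * lg (nrm A * nrm B) + 21 * (2460375 * lg (nrm A * nrm B)) * Real.exp (C₂ / 24) := by ring
  rw [h5]
  linarith

/-- the general estimate -/
theorem gen4L (a b : ℝ) (ha : 0 ≤ a) (hb : 0 ≤ b) (Q : ℕ → Finset Ei → Prop)
    (hcount : ∀ (X : ℕ) (S₀ : Finset Ei), (∀ u ∈ S₀, Pq u ∧ nrm u ≤ zz X) → S₀.card ≤ kk X →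
      ∀ F : Finset (Finset Ei),
      (∀ S ∈ F, S ∈ SS X ∧ (S.card ≤ kk X ∧ Q X S) ∧ sm (zz X) S = S₀) → (F.card : ℝ) ≤
        b * a ^ S₀.card * lg (pN S₀) * (((X / pN S₀ : ℕ) : ℝ) *
          (lg (X / pN S₀)) ^ (-(1 / 4) : ℝ))) :
    ∀ ε : ℝ, 0 < ε → ∃ X₀ : ℕ, ∀ X : ℕ, X₀ ≤ X → ∀ F : Finset (Finset Ei),
      (∀ S ∈ F, S ∈ SS X ∧ S.card ≤ kk X ∧ Q X S) → (F.card : ℝ) ≤ ε * X := by
  intro ε hε
  obtain ⟨C, hC0, hC⟩ := M_le
  -- the final comparison
  have hlim : Tendsto (fun l : ℝ => (297 * b * Real.exp (a * C)) * Real.exp (-(1 / 8) * l)) atTop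
      (nhds 0) := by
    have h1 : Tendsto (fun l : ℝ => Real.exp (-(1 / 8) * l)) atTop (nhds 0) := by
      refine Real.tendsto_exp_atBot.comp ?_
      exact tendsto_id.const_mul_atTop_of_neg (by norm_num)
    have := h1.const_mul (297 * b * Real.exp (a * C))
    rwa [mul_zero] at this
  have hpow : ∀ᶠ l : ℝ in atTop, 33 * l ^ 4 + 3 ≤ Real.exp l := by
    have h1 := (Real.isLittleO_pow_exp_atTop (n := 4)).bound (show (0:ℝ) < 1 / 66 by norm_num)
    filter_upwards [h1, eventually_ge_atTop (2:ℝ)] with l hl hl2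
    rw [Real.norm_of_nonneg (by positivity), Real.norm_of_nonneg (Real.exp_pos _).le] at hl
    have h2 : (16:ℝ) ≤ l ^ 4 := by
      have := pow_le_pow_left₀ (by norm_num : (0:ℝ) ≤ 2) hl2 4
      linarith
    linarith
  have hev := (((eL_tendsto.eventually (log_small (4 + 6 * a) (1 / 8) (by norm_num))).and
    (eL_tendsto.eventually (eventually_ge_atTop 2))).and
    (eL_tendsto.eventually (hlim.eventually (gt_mem_nhds hε)))).and (eL_tendsto.eventually hpow)
  obtain ⟨X₀, hX₀⟩ := eventually_atTop.1 hev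
  refine ⟨max X₀ 3, fun X hX F hF => ?_⟩
  obtain ⟨⟨⟨k1, k2⟩, k3⟩, k4⟩ := hX₀ X ((le_max_left _ _).trans hX)
  have hX3 : 3 ≤ X := (le_max_right _ _).trans hX
  set ℓ : ℝ := eL X with hℓ
  set z : ℕ := zz X with hz
  set k : ℕ := kk X with hk
  have hl0 : 0 < ℓ := by linarith
  have hlX : Real.log X = Real.exp ℓ := by
    have := rpow_eq (X := X) k2 1
    rwa [Real.rpow_one, one_mul] at this
  have hX0 : (0 : ℝ) < X := by exact_mod_cast (by omega : 0 < X)
  have hk11 : (k : ℝ) ≤ 11 * ℓ := by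
    have h := Nat.ceil_lt_add_one (show (0 : ℝ) ≤ 10 * eL X by rw [← hℓ]; positivity)
    have h' : (k : ℝ) < 10 * ℓ + 1 := h
    linarith
  have hz3 : 3 ≤ z := zz_ge k2
  have hz0 : (0 : ℝ) < z := by exact_mod_cast (by omega : 0 < z)
  have hzlog : Real.log z ≤ ℓ ^ 3 := by
    rw [Real.log_le_iff_le_exp hz0]
    exact Nat.floor_le (Real.exp_pos _).le
  have hzlog0 : 0 < Real.log z := Real.log_pos (by exact_mod_cast (by omega : 1 < z))
  have hl4 : (1 : ℝ) ≤ ℓ ^ 4 := one_le_pow₀ (by linarith)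
  set W : Finset (Finset Ei) := (QB z).powerset.filter fun S => S.card ≤ k with hW
  have hmaps : ∀ S ∈ F, sm z S ∈ W := by
    intro S hS
    replace hS := hF S hS
    rw [hW, mem_filter, mem_powerset]
    refine ⟨?_, (card_le_card (filter_subset _ _)).trans hS.2.1⟩
    intro π hπ
    unfold sm at hπ
    rw [mem_filter] at hπ
    unfold SS at hS
    rw [mem_filter] at hS
    rw [mem_QB]
    exact ⟨hπ.2, hS.1.2.1.1 π hπ.1⟩
  have hcard : (F.card : ℝ) = ∑ S₀ ∈ W, ((F.filter fun S => sm z S = S₀).card : ℝ) := by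
    have := card_eq_sum_card_fiberwise hmaps
    exact_mod_cast this
  have hone : ∀ S₀ ∈ W, ((F.filter fun S => sm z S = S₀).card : ℝ) ≤
      (a ^ S₀.card * (1 / (pN S₀ : ℝ))) * (297 * b * ℓ ^ 4 * X * Real.exp (-(1 / 4) * ℓ)) := by
    intro S₀ hS₀
    rw [hW, mem_filter, mem_powerset] at hS₀
    have hpq : ∀ u ∈ S₀, Pq u ∧ nrm u ≤ z := fun u hu => by
      have := hS₀.1 hu
      rw [mem_QB] at this
      exact ⟨this.2, this.1⟩
    have h1 := hcount X S₀ hpq hS₀.2 (F.filter fun S => sm z S = S₀) (fun S hS => by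
      rw [mem_filter] at hS
      have h := hF S hS.1
      exact ⟨h.1, h.2, hS.2⟩)
    refine h1.trans ?_
    set N := pN S₀ with hN
    have hN0 : 0 < N := pN_pos fun u hu => (hpq u hu).1
    have hN0' : (0 : ℝ) < N := by exact_mod_cast hN0
    have hlN : Real.log N ≤ 11 * ℓ ^ 4 := by
      have e1 : Real.log N = ∑ p ∈ S₀, Real.log (nrm p) := by
        rw [hN]
        unfold pN
        push_cast
        rw [Real.log_prod]
        intro p hp
        have := nrm_ne (pq_ne (hpq p hp).1)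
        exact_mod_cast this
      rw [e1]
      calc ∑ p ∈ S₀, Real.log (nrm p) ≤ ∑ _p ∈ S₀, Real.log z := by
            refine sum_le_sum fun p hp => ?_
            exact Real.log_le_log (by exact_mod_cast nrm_pos' (pq_ne (hpq p hp).1))
              (by exact_mod_cast (hpq p hp).2)
        _ = S₀.card * Real.log z := by rw [sum_const, nsmul_eq_mul]
        _ ≤ (11 * ℓ) * ℓ ^ 3 := by
            refine mul_le_mul (le_trans (by exact_mod_cast hS₀.2) hk11) hzlog hzlog0.le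
              (by positivity)
        _ = 11 * ℓ ^ 4 := by ring
    have hlgN : lg N ≤ 33 * ℓ ^ 4 := by
      rcases Nat.lt_or_ge N 2 with h | h
      · have : N = 1 := by omega
        rw [this]
        have : lg 1 = 1 := by unfold lg; simp
        rw [this]
        linarith
      · have := lg_le_log h
        linarith
    have hYle : ((X / N : ℕ) : ℝ) ≤ (X : ℝ) / N := Nat.cast_div_le
    have hYge : Real.exp (Real.log X / 3) ≤ ((X / N : ℕ) : ℝ) := by
      have e1 : (X : ℝ) / N < ((X / N : ℕ) : ℝ) + 1 := by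
        rw [div_lt_iff₀ hN0']
        have := Nat.lt_mul_div_succ X hN0
        have h' : ((X : ℕ) : ℝ) < ((N * (X / N + 1) : ℕ) : ℝ) := by exact_mod_cast this
        rw [Nat.cast_mul, Nat.cast_add, Nat.cast_one] at h'
        linarith
      have e2 : Real.exp (Real.log X - Real.log N) = (X : ℝ) / N := by
        rw [Real.exp_sub, Real.exp_log hX0, Real.exp_log hN0']
      have e3 : Real.exp (Real.log X / 3 + 1) ≤ (X : ℝ) / N := by
        rw [← e2]
        apply Real.exp_le_exp.2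
        rw [← hlX] at k4
        linarith
      rw [Real.exp_add] at e3
      have e4 : (2 : ℝ) ≤ Real.exp 1 := by have := Real.exp_one_gt_d9; linarith
      have e5 : (1 : ℝ) ≤ Real.exp (Real.log X / 3) := by
        apply Real.one_le_exp
        rw [hlX]
        positivity
      nlinarith
    have hY1 : 1 ≤ X / N := by
      have : (0:ℝ) < ((X / N : ℕ) : ℝ) := lt_of_lt_of_le (Real.exp_pos _) hYge
      exact_mod_cast this
    have hlgY : Real.exp ℓ / 3 ≤ lg (X / N) := by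
      refine le_trans ?_ (log_le_lg hY1)
      rw [← hlX, Real.le_log_iff_exp_le (by exact_mod_cast hY1)]
      exact hYge
    have hrp : (lg (X / N)) ^ (-(1 / 4) : ℝ) ≤ 3 * Real.exp (-(1 / 4) * ℓ) := by
      have e1 : (lg (X / N)) ^ (-(1 / 4) : ℝ) ≤ (Real.exp ℓ / 3) ^ (-(1 / 4) : ℝ) :=
        Real.rpow_le_rpow_of_nonpos (by positivity) hlgY (by norm_num)
      refine e1.trans ?_
      rw [Real.div_rpow (Real.exp_pos _).le (by norm_num), ← Real.exp_mul, div_eq_mul_inv,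
        ← Real.rpow_neg (by norm_num), neg_neg, mul_comm ℓ, mul_comm]
      refine mul_le_mul_of_nonneg_right ?_ (Real.exp_pos _).le
      calc (3:ℝ) ^ (1 / 4 : ℝ) ≤ 3 ^ (1:ℝ) :=
            Real.rpow_le_rpow_of_exponent_le (by norm_num) (by norm_num)
        _ = 3 := Real.rpow_one _
    have hlg0 : 0 ≤ lg N := (zero_le_one.trans (one_le_lg N))
    have hrp0 : 0 ≤ (lg (X / N)) ^ (-(1 / 4) : ℝ) :=
      Real.rpow_nonneg (zero_le_one.trans (one_le_lg _)) _
    calc b * a ^ S₀.card * lg N * (((X / N : ℕ) : ℝ) * (lg (X / N)) ^ (-(1 / 4) : ℝ))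
        ≤ b * a ^ S₀.card * (33 * ℓ ^ 4) * (((X : ℝ) / N) * (3 * Real.exp (-(1 / 4) * ℓ))) := by
          gcongr
      _ ≤ _ := by
          have : b * a ^ S₀.card * (33 * ℓ ^ 4) * (((X : ℝ) / N) * (3 * Real.exp (-(1 / 4) * ℓ))) =
            (a ^ S₀.card * (1 / (N : ℝ))) * (99 * b * ℓ ^ 4 * X * Real.exp (-(1 / 4) * ℓ)) := by
            ring
          rw [this]
          gcongr
          norm_num
  have hsum : (F.card : ℝ) ≤ Real.exp (a * ∑ π ∈ QB z, (1 : ℝ) / nrm π) *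
      (297 * b * ℓ ^ 4 * X * Real.exp (-(1 / 4) * ℓ)) := by
    rw [hcard]
    refine (sum_le_sum hone).trans ?_
    rw [← sum_mul]
    refine mul_le_mul_of_nonneg_right ?_ (by positivity)
    refine le_trans ?_ (small_sum a ha z)
    refine sum_le_sum_of_subset_of_nonneg (filter_subset _ _) fun S _ _ => by positivity
  have hM : a * ∑ π ∈ QB z, (1 : ℝ) / nrm π ≤ a * C + 6 * a * Real.log ℓ := by
    have h1 := hC z hz3
    have h2 := loglog_zz k2
    have h3 : ∑ π ∈ QB z, (1 : ℝ) / nrm π ≤ 6 * Real.log ℓ + C := by linarith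
    have := mul_le_mul_of_nonneg_left h3 ha
    linarith
  have hl4' : ℓ ^ 4 = Real.exp (4 * Real.log ℓ) := by
    rw [show (4:ℝ) * Real.log ℓ = Real.log (ℓ ^ 4) by rw [Real.log_pow]; push_cast; ring]
    exact (Real.exp_log (by positivity)).symm
  calc (F.card : ℝ) ≤ Real.exp (a * C + 6 * a * Real.log ℓ) *
        (297 * b * ℓ ^ 4 * X * Real.exp (-(1 / 4) * ℓ)) := by
        refine hsum.trans ?_
        gcongr
    _ = 297 * b * Real.exp (a * C) * Real.exp ((4 + 6 * a) * Real.log ℓ - 1 / 4 * ℓ) * X := by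
        rw [hl4', Real.exp_add, show (4 + 6 * a) * Real.log ℓ - 1 / 4 * ℓ =
          6 * a * Real.log ℓ + 4 * Real.log ℓ + -(1 / 4) * ℓ by ring, Real.exp_add, Real.exp_add]
        ring
    _ ≤ 297 * b * Real.exp (a * C) * Real.exp (-(1 / 8) * ℓ) * X := by
        gcongr
        linarith
    _ ≤ ε * X := by
        refine mul_le_mul_of_nonneg_right ?_ hX0.le
        exact le_of_lt k3


theorem pair_count : ∃ K : ℝ, 0 ≤ K ∧ ∀ (X z : ℕ) (S₀ : Finset Ei) (t : ℕ),
    (∀ u ∈ S₀, Pq u ∧ nrm u ≤ z) → ∀ v : Ei → ZMod 3, (∃ u ∈ S₀, v u ≠ 0) →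
    ∀ G : Finset (Finset Ei), (∀ S ∈ G, (S ∈ SS X ∧ sm z S = S₀) ∧
      ((la z S).filter fun π => ∑ u ∈ S₀, v u * cs u π ≠ 0).card ≤ t) →
    (G.card : ℝ) ≤ K * 24 ^ t * lg (pN S₀) * (((X / pN S₀ : ℕ) : ℝ) *
      (lg (X / pN S₀)) ^ (-(1 / 4) : ℝ)) := by
  obtain ⟨C, hC0, hC⟩ := gw_sum
  refine ⟨C, hC0, fun X z S₀ t hS₀ v hv G hG => ?_⟩
  obtain ⟨a1, a2⟩ := PS_prod (S := S₀.filter (fun u => v u = 1)) fun u hu =>
    (hS₀ u (filter_subset _ _ hu)).1
  obtain ⟨b1, b2⟩ := PS_prod (S := S₀.filter (fun u => v u = 2)) fun u hu =>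
    (hS₀ u (filter_subset _ _ hu)).1
  have hval := fun π (h1 : Pq π) (h2 : ¬ nrm π ≤ z) =>
    xab_val S₀ v (fun u hu => (hS₀ u hu).1) (z := z) (fun u hu => (hS₀ u hu).2) h1 h2
  have hnn : nrm (∏ u ∈ S₀.filter (fun u => v u = 1), u) *
      nrm (∏ u ∈ S₀.filter (fun u => v u = 2), u) ≤ pN S₀ := by
    rw [nrm_prod, nrm_prod, ← prod_union]
    · exact prod_le_prod_of_subset_of_one_le' (union_subset (filter_subset _ _)
        (filter_subset _ _)) fun u hu _ => nrm_pos' (pq_ne (hS₀ u hu).1)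
    · rw [disjoint_filter]
      intro u _ h1 h2
      rw [h1] at h2
      exact absurd h2 (by decide)
  set A := ∏ u ∈ S₀.filter (fun u => v u = 1), u with hA
  set B := ∏ u ∈ S₀.filter (fun u => v u = 2), u with hB
  have hAB : A ≠ B := by
    intro h
    have heq : S₀.filter (fun u => v u = 1) = S₀.filter (fun u => v u = 2) := by
      rw [← a2, ← b2, h]
    obtain ⟨u, hu, hu0⟩ := hv
    have key : ∀ c : ZMod 3, c ≠ 0 → c = 1 ∨ c = 2 := by decide
    rcases key (v u) hu0 with h1 | h1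
    · have : u ∈ S₀.filter fun u => v u = 2 := by
        rw [← heq, mem_filter]
        exact ⟨hu, h1⟩
      rw [mem_filter, h1] at this
      exact absurd this.2 (by decide)
    · have : u ∈ S₀.filter fun u => v u = 1 := by
        rw [heq, mem_filter]
        exact ⟨hu, h1⟩
      rw [mem_filter, h1] at this
      exact absurd this.2 (by decide)
  have h := fiber_le X z S₀ (fun u hu => (hS₀ u hu).1)
    G (fun S hS => (hG S hS).1) (gw (xab A B)) (gw_nonneg _)
    ((1 / 24) ^ t) (fun S hS => by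
        obtain ⟨⟨h1, h4⟩, h3⟩ := hG S hS
        have hP : ∀ π ∈ la z S, Pq π ∧ ¬ nrm π ≤ z := by
          intro π hπ
          unfold la at hπ
          rw [mem_filter] at hπ
          unfold SS at h1
          rw [mem_filter] at h1
          exact ⟨h1.2.1.1 π hπ.1, hπ.2⟩
        have e1 : ∏ π ∈ la z S, gw (xab A B) π = (1 / 24) ^
            ((la z S).filter fun π => ∑ u ∈ S₀, v u * cs u π ≠ 0).card := by
          rw [← prod_const, prod_filter]
          refine prod_congr rfl fun π hπ => ?_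
          unfold gw
          rw [hval π (hP π hπ).1 (hP π hπ).2]
          by_cases h0 : ∑ u ∈ S₀, v u * cs u π = 0
          · rw [h0, ez_zero, if_pos rfl, if_neg (by simp)]
          · rw [if_neg fun h5 => h0 (ez_eq_one h5), if_pos h0]
        rw [e1]
        exact pow_le_pow_of_le_one (by norm_num) (by norm_num) h3)
  have h2 := h.trans (hC A B a1 b1 hAB (X / pN S₀))
  set c := (G.card : ℝ) with hcdef
  have h3 : (24 : ℝ) ^ t * (1 / 24) ^ t = 1 := by
    rw [← mul_pow]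
    norm_num
  have hTl : 0 ≤ ((X / pN S₀ : ℕ) : ℝ) * (lg (X / pN S₀)) ^ (-(1 / 4) : ℝ) :=
    mul_nonneg (Nat.cast_nonneg _) (Real.rpow_nonneg (zero_le_one.trans (one_le_lg _)) _)
  have h5 : lg (nrm A * nrm B) ≤ lg (pN S₀) := lg_mono hnn
  calc c = (24 : ℝ) ^ t * (c * (1 / 24) ^ t) := by
        linear_combination (-c) * h3
    _ ≤ (24 : ℝ) ^ t * (C * lg (nrm A * nrm B) * (((X / pN S₀ : ℕ) : ℝ) *
          (lg (X / pN S₀)) ^ (-(1 / 4) : ℝ))) := mul_le_mul_of_nonneg_left h2 (by positivity)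
    _ ≤ (24 : ℝ) ^ t * (C * lg (pN S₀) * (((X / pN S₀ : ℕ) : ℝ) *
          (lg (X / pN S₀)) ^ (-(1 / 4) : ℝ))) := by
        gcongr
    _ = _ := by ring

/-- the sets with given small part -/
theorem few_count (C : ℕ) : ∃ b : ℝ, 0 ≤ b ∧
    ∀ (X : ℕ) (S₀ : Finset Ei), (∀ u ∈ S₀, Pq u ∧ nrm u ≤ zz X) → ∀ G : Finset (Finset Ei),
      (∀ S ∈ G, S ∈ SS X ∧ (S.card ≤ kk X ∧ ∃ v : Ei → ZMod 3, (∃ u ∈ sm (zz X) S, v u ≠ 0) ∧
        ((la (zz X) S).filter fun π => ∑ u ∈ sm (zz X) S, v u * cs u π ≠ 0).card ≤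
          C * ((sm (zz X) S).card + 1)) ∧ sm (zz X) S = S₀) → (G.card : ℝ) ≤
        b * (3 * 24 ^ C) ^ S₀.card * lg (pN S₀) * (((X / pN S₀ : ℕ) : ℝ) *
          (lg (X / pN S₀)) ^ (-(1 / 4) : ℝ)) := by
  obtain ⟨K, hK0, hK⟩ := pair_count
  refine ⟨K * 24 ^ C, by positivity, fun X S₀ hS₀ G hG => ?_⟩
  -- the functions on `S₀`, extended by zero
  set e : (S₀ → ZMod 3) → Ei → ZMod 3 := fun f u => if h : u ∈ S₀ then f ⟨u, h⟩ else 0 with he
  have hTl : 0 ≤ ((X / pN S₀ : ℕ) : ℝ) * (lg (X / pN S₀)) ^ (-(1 / 4) : ℝ) :=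
    mul_nonneg (Nat.cast_nonneg _) (Real.rpow_nonneg (zero_le_one.trans (one_le_lg _)) _)
  have hlg := lg_pos (pN S₀)
  set t := C * (S₀.card + 1) with ht
  set P : Finset (S₀ → ZMod 3) := univ.filter fun f => ∃ u ∈ S₀, e f u ≠ 0 with hP
  have hsub : G ⊆ P.biUnion fun f => G.filter fun S =>
      ((la (zz X) S).filter fun π => ∑ u ∈ S₀, e f u * cs u π ≠ 0).card ≤ t := by
    intro S hS
    obtain ⟨h1, ⟨h2, v, ⟨u, hu, hu0⟩, hv⟩, h4⟩ := hG S hS
    rw [h4] at hu hv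
    have hev : ∀ u ∈ S₀, e (fun x => v x.1) u = v u := by
      intro u hu
      simp only [he, dif_pos hu]
    rw [mem_biUnion]
    refine ⟨fun x => v x.1, ?_, ?_⟩
    · rw [hP, mem_filter]
      exact ⟨mem_univ _, u, hu, by rw [hev u hu]; exact hu0⟩
    · rw [mem_filter]
      refine ⟨hS, ?_⟩
      have : ((la (zz X) S).filter fun π => ∑ u ∈ S₀, e (fun x => v x.1) u * cs u π ≠ 0) =
          ((la (zz X) S).filter fun π => ∑ u ∈ S₀, v u * cs u π ≠ 0) := by
        refine filter_congr fun π _ => ?_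
        rw [sum_congr rfl fun u hu => by rw [hev u hu]]
      rw [this]
      exact hv
  have h1 : (G.card : ℝ) ≤ ∑ f ∈ P, ((G.filter fun S =>
      ((la (zz X) S).filter fun π => ∑ u ∈ S₀, e f u * cs u π ≠ 0).card ≤ t).card : ℝ) := by
    exact_mod_cast (card_le_card hsub).trans card_biUnion_le
  have h2 : ∀ f ∈ P, ((G.filter fun S =>
      ((la (zz X) S).filter fun π => ∑ u ∈ S₀, e f u * cs u π ≠ 0).card ≤ t).card : ℝ) ≤
      K * 24 ^ t * lg (pN S₀) * (((X / pN S₀ : ℕ) : ℝ) *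
        (lg (X / pN S₀)) ^ (-(1 / 4) : ℝ)) := by
    intro f hf
    rw [hP, mem_filter] at hf
    refine hK X (zz X) S₀ t hS₀ (e f) hf.2 _ fun S hS => ?_
    rw [mem_filter] at hS
    have h := hG S hS.1
    exact ⟨⟨h.1, h.2.2⟩, hS.2⟩
  have h3 : (P.card : ℝ) ≤ 3 ^ S₀.card := by
    have : P.card ≤ 3 ^ S₀.card := by
      refine (card_filter_le _ _).trans (le_of_eq ?_)
      rw [card_univ, Fintype.card_fun, ZMod.card, Fintype.card_coe]
    exact_mod_cast this
  calc (G.card : ℝ) ≤ ∑ f ∈ P, K * 24 ^ t * lg (pN S₀) * (((X / pN S₀ : ℕ) : ℝ) *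
        (lg (X / pN S₀)) ^ (-(1 / 4) : ℝ)) := h1.trans (sum_le_sum h2)
    _ = P.card * (K * 24 ^ t * lg (pN S₀) * (((X / pN S₀ : ℕ) : ℝ) *
        (lg (X / pN S₀)) ^ (-(1 / 4) : ℝ))) := by rw [sum_const, nsmul_eq_mul]
    _ ≤ 3 ^ S₀.card * (K * 24 ^ t * lg (pN S₀) * (((X / pN S₀ : ℕ) : ℝ) *
        (lg (X / pN S₀)) ^ (-(1 / 4) : ℝ))) :=
        mul_le_mul_of_nonneg_right h3 (by positivity)
    _ = _ := by
        rw [ht, mul_add, mul_one, pow_add, mul_pow, pow_mul]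
        ring

end NDC

theorem t_NDC : S_NDC := by
  intro C ε hε
  obtain ⟨b, hb0, hb⟩ := NDC.few_count C
  obtain ⟨X₀, hX₀⟩ := NDC.gen4L (3 * 24 ^ C) b (by positivity) hb0
    (fun X S => ∃ v : Ei → ZMod 3, (∃ u ∈ sm (zz X) S, v u ≠ 0) ∧
        ((la (zz X) S).filter fun π => ∑ u ∈ sm (zz X) S, v u * cs u π ≠ 0).card ≤
          C * ((sm (zz X) S).card + 1))
    (fun X S₀ hS₀ _ G hG => hb X S₀ hS₀ G hG) ε hε
  refine ⟨X₀, fun X hX => hX₀ X hX _ fun S hS => ?_⟩
  rw [mem_filter] at hS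
  exact ⟨hS.1, hS.2.1, hS.2.2⟩

end Pool.Agent.H451.JLM
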