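import Mathlib
import Pool.Agent.H451.JLM.Stm

/-!
# JLM-NF: few non-full configurations (by helper233 for helper451)
-/

set_option autoImplicit false
set_option linter.unusedVariables false

open scoped Classical

namespace Pool.Agent.H451.JLM

open Finset
open Pool.Agent.H451.JL (F)

namespace NF

lemma sq_one {x : F} (hx : x ≠ 0) : x * x = 1 := by
  revert x
  decide

lemma card_Z (D : ℕ) : Fintype.card (Fin D → F × F) = 9 ^ D := by
  rw [Fintype.card_pi]
  simp only [Fintype.card_prod, ZMod.card]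
  rw [Finset.prod_const, Finset.card_univ, Fintype.card_fin]

lemma card_fam (D M : ℕ) : Fintype.card (Fin M → Finset (Fin D → F × F)) = 2 ^ (9 ^ D * M) := by
  rw [Fintype.card_pi]
  simp only [Fintype.card_finset, card_Z]
  rw [Finset.prod_const, Finset.card_univ, Fintype.card_fin, ← pow_mul]

section

variable {J : Type} [Fintype J] [LinearOrder J] {k M D : ℕ}

/-- the family of the sets of points -/
noncomputable def Tp (μ : J → Fin M) (y u : Fin D → J → F) (m : Fin M) :
    Finset (Fin D → F × F) := (univ.filter fun l => μ l = m).image (zc y u)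

lemma dm_le (W : Fin k → Fin M → F) (c : Fin D → Fin k) (m : Fin M) : dm W c m ≤ D := by
  unfold dm
  exact (Finset.card_filter_le _ _).trans (by simp)

omit [LinearOrder J] in
lemma sum_dm (W : Fin k → Fin M → F) (μ : J → Fin M) (c : Fin D → Fin k) :
    ∑ l, dm W c (μ l) = nn (wt W μ) c := by
  unfold dm nn sp
  simp only [Finset.card_filter]
  rw [Finset.sum_comm]
  rfl

lemma Tp_card (h : S_ISO) {W : Fin k → Fin M → F} {μ : J → Fin M} {c : Fin D → Fin k}
    {y u : Fin D → J → F} (hy : y ∈ US (wt W μ) c) (hu : u ∈ US (wt W μ) c)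
    (hUL : UL (wt W μ) c y u) (m : Fin M) : (Tp μ y u m).card ≤ 3 ^ dm W c m := by
  have hy' : ∀ a l, wt W μ (c a) l = 0 → y a l = 0 := (Finset.mem_filter.1 hy).2
  have hu' : ∀ a l, wt W μ (c a) l = 0 → u a l = 0 := (Finset.mem_filter.1 hu).2
  refine (h D (univ.filter fun a : Fin D => W (c a) m ≠ 0) (Tp μ y u m) ?_ ?_).1
  · intro z hz a ha
    obtain ⟨l, hl, rfl⟩ := Finset.mem_image.1 hz
    have hl' : μ l = m := (Finset.mem_filter.1 hl).2
    have ha' : W (c a) m = 0 := by
      by_contra hcon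
      exact ha (Finset.mem_filter.2 ⟨mem_univ _, hcon⟩)
    have hw : wt W μ (c a) l = 0 := by
      unfold wt
      rw [hl', ha']
    show (y a l, u a l) = 0
    rw [hy' a l hw, hu' a l hw]
    rfl
  · intro z hz z' hz'
    obtain ⟨l, hl, rfl⟩ := Finset.mem_image.1 hz
    obtain ⟨l', hl', rfl⟩ := Finset.mem_image.1 hz'
    have e1 : μ l = m := (Finset.mem_filter.1 hl).2
    have e2 : μ l' = m := (Finset.mem_filter.1 hl').2
    have h1 := hUL l l'
    rw [← h1]
    apply Finset.sum_congr rfl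
    intro a _
    show (y a l - y a l') * (u a l - u a l') = _
    by_cases hw : W (c a) m = 0
    · have w1 : wt W μ (c a) l = 0 := by unfold wt; rw [e1, hw]
      have w2 : wt W μ (c a) l' = 0 := by unfold wt; rw [e2, hw]
      rw [hy' a l w1, hy' a l' w2, w1]
      ring
    · have w1 : wt W μ (c a) l * wt W μ (c a) l' = 1 := by
        unfold wt
        rw [e1, e2]
        exact sq_one hw
      rw [w1]
      ring

/-- the bound for the product -/
lemma prod_bound {W : Fin k → Fin M → F} {μ : J → Fin M} {c : Fin D → Fin k} {n₀ : ℕ}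
    (hn : ∀ m, n₀ ≤ (univ.filter fun l => μ l = m).card)
    {T : Fin M → Finset (Fin D → F × F)} (hT : ∀ m, (T m).card ≤ 3 ^ dm W c m)
    {m₁ : Fin M} (hm : (T m₁).card < 3 ^ dm W c m₁) :
    ∏ l, ((T (μ l)).card : ℝ) ≤ (1 - (1 / 3 : ℝ) ^ D) ^ n₀ * 3 ^ nn (wt W μ) c := by
  set θ : ℝ := 1 - (1 / 3 : ℝ) ^ D with hθ
  have hp : (0 : ℝ) < (1 / 3 : ℝ) ^ D := by positivity
  have hp1 : (1 / 3 : ℝ) ^ D ≤ 1 := pow_le_one₀ (by norm_num) (by norm_num)
  have hθ0 : 0 ≤ θ := by linarith
  have hθ1 : θ ≤ 1 := by linarith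
  have h1 : ∀ l, ((T (μ l)).card : ℝ) ≤ 3 ^ dm W c (μ l) * (if μ l = m₁ then θ else 1) := by
    intro l
    by_cases hl : μ l = m₁
    · rw [if_pos hl, hl]
      have h2 : ((T m₁).card : ℝ) + 1 ≤ 3 ^ dm W c m₁ := by exact_mod_cast hm
      have h3 : (3 : ℝ) ^ dm W c m₁ * (1 / 3 : ℝ) ^ D ≤ 1 := by
        calc (3 : ℝ) ^ dm W c m₁ * (1 / 3 : ℝ) ^ D ≤ 3 ^ D * (1 / 3 : ℝ) ^ D := by
              gcongr
              · norm_num
              · exact dm_le W c m₁
          _ = 1 := by rw [← mul_pow]; norm_num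
      rw [hθ]
      nlinarith
    · rw [if_neg hl, mul_one]
      exact_mod_cast hT (μ l)
  calc ∏ l, ((T (μ l)).card : ℝ)
      ≤ ∏ l, ((3 : ℝ) ^ dm W c (μ l) * (if μ l = m₁ then θ else 1)) :=
        Finset.prod_le_prod (fun l _ => by positivity) fun l _ => h1 l
    _ = 3 ^ nn (wt W μ) c * θ ^ (univ.filter fun l => μ l = m₁).card := by
        rw [Finset.prod_mul_distrib, Finset.prod_pow_eq_pow_sum, sum_dm, Finset.prod_ite,
          Finset.prod_const, Finset.prod_const_one, mul_one]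
    _ ≤ 3 ^ nn (wt W μ) c * θ ^ n₀ := by
        gcongr ?_ * ?_
        exact pow_le_pow_of_le_one hθ0 hθ1 (hn m₁)
    _ = _ := by ring

end

end NF

open NF

theorem t_NF (h : S_ISO) : S_NF := by
  intro J _ _ k M D n₀ W μ c hn
  set P := ((US (wt W μ) c ×ˢ US (wt W μ) c).filter fun p => UL (wt W μ) c p.1 p.2 ∧
    ¬ Full W μ c p.1 p.2) with hP
  have hB0 : (0 : ℝ) ≤ (1 - (1 / 3 : ℝ) ^ D) ^ n₀ * 3 ^ nn (wt W μ) c := by
    have hp1 : (1 / 3 : ℝ) ^ D ≤ 1 := pow_le_one₀ (by norm_num) (by norm_num)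
    have : 0 ≤ 1 - (1 / 3 : ℝ) ^ D := by linarith
    positivity
  have h1 : P.card = ∑ T : Fin M → Finset (Fin D → F × F),
      (P.filter fun p => Tp μ p.1 p.2 = T).card :=
    Finset.card_eq_sum_card_fiberwise fun p _ => Finset.mem_univ _
  have h2 : ∀ T : Fin M → Finset (Fin D → F × F),
      ((P.filter fun p => Tp μ p.1 p.2 = T).card : ℝ)
        ≤ (1 - (1 / 3 : ℝ) ^ D) ^ n₀ * 3 ^ nn (wt W μ) c := by
    intro T
    rcases (P.filter fun p => Tp μ p.1 p.2 = T).eq_empty_or_nonempty with he | ⟨p, hp⟩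
    · rw [he]
      simpa using hB0
    · obtain ⟨hpP, hpT⟩ := Finset.mem_filter.1 hp
      obtain ⟨hpU, hpL, hpF⟩ := Finset.mem_filter.1 hpP
      obtain ⟨hpy, hpu⟩ := Finset.mem_product.1 hpU
      have hT : ∀ m, (T m).card ≤ 3 ^ dm W c m := by
        intro m
        rw [← hpT]
        exact Tp_card h hpy hpu hpL m
      obtain ⟨m₁, hm₁⟩ : ∃ m, (T m).card < 3 ^ dm W c m := by
        unfold Full at hpF
        push Not at hpF
        obtain ⟨m, hm⟩ := hpF
        refine ⟨m, ?_⟩
        rw [← hpT]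
        exact hm
      refine le_trans ?_ (prod_bound hn hT hm₁)
      have h3 : (P.filter fun p => Tp μ p.1 p.2 = T).card ≤
          (Fintype.piFinset fun l : J => T (μ l)).card := by
        apply Finset.card_le_card_of_injOn (fun p => zc p.1 p.2)
        · intro q hq
          have hq' := (Finset.mem_filter.1 (Finset.mem_coe.1 hq)).2
          rw [Finset.mem_coe, Fintype.mem_piFinset]
          intro l
          rw [← hq']
          exact Finset.mem_image_of_mem _ (Finset.mem_filter.2 ⟨mem_univ _, rfl⟩)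
        · intro q _ q' _ hqq
          have hqq' : ∀ l a, (q.1 a l, q.2 a l) = (q'.1 a l, q'.2 a l) := fun l a =>
            congrFun (congrFun hqq l) a
          apply Prod.ext
          · funext a l
            exact (Prod.ext_iff.1 (hqq' l a)).1
          · funext a l
            exact (Prod.ext_iff.1 (hqq' l a)).2
      rw [Fintype.card_piFinset] at h3
      calc ((P.filter fun p => Tp μ p.1 p.2 = T).card : ℝ)
          ≤ ((∏ l : J, (T (μ l)).card : ℕ) : ℝ) := by exact_mod_cast h3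
        _ = _ := by push_cast; rfl
  calc (P.card : ℝ) = ∑ T : Fin M → Finset (Fin D → F × F),
        ((P.filter fun p => Tp μ p.1 p.2 = T).card : ℝ) := by
          rw [h1]
          push_cast
          rfl
    _ ≤ ∑ _T : Fin M → Finset (Fin D → F × F),
        (1 - (1 / 3 : ℝ) ^ D) ^ n₀ * 3 ^ nn (wt W μ) c := Finset.sum_le_sum fun T _ => h2 T
    _ = 2 ^ (9 ^ D * M) * (1 - (1 / 3 : ℝ) ^ D) ^ n₀ * 3 ^ nn (wt W μ) c := by
        rw [Finset.sum_const, Finset.card_univ, card_fam, nsmul_eq_mul]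
        push_cast
        ring

end Pool.Agent.H451.JLM
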