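import Mathlib
import Pool.Agent.H451.JLM.Stm2
import Pool.Agent.H451.JL.FEW
import Pool.Graph.R_seed8.Y433.XK.Few

/-! Project JLM: FEC and RM (helper101). -/

set_option autoImplicit false

open scoped Classical

namespace Pool.Agent.H451.JLM

open Finset Filter
open Pool.Agent.Y692.QS (Ei)
open Pool.Agent.Y715.T.Rec (cs)
open Pool.Agent.Y715.T.RecG (Pq)
open Pool.Agent.Y699.E
open Pool.Agent.Y703.CX (eL zz kk)
open Pool.Agent.Y703.XK (SS sm la Nd)
open Pool.Agent.Y433.XK (pN pN_pos eulerE M_le small_sum fiber_le)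
open Pool.Agent.H451.JL.FewJ (const_sum gen4)
open Pool.Agent.H451.JL (F)

namespace RMp

/-- the sum of the constant weight `1 / 24` -/
theorem c24_sum : ∃ C : ℝ, 0 ≤ C ∧ ∀ T : ℕ,
    ∑ n ∈ SB T, mf (fun _ => (1 / 24 : ℝ)) n ≤ C * (T * (lg T) ^ (-(1 / 4) : ℝ)) := by
  obtain ⟨C₂, hC₂, hM⟩ := M_le
  have g0 : ∀ π : Ei, (0 : ℝ) ≤ (fun _ : Ei => (1 / 24 : ℝ)) π := fun _ => by norm_num
  have g1 : ∀ π : Ei, (fun _ : Ei => (1 / 24 : ℝ)) π ≤ 1 := fun _ => by norm_num
  refine ⟨32 + 21 * Real.exp (C₂ / 24), by positivity, fun T => ?_⟩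
  have hlT := lg_pos T
  have hl1 := one_le_lg T
  have hpos : 0 ≤ (T : ℝ) * (lg T) ^ (-(1 / 4) : ℝ) := by positivity
  rcases Nat.lt_or_ge T 3 with hT | hT
  · rcases Nat.eq_zero_or_pos T with h0 | h0
    · rw [SB_empty h0, sum_empty]
      positivity
    · have h2 : ∑ n ∈ SB T, mf (fun _ => (1 / 24 : ℝ)) n ≤ 16 * T := by
        refine (sum_le_sum fun n _ => mf_le_one g0 g1 n).trans ?_
        rw [sum_const, nsmul_eq_mul, mul_one]
        exact card_SB_le h0
      have h3 : lg T ≤ 2 := by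
        refine (lg_mono (show T ≤ 2 by omega)).trans (le_of_eq ?_)
        unfold lg
        norm_num
      have h4 : (1 / 2 : ℝ) ≤ (lg T) ^ (-(1 / 4) : ℝ) := by
        calc (1 / 2 : ℝ) = 2 ^ (-1 : ℝ) := by rw [Real.rpow_neg_one]; norm_num
          _ ≤ 2 ^ (-(1 / 4) : ℝ) := Real.rpow_le_rpow_of_exponent_le (by norm_num) (by norm_num)
          _ ≤ (lg T) ^ (-(1 / 4) : ℝ) := Real.rpow_le_rpow_of_nonpos hlT h3 (by norm_num)
      have hTr : (0 : ℝ) ≤ T := Nat.cast_nonneg _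
      calc ∑ n ∈ SB T, mf (fun _ => (1 / 24 : ℝ)) n ≤ 16 * T := h2
        _ = 32 * (T * (1 / 2)) := by ring
        _ ≤ 32 * (T * (lg T) ^ (-(1 / 4) : ℝ)) := by gcongr
        _ ≤ (32 + 21 * Real.exp (C₂ / 24)) * (T * (lg T) ^ (-(1 / 4) : ℝ)) := by
            apply mul_le_mul_of_nonneg_right _ hpos
            have : 0 ≤ 21 * Real.exp (C₂ / 24) := by positivity
            linarith
  · have hT1 : 1 ≤ T := by omega
    have hTr : (0 : ℝ) < T := by exact_mod_cast (by omega : 0 < T)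
    have hlog : 1 ≤ Real.log T := by
      rw [Real.le_log_iff_exp_le hTr]
      have := Real.exp_one_lt_d9
      have h3 : (3 : ℝ) ≤ T := by exact_mod_cast hT
      linarith
    set S := ∑ n ∈ SB T, mf (fun _ => (1 / 24 : ℝ)) n with hS
    have hS0 : 0 ≤ S := sum_nonneg fun n _ => mf_nonneg g0 n
    have h2 := hall1 g0 g1 hT1
    rw [← hS] at h2
    have h4 := const_sum (1 / 24) (by norm_num) T
    have h5 : Real.exp (1 / 24 * ∑ π ∈ QB T, (1 : ℝ) / nrm π) ≤
        Real.exp (C₂ / 24) * (lg T) ^ (1 / 12 : ℝ) := by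
      have h6 := hM T hT
      have h7 : (lg T) ^ (1 / 12 : ℝ) ≥ (Real.log T) ^ (1 / 12 : ℝ) :=
        Real.rpow_le_rpow (by linarith) (log_le_lg hT1) (by norm_num)
      have h8 : (Real.log T) ^ (1 / 12 : ℝ) = Real.exp (1 / 12 * Real.log (Real.log T)) := by
        rw [Real.rpow_def_of_pos (by linarith), mul_comm]
      calc Real.exp (1 / 24 * ∑ π ∈ QB T, (1 : ℝ) / nrm π)
          ≤ Real.exp (C₂ / 24 + 1 / 12 * Real.log (Real.log T)) := by
            apply Real.exp_le_exp.2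
            linarith
        _ = Real.exp (C₂ / 24) * (Real.log T) ^ (1 / 12 : ℝ) := by rw [Real.exp_add, h8]
        _ ≤ Real.exp (C₂ / 24) * (lg T) ^ (1 / 12 : ℝ) := by gcongr
    have h6 : ∑ n ∈ SB T, mf (fun _ => (1 / 24 : ℝ)) n / nrm n ≤
        Real.exp (C₂ / 24) * (lg T) ^ (3 / 4 : ℝ) := by
      refine (h4.trans h5).trans ?_
      refine mul_le_mul_of_nonneg_left ?_ (Real.exp_pos _).le
      exact Real.rpow_le_rpow_of_exponent_le hl1 (by norm_num)
    have h7 : (lg T) ^ (3 / 4 : ℝ) = (lg T) ^ (-(1 / 4) : ℝ) * lg T := by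
      have := Real.rpow_add hlT (-(1 / 4)) 1
      rw [Real.rpow_one] at this
      rw [← this]
      norm_num
    have h8 := lg_le_log (show 2 ≤ T by omega)
    have h9 : S * lg T ≤ (21 * Real.exp (C₂ / 24)) * (T * (lg T) ^ (-(1 / 4) : ℝ)) * lg T := by
      calc S * lg T ≤ S * (3 * Real.log T) := mul_le_mul_of_nonneg_left h8 hS0
        _ = 3 * (S * Real.log T) := by ring
        _ ≤ 3 * (7 * T * (Real.exp (C₂ / 24) * (lg T) ^ (3 / 4 : ℝ))) := by
            have h10 : 7 * (T : ℝ) * ∑ n ∈ SB T, mf (fun _ => (1 / 24 : ℝ)) n / nrm n ≤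
                7 * T * (Real.exp (C₂ / 24) * (lg T) ^ (3 / 4 : ℝ)) :=
              mul_le_mul_of_nonneg_left h6 (by positivity)
            linarith
        _ = 21 * Real.exp (C₂ / 24) * T * ((lg T) ^ (3 / 4 : ℝ)) := by ring
        _ = _ := by rw [h7]; ring
    have h10 := le_of_mul_le_mul_right h9 hlT
    refine h10.trans ?_
    apply mul_le_mul_of_nonneg_right _ hpos
    linarith

theorem fec_count (C : ℕ) (K : ℝ) (hK : ∀ T : ℕ,
    ∑ n ∈ SB T, mf (fun _ => (1 / 24 : ℝ)) n ≤ K * (T * (lg T) ^ (-(1 / 4) : ℝ)))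
    (X : ℕ) (S₀ : Finset Ei) (hS₀ : ∀ u ∈ S₀, Pq u ∧ nrm u ≤ zz X)
    (F : Finset (Finset Ei))
    (hF : ∀ S ∈ F, S ∈ SS X ∧ (S.card ≤ kk X ∧
      (la (zz X) S).card ≤ C * ((sm (zz X) S).card + 1)) ∧ sm (zz X) S = S₀) :
    (F.card : ℝ) ≤ (K * 24 ^ C) * (24 ^ C) ^ S₀.card * (((X / pN S₀ : ℕ) : ℝ) *
          (lg (X / pN S₀)) ^ (-(1 / 4) : ℝ)) := by
  have h := fiber_le X (zz X) S₀ (fun u hu => (hS₀ u hu).1)
    F (fun S hS => ⟨(hF S hS).1, (hF S hS).2.2⟩) (fun _ => 1 / 24) (fun _ => by norm_num)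
    ((1 / 24) ^ (C * (S₀.card + 1))) (fun S hS => by
        replace hS := hF S hS
        rw [prod_const]
        refine pow_le_pow_of_le_one (by norm_num) (by norm_num) ?_
        have := hS.2.1.2
        rw [hS.2.2] at this
        exact this)
  have h2 := h.trans (hK (X / pN S₀))
  have h3 : (24 : ℝ) ^ (C * (S₀.card + 1)) * (1 / 24) ^ (C * (S₀.card + 1)) = 1 := by
    rw [← mul_pow]
    norm_num
  set c := (F.card : ℝ) with hcdef
  calc c = (24 : ℝ) ^ (C * (S₀.card + 1)) * (c * (1 / 24) ^ (C * (S₀.card + 1))) := by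
        linear_combination (-c) * h3
    _ ≤ (24 : ℝ) ^ (C * (S₀.card + 1)) * (K * (((X / pN S₀ : ℕ) : ℝ) *
          (lg (X / pN S₀)) ^ (-(1 / 4) : ℝ))) := mul_le_mul_of_nonneg_left h2 (by positivity)
    _ = _ := by
        rw [pow_mul, pow_succ]
        ring

/-- few elements of `A` have the mark `m` -/
theorem cnt {M : ℕ} (hM : 0 < M) (T A : Finset Ei) (hA : A ⊆ T) (m m₁ : Fin M) (K : ℕ) :
    ((univ.filter fun f : T → Fin M =>
      (A.filter fun π => (if h : π ∈ T then f ⟨π, h⟩ else m₁) = m).card ≤ K).card : ℝ) ≤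
      2 ^ K * ((1 - 1 / (2 * M : ℝ)) ^ A.card * M ^ T.card) := by
  have hM0 : (0 : ℝ) < M := by exact_mod_cast hM
  -- the sum of the weights
  have e1 : ∀ f : T → Fin M, (1 / 2 : ℝ) ^
      (A.filter fun π => (if h : π ∈ T then f ⟨π, h⟩ else m₁) = m).card =
      ∏ π : T, (if (π : Ei) ∈ A ∧ f π = m then (1 / 2 : ℝ) else 1) := by
    intro f
    rw [← prod_const, prod_filter]
    have e2 : ∏ a ∈ A, (if (if h : a ∈ T then f ⟨a, h⟩ else m₁) = m then (1 / 2 : ℝ) else 1) =
        ∏ a ∈ T, if a ∈ A then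
          (if (if h : a ∈ T then f ⟨a, h⟩ else m₁) = m then (1 / 2 : ℝ) else 1) else 1 := by
      rw [Finset.prod_ite_mem, Finset.inter_eq_right.2 hA]
    rw [e2, ← prod_coe_sort T]
    refine prod_congr rfl fun π _ => ?_
    have e3 : (if h : (π : Ei) ∈ T then f ⟨π, h⟩ else m₁) = f π := by
      rw [dif_pos π.2]
    rw [e3]
    by_cases h1 : (π : Ei) ∈ A <;> by_cases h2 : f π = m <;> simp [h1, h2]
  have e2 : ∑ f : T → Fin M, ∏ π : T, (if (π : Ei) ∈ A ∧ f π = m then (1 / 2 : ℝ) else 1) =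
      ∏ π : T, ∑ x : Fin M, (if (π : Ei) ∈ A ∧ x = m then (1 / 2 : ℝ) else 1) := by
    rw [Finset.prod_univ_sum]
    rw [Fintype.piFinset_univ]
  have e3 : ∀ π : T, ∑ x : Fin M, (if (π : Ei) ∈ A ∧ x = m then (1 / 2 : ℝ) else 1) =
      if (π : Ei) ∈ A then (1 - 1 / (2 * M : ℝ)) * M else M := by
    intro π
    by_cases h1 : (π : Ei) ∈ A
    · rw [if_pos h1]
      have : ∀ x : Fin M, (if (π : Ei) ∈ A ∧ x = m then (1 / 2 : ℝ) else 1) =
          1 - if x = m then (1 / 2 : ℝ) else 0 := by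
        intro x
        by_cases h2 : x = m
        · simp [h1, h2]; norm_num
        · simp [h1, h2]
      rw [sum_congr rfl fun x _ => this x, sum_sub_distrib, sum_ite_eq' univ m, if_pos (mem_univ _)]
      rw [sum_const, card_univ, Fintype.card_fin, nsmul_eq_mul]
      field_simp
    · rw [if_neg h1]
      have : ∀ x : Fin M, (if (π : Ei) ∈ A ∧ x = m then (1 / 2 : ℝ) else 1) = 1 := by
        intro x
        simp [h1]
      rw [sum_congr rfl fun x _ => this x, sum_const, card_univ, Fintype.card_fin, nsmul_eq_mul,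
        mul_one]
  have e4 : ∏ π : T, (if (π : Ei) ∈ A then (1 - 1 / (2 * M : ℝ)) * M else (M : ℝ)) =
      (1 - 1 / (2 * M : ℝ)) ^ A.card * M ^ T.card := by
    have h1 : ∀ π : T, (if (π : Ei) ∈ A then (1 - 1 / (2 * M : ℝ)) * M else (M : ℝ)) =
        (if (π : Ei) ∈ A then (1 - 1 / (2 * M : ℝ)) else 1) * M := by
      intro π
      split_ifs <;> ring
    rw [prod_congr rfl fun π _ => h1 π, prod_mul_distrib, prod_const, card_univ, Fintype.card_coe]
    congr 1
    rw [prod_coe_sort T (fun a => if a ∈ A then (1 - 1 / (2 * M : ℝ)) else 1),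
      Finset.prod_ite_mem, Finset.inter_eq_right.2 hA, prod_const]
  rw [← e4, ← prod_congr rfl fun π _ => e3 π, ← e2, ← sum_congr rfl fun f _ => e1 f, mul_sum,
    ← nsmul_one, ← sum_const, sum_filter]
  refine sum_le_sum fun f _ => ?_
  split_ifs with h
  · calc (1 : ℝ) = 2 ^ K * (1 / 2) ^ K := by rw [← mul_pow]; norm_num
      _ ≤ _ := mul_le_mul_of_nonneg_left
        (pow_le_pow_of_le_one (by norm_num) (by norm_num) h) (by positivity)
  · positivity

theorem q_bounds {M : ℕ} (hM : 0 < M) : 0 ≤ 1 - 1 / (2 * M : ℝ) ∧ 1 - 1 / (2 * M : ℝ) < 1 := by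
  have hM1 : (1 : ℝ) ≤ M := by exact_mod_cast hM
  constructor
  · rw [sub_nonneg, div_le_one (by positivity)]
    linarith
  · have : 0 < 1 / (2 * M : ℝ) := by positivity
    linarith

end RMp

open RMp in
theorem t_RM : S_RM := by
  intro M V ε hM hε
  obtain ⟨hq0, hq1⟩ := q_bounds hM
  set q : ℝ := 1 - 1 / (2 * M : ℝ) with hq
  have hM0 : (0 : ℝ) < M := by exact_mod_cast hM
  -- the constant
  have hlim : Filter.Tendsto (fun n : ℕ => q ^ n) atTop (nhds 0) :=
    tendsto_pow_atTop_nhds_zero_of_lt_one hq0 hq1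
  have hη : 0 < min 1 ε / (2 * M * (3 * 2 ^ V)) := by
    have : 0 < min 1 ε := lt_min one_pos hε
    positivity
  obtain ⟨C, hC⟩ := ((hlim.eventually (gt_mem_nhds hη)).and (eventually_ge_atTop 1)).exists
  obtain ⟨hC, hC1⟩ := hC
  refine ⟨C, fun S₀ S₁ h1 h2 T m₁ hT => ?_⟩
  set a : ℕ := S₀.card + 1 with ha
  have ha1 : 1 ≤ a := by omega
  have hqC : q ^ C * (2 * M * (3 * 2 ^ V)) < min 1 ε := by
    rwa [lt_div_iff₀ (by positivity)] at hC
  have h2V : (1 : ℝ) ≤ 2 ^ V := one_le_pow₀ (by norm_num)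
  have hqC0 : 0 ≤ q ^ C := by positivity
  have hM1 : (1 : ℝ) ≤ M := by exact_mod_cast hM
  -- the two bases
  have b1 : 2 ^ V * q ^ C ≤ min 1 ε / (2 * M) := by
    rw [le_div_iff₀ (by positivity)]
    nlinarith [mul_nonneg (mul_nonneg hqC0 (by linarith : (0:ℝ) ≤ 2 ^ V)) hM0.le]
  have b2 : 3 * q ^ C ≤ min 1 ε / (2 * M) := by
    rw [le_div_iff₀ (by positivity)]
    have := mul_le_mul_of_nonneg_left h2V (mul_nonneg hqC0 hM0.le)
    nlinarith
  have hmin1 : min 1 ε / (2 * M) ≤ 1 := by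
    rw [div_le_one (by positivity)]
    have := min_le_left 1 ε
    linarith
  have hpow : ∀ x : ℝ, 0 ≤ x → x ≤ min 1 ε / (2 * M) → x ^ a ≤ min 1 ε / (2 * M) := by
    intro x hx0 hx
    calc x ^ a ≤ x ^ 1 := pow_le_pow_of_le_one hx0 (hx.trans hmin1) ha1
      _ = x := pow_one x
      _ ≤ _ := hx
  -- the exceptional sets
  set E : (T → Fin M) → Ei → Fin M := fun f π => if h : π ∈ T then f ⟨π, h⟩ else m₁ with hE
  set B₁ : Fin M → Finset (T → Fin M) := fun m => univ.filter fun f =>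
    (S₁.filter fun π => E f π = m).card ≤ V * a with hB₁
  set A : (S₀ → F) → Finset Ei := fun v =>
    S₁.filter fun π => ∑ u : S₀, v u * cs u π ≠ 0 with hA
  set B₂ : Fin M → (S₀ → F) → Finset (T → Fin M) := fun m v => univ.filter fun f =>
    ((A v).filter fun π => E f π = m).card ≤ 0 with hB₂
  have hsub : (univ.filter fun f : T → Fin M => ¬ NdM V (E f) S₀ S₁) ⊆
      (univ.biUnion fun m => B₁ m) ∪
        (univ.biUnion fun m => (univ.filter fun v : S₀ → F => v ≠ 0).biUnion fun v => B₂ m v) := by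
    intro f hf
    rw [mem_filter] at hf
    have hf := hf.2
    unfold NdM at hf
    push Not at hf
    obtain ⟨m, hm⟩ := hf
    rw [mem_union]
    by_cases hc : V * (S₀.card + 1) ≤ (S₁.filter fun π => E f π = m).card
    · right
      have hN := hm hc
      unfold Nd at hN
      push Not at hN
      obtain ⟨v, ⟨u, hu, hv⟩, hN⟩ := hN
      rw [mem_biUnion]
      refine ⟨m, mem_univ _, ?_⟩
      rw [mem_biUnion]
      refine ⟨fun u => v u, ?_, ?_⟩
      · rw [mem_filter]
        refine ⟨mem_univ _, fun h => hv ?_⟩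
        exact congrFun h ⟨u, hu⟩
      · rw [hB₂]
        simp only [mem_filter, mem_univ, true_and]
        rw [Nat.le_zero, card_eq_zero, filter_eq_empty_iff]
        intro π hπ hπm
        rw [hA, mem_filter] at hπ
        apply hπ.2
        have := hN π (mem_filter.2 ⟨hπ.1, hπm⟩)
        rw [← this, ← sum_coe_sort S₀]
    · left
      rw [mem_biUnion]
      refine ⟨m, mem_univ _, ?_⟩
      rw [hB₁]
      simp only [mem_filter, mem_univ, true_and]
      rw [not_le, ← ha] at hc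
      exact hc.le
  have c1 : ∀ m, ((B₁ m).card : ℝ) ≤ (min 1 ε / (2 * M)) * M ^ T.card := by
    intro m
    have h := cnt hM T S₁ hT m m₁ (V * a)
    refine h.trans ?_
    have h5 : q ^ S₁.card ≤ q ^ (C * a) := pow_le_pow_of_le_one hq0 hq1.le h1.le
    calc (2 : ℝ) ^ (V * a) * (q ^ S₁.card * M ^ T.card)
        ≤ 2 ^ (V * a) * (q ^ (C * a) * M ^ T.card) := by gcongr
      _ = (2 ^ V * q ^ C) ^ a * M ^ T.card := by rw [pow_mul, pow_mul, mul_pow]; ring
      _ ≤ _ := mul_le_mul_of_nonneg_right (hpow _ (by positivity) b1) (by positivity)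
  have c2 : ∀ m, ∀ v ∈ (univ.filter fun v : S₀ → F => v ≠ 0), ((B₂ m v).card : ℝ) ≤
      q ^ (C * a) * M ^ T.card := by
    intro m v hv
    rw [mem_filter] at hv
    have hAT : A v ⊆ T := (filter_subset _ _).trans hT
    have h := cnt hM T (A v) hAT m m₁ 0
    refine h.trans ?_
    rw [pow_zero, one_mul]
    have hcard : C * a < (A v).card := by
      have h6 := h2 (fun u => if h : u ∈ S₀ then v ⟨u, h⟩ else 0) (by
        by_contra h7
        push Not at h7
        apply hv.2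
        funext u
        have := h7 u u.2
        rw [dif_pos u.2] at this
        exact this)
      refine h6.trans_le (le_of_eq ?_)
      rw [hA]
      congr 1
      refine filter_congr fun π _ => ?_
      rw [← sum_coe_sort S₀]
      have : ∀ u : S₀, (if h : (u : Ei) ∈ S₀ then v ⟨u, h⟩ else 0) = v u := fun u => by
        rw [dif_pos u.2]
      simp only [this]
    exact mul_le_mul_of_nonneg_right (pow_le_pow_of_le_one hq0 hq1.le hcard.le) (by positivity)
  have c3 : ∀ m, (∑ v ∈ (univ.filter fun v : S₀ → F => v ≠ 0), ((B₂ m v).card : ℝ)) ≤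
      (min 1 ε / (2 * M)) * M ^ T.card := by
    intro m
    refine (sum_le_sum (c2 m)).trans ?_
    rw [sum_const, nsmul_eq_mul]
    have h8 : ((univ.filter fun v : S₀ → F => v ≠ 0).card : ℝ) ≤ 3 ^ a := by
      have h9 : (univ.filter fun v : S₀ → F => v ≠ 0).card ≤ 3 ^ S₀.card := by
        refine (card_le_univ _).trans (le_of_eq ?_)
        rw [Fintype.card_fun, Fintype.card_coe]
        congr 1
      have h10 : (3 : ℝ) ^ S₀.card ≤ 3 ^ a := pow_le_pow_right₀ (by norm_num) (by omega)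
      exact le_trans (by exact_mod_cast h9) h10
    calc ((univ.filter fun v : S₀ → F => v ≠ 0).card : ℝ) * (q ^ (C * a) * M ^ T.card)
        ≤ 3 ^ a * (q ^ (C * a) * M ^ T.card) := by gcongr
      _ = (3 * q ^ C) ^ a * M ^ T.card := by rw [pow_mul, mul_pow]; ring
      _ ≤ _ := mul_le_mul_of_nonneg_right (hpow _ (by positivity) b2) (by positivity)
  calc ((univ.filter fun f : T → Fin M => ¬ NdM V (E f) S₀ S₁).card : ℝ)
      ≤ (((univ.biUnion fun m => B₁ m) ∪
        (univ.biUnion fun m => (univ.filter fun v : S₀ → F => v ≠ 0).biUnion fun v =>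
          B₂ m v)).card : ℝ) := by exact_mod_cast card_le_card hsub
    _ ≤ ((univ.biUnion fun m => B₁ m).card : ℝ) + ((univ.biUnion fun m =>
        (univ.filter fun v : S₀ → F => v ≠ 0).biUnion fun v => B₂ m v).card : ℝ) := by
        exact_mod_cast card_union_le _ _
    _ ≤ ∑ m : Fin M, ((B₁ m).card : ℝ) + ∑ m : Fin M,
        ∑ v ∈ (univ.filter fun v : S₀ → F => v ≠ 0), ((B₂ m v).card : ℝ) := by
        apply add_le_add
        · exact_mod_cast card_biUnion_le
        · have h11 : (univ.biUnion fun m =>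
              (univ.filter fun v : S₀ → F => v ≠ 0).biUnion fun v => B₂ m v).card ≤
              ∑ m : Fin M, ∑ v ∈ (univ.filter fun v : S₀ → F => v ≠ 0), (B₂ m v).card :=
            card_biUnion_le.trans (sum_le_sum fun m _ => card_biUnion_le)
          exact_mod_cast h11
    _ ≤ ∑ _m : Fin M, (min 1 ε / (2 * M)) * M ^ T.card +
        ∑ _m : Fin M, (min 1 ε / (2 * M)) * M ^ T.card :=
        add_le_add (sum_le_sum fun m _ => c1 m) (sum_le_sum fun m _ => c3 m)
    _ = min 1 ε * M ^ T.card := by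
        rw [sum_const, card_univ, Fintype.card_fin, nsmul_eq_mul]
        field_simp
        ring
    _ ≤ ε * M ^ T.card := mul_le_mul_of_nonneg_right (min_le_right _ _) (by positivity)

open RMp in
theorem t_FEC : S_FEC := by
  intro C ε hε
  obtain ⟨K, hK0, hK⟩ := c24_sum
  obtain ⟨X₀, hX₀⟩ := gen4 (24 ^ C) (K * 24 ^ C) (by positivity) (by positivity)
    (fun X S => (la (zz X) S).card ≤ C * ((sm (zz X) S).card + 1))
    (fun X S₀ hS₀ _ F hF => fec_count C K hK X S₀ hS₀ F hF) ε hε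
  refine ⟨X₀, fun X hX => hX₀ X hX _ fun S hS => ?_⟩
  rw [mem_filter] at hS
  exact hS

end Pool.Agent.H451.JLM
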