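import Pool.Agent.H451.JLM.Stm

/-!
# JLM-STR: the structure of the full unlinked configurations (helper297, for helper451)
-/

set_option autoImplicit false
set_option linter.unusedVariables false
set_option linter.unusedSectionVars false

open scoped Classical

namespace Pool.Agent.H451.JLM

open Finset
open Pool.Agent.H451.JL (F)

namespace STR

theorem sq1 : ∀ x : F, x ≠ 0 → x * x = 1 := by decide

theorem two0 : ∀ x : F, x = -x → x = 0 := by decide

theorem two0' : ∀ x : F, x + x = 0 → x = 0 := by decide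

/-! ### linear algebra of the relations -/

section core

variable {k M D : ℕ} (W : Fin k → Fin M → F) (c : Fin D → Fin k)
  (A : Fin M → Fin D → Fin D → F) (e : Fin M → Fin D → F)

/-- the relations between the affine maps -/
def Rel : Prop := ∀ (m m' : Fin M) (y₀ y₁ : Fin D → F), (∀ a, W (c a) m = 0 → y₀ a = 0) →
  (∀ a, W (c a) m' = 0 → y₁ a = 0) →
  ∑ a, W (c a) m * W (c a) m' * ((∑ b, A m a b * y₀ b + e m a) -
    (∑ b, A m' a b * y₁ b + e m' a)) * (y₀ a - y₁ a) = 0

variable {W c A e}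

/-- the function `s` at `b` -/
def sgl (b : Fin D) (s : F) (a : Fin D) : F := if a = b then s else 0

theorem sgl_self (b : Fin D) (s : F) : sgl b s b = s := if_pos rfl

theorem sgl_ne {b a : Fin D} (h : a ≠ b) (s : F) : sgl b s a = 0 := if_neg h

theorem sum_sgl (f : Fin D → F) (b : Fin D) (s : F) : ∑ a, f a * sgl b s a = f b * s := by
  rw [Finset.sum_eq_single b]
  · rw [sgl_self]
  · intro a _ h
    rw [sgl_ne h, mul_zero]
  · intro h
    exact absurd (mem_univ b) h

theorem sgl_supp {b : Fin D} {m : Fin M} (hb : W (c b) m ≠ 0) (s : F) :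
    ∀ a, W (c a) m = 0 → sgl b s a = 0 := by
  intro a ha
  refine sgl_ne (fun h => hb ?_) s
  rw [← h]
  exact ha

/-- (b) -/
theorem rel_b (h : Rel W c A e) {m m' : Fin M} {b : Fin D} (hb : W (c b) m ≠ 0)
    (hb' : W (c b) m' ≠ 0) : A m b b = 0 ∧ e m b = e m' b := by
  have key : ∀ s : F, s ≠ 0 → A m b b * s + e m b - e m' b = 0 := by
    intro s hs
    have h1 := h m m' (sgl b s) (fun _ => 0) (sgl_supp hb s) (fun _ _ => rfl)
    simp only [sum_sgl, mul_zero, Finset.sum_const_zero, zero_add, sub_zero] at h1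
    have h2 : W (c b) m * W (c b) m' * s ≠ 0 := mul_ne_zero (mul_ne_zero hb hb') hs
    have h3 : (W (c b) m * W (c b) m' * s) * (A m b b * s + e m b - e m' b) = 0 := by
      rw [← h1]; ring
    exact (mul_eq_zero.1 h3).resolve_left h2
  have h1 := key 1 one_ne_zero
  have h2 := key (-1) (by decide)
  have h3 : A m b b + A m b b = 0 := by linear_combination h1 - h2
  have h4 := two0' _ h3
  refine ⟨h4, ?_⟩
  rw [h4] at h1
  linear_combination h1

/-- (d) -/
theorem rel_d (h : Rel W c A e) {m : Fin M} (m' : Fin M) {a b : Fin D} (ha : W (c a) m ≠ 0)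
    (hb : W (c b) m ≠ 0) :
    W (c a) m * W (c a) m' * A m a b + W (c b) m * W (c b) m' * A m b a = 0 := by
  -- the values of `e`
  have hE : ∀ x, W (c x) m ≠ 0 →
      W (c x) m * W (c x) m' * (e m x - e m' x) = 0 := by
    intro x hx
    by_cases hx' : W (c x) m' = 0
    · rw [hx']; ring
    · rw [(rel_b h hx hx').2, sub_self, mul_zero]
  have hAa : A m a a = 0 := (rel_b h ha ha).1
  have hAb : A m b b = 0 := (rel_b h hb hb).1
  by_cases hab : a = b
  · subst hab
    rw [hAa]; ring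
  have h1 := h m m' (fun x => sgl a 1 x + sgl b 1 x) (fun _ => 0) (fun x hx => by
    rw [sgl_supp ha 1 x hx, sgl_supp hb 1 x hx, add_zero]) (fun _ _ => rfl)
  simp only [mul_zero, Finset.sum_const_zero, zero_add, sub_zero, mul_add,
    Finset.sum_add_distrib, sum_sgl, mul_one] at h1
  rw [hAa, hAb] at h1
  linear_combination h1 - hE a ha - hE b hb

/-- (c) -/
theorem rel_c (h : Rel W c A e) {m m' : Fin M} {a b : Fin D} (ha : W (c a) m ≠ 0)
    (hb : W (c b) m' ≠ 0) :
    W (c a) m * W (c a) m' * A m' a b + W (c b) m * W (c b) m' * A m b a = 0 := by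
  by_cases hab : a = b
  · subst hab
    rw [(rel_b h ha hb).1, (rel_b h hb ha).1]; ring
  have ta : W (c a) m * W (c a) m' * (A m a a + e m a - e m' a) = 0 := by
    by_cases hx' : W (c a) m' = 0
    · rw [hx']; ring
    · rw [(rel_b h ha hx').2, (rel_b h ha hx').1]; ring
  have tb : W (c b) m * W (c b) m' * (e m b - e m' b - A m' b b) = 0 := by
    by_cases hx' : W (c b) m = 0
    · rw [hx']; ring
    · rw [(rel_b h hb hx').2, (rel_b h hb hx').1]; ring
  have h1 := h m m' (sgl a 1) (sgl b 1) (sgl_supp ha 1) (sgl_supp hb 1)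
  simp only [sum_sgl, mul_one, mul_sub, Finset.sum_sub_distrib] at h1
  linear_combination -h1 + ta - tb

/-- the alternating property -/
theorem core_alt (h : Rel W c A e) {m : Fin M} {a b : Fin D} (ha : W (c a) m ≠ 0)
    (hb : W (c b) m ≠ 0) : A m a b = - A m b a := by
  have h1 := rel_c h ha hb
  rw [sq1 _ ha, sq1 _ hb] at h1
  linear_combination h1

theorem core_E (h : Rel W c A e) {m : Fin M} (m' : Fin M) {a b : Fin D} (ha : W (c a) m ≠ 0)
    (hb : W (c b) m ≠ 0) :
    (W (c a) m * W (c a) m' - W (c b) m * W (c b) m') * A m a b = 0 := by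
  have h1 := rel_d h m' ha hb
  have h2 := core_alt h ha hb
  rw [← neg_eq_iff_eq_neg] at h2
  rw [← h2] at h1
  linear_combination h1

theorem core_col (hNP : NP W) (h : Rel W c A e) {m : Fin M} {a b : Fin D} (ha : W (c a) m ≠ 0)
    (hb : W (c b) m ≠ 0) (hab : c a ≠ c b) : A m a b = 0 := by
  obtain ⟨m', hm'⟩ := hNP.2 (c a) (c b) hab (W (c a) m * W (c b) m)
  have h1 := core_E h m' ha hb
  refine (mul_eq_zero.1 h1).resolve_left fun h2 => hm' ?_
  have h3 := sq1 _ ha
  linear_combination (W (c a) m) * h2 - W (c a) m' * h3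

theorem core_eq (h : Rel W c A e) {m m' : Fin M} {a b : Fin D} (ha : W (c a) m ≠ 0)
    (hb : W (c b) m ≠ 0) (ha' : W (c a) m' ≠ 0) (hb' : W (c b) m' ≠ 0) (hab : c a = c b) :
    A m a b = A m' a b := by
  have h1 := rel_c h ha hb'
  have h2 := core_alt h ha hb
  have h3 := sq1 _ ha
  have h4 := sq1 _ ha'
  rw [← hab] at h1
  have h5 : (W (c a) m * W (c a) m') * (A m' a b + A m b a) = 0 := by linear_combination h1
  have h6 := (mul_eq_zero.1 h5).resolve_left (mul_ne_zero ha ha')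
  linear_combination h2 - h6

end core

/-! ### the configuration -/

section conf

variable {J : Type} [Fintype J] [LinearOrder J] {k M D : ℕ} (W : Fin k → Fin M → F)
  (μ : J → Fin M) (c : Fin D → Fin k) (y u : Fin D → J → F)

/-- the set of the indices alive at `m` -/
noncomputable def Dm (m : Fin M) : Finset (Fin D) := univ.filter fun a : Fin D => W (c a) m ≠ 0

/-- the set of the points of the class `m` -/
noncomputable def Tm (m : Fin M) : Finset (Fin D → F × F) :=
  (univ.filter fun l => μ l = m).image (zc y u)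

variable {W μ c y u}

theorem mem_Tm {m : Fin M} {z : Fin D → F × F} :
    z ∈ Tm μ y u m ↔ ∃ l, μ l = m ∧ zc y u l = z := by
  unfold Tm
  simp only [mem_image, mem_filter, mem_univ, true_and]

theorem y0 (hy : y ∈ US (wt W μ) c) {a : Fin D} {l : J} (h : W (c a) (μ l) = 0) : y a l = 0 := by
  unfold US at hy
  rw [mem_filter] at hy
  exact hy.2 a l h

theorem hT1 (hy : y ∈ US (wt W μ) c) (hu : u ∈ US (wt W μ) c) (m : Fin M) :
    ∀ z ∈ Tm μ y u m, ∀ a, a ∉ Dm W c m → z a = 0 := by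
  intro z hz a ha
  obtain ⟨l, rfl, rfl⟩ := mem_Tm.1 hz
  have h1 : W (c a) (μ l) = 0 := by
    by_contra h
    exact ha (mem_filter.2 ⟨mem_univ _, h⟩)
  unfold zc
  rw [y0 hy h1, y0 hu h1]
  rfl

theorem ul (hUL : UL (wt W μ) c y u) (l l' : J) :
    ∑ a, W (c a) (μ l) * W (c a) (μ l') * (u a l - u a l') * (y a l - y a l') = 0 := hUL l l'

theorem hT2 (hy : y ∈ US (wt W μ) c) (hUL : UL (wt W μ) c y u) (m : Fin M) :
    ∀ z ∈ Tm μ y u m, ∀ z' ∈ Tm μ y u m, ∑ a, (z a - z' a).1 * (z a - z' a).2 = 0 := by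
  intro z hz z' hz'
  obtain ⟨l, hl, rfl⟩ := mem_Tm.1 hz
  obtain ⟨l', hl', rfl⟩ := mem_Tm.1 hz'
  rw [← ul hUL l l']
  refine Finset.sum_congr rfl fun a _ => ?_
  show (y a l - y a l') * (u a l - u a l') = _
  rw [hl, hl']
  by_cases h : W (c a) m = 0
  · rw [y0 hy (l := l) (by rw [hl]; exact h), y0 hy (l := l') (by rw [hl']; exact h)]
    ring
  · rw [sq1 _ h]; ring

/-- the data of a class -/
structure Cls (W : Fin k → Fin M → F) (μ : J → Fin M) (c : Fin D → Fin k) (y u : Fin D → J → F)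
    (V : Fin M → Submodule F (Fin D → F × F)) : Prop where
  cV : ∀ m, Nat.card (V m) = 3 ^ (Dm W c m).card
  sV : ∀ m, ∀ z ∈ V m, ∀ a, W (c a) m = 0 → z a = 0
  iV : ∀ m, ∀ z ∈ V m, ∀ z' ∈ V m, ∑ a, ((z a).1 * (z' a).2 + (z a).2 * (z' a).1) = 0
  tV : ∀ m l, μ l = m → ∀ z, (∃ l', μ l' = m ∧ zc y u l' = z) ↔ z - zc y u l ∈ V m
  ne : ∀ m, ∃ l, μ l = m

theorem exists_V (hISO : S_ISO) (hy : y ∈ US (wt W μ) c) (hu : u ∈ US (wt W μ) c)
    (hUL : UL (wt W μ) c y u) (hF : Full W μ c y u) :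
    ∃ V : Fin M → Submodule F (Fin D → F × F), Cls W μ c y u V := by
  have h : ∀ m, ∃ V : Submodule F (Fin D → F × F),
      Nat.card V = 3 ^ (Dm W c m).card ∧ (∀ z ∈ V, ∀ a, a ∉ Dm W c m → z a = 0) ∧
      (∀ z ∈ V, ∀ z' ∈ V, ∑ a, ((z a).1 * (z' a).2 + (z a).2 * (z' a).1) = 0) ∧
      ∀ t ∈ Tm μ y u m, ∀ z, z ∈ Tm μ y u m ↔ z - t ∈ V := fun m =>
    (hISO D (Dm W c m) (Tm μ y u m) (hT1 hy hu m) (hT2 hy hUL m)).2 (hF m)
  choose V h1 h2 h3 h4 using h
  refine ⟨V, h1, fun m z hz a ha => h2 m z hz a fun h => (mem_filter.1 h).2 ha, h3,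
    fun m l hl z => ?_, fun m => ?_⟩
  · rw [← h4 m (zc y u l) (mem_Tm.2 ⟨l, hl, rfl⟩) z, mem_Tm]
  · have h5 := hF m
    have h6 : 0 < (Tm μ y u m).card := lt_of_lt_of_le (by positivity) h5
    obtain ⟨z, hz⟩ := Finset.card_pos.1 h6
    obtain ⟨l, hl, -⟩ := mem_Tm.1 hz
    exact ⟨l, hl⟩

variable {V : Fin M → Submodule F (Fin D → F × F)}

/-- orthogonal to the `y`-parts of the elements of `V m` -/
def GG (W : Fin k → Fin M → F) (c : Fin D → Fin k) (V : Fin M → Submodule F (Fin D → F × F))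
    (m : Fin M) (g : Fin D → F) : Prop :=
  (∀ a, W (c a) m = 0 → g a = 0) ∧ ∀ z ∈ V m, ∑ a, g a * (z a).1 = 0

/-- maximality of `V m` -/
theorem GG_mem (hISO : S_ISO) (hV : Cls W μ c y u V) {m : Fin M} {g : Fin D → F}
    (hg : GG W c V m g) : (fun a => ((0 : F), g a)) ∈ V m := by
  set G : Fin D → F × F := fun a => ((0 : F), g a) with hG
  set T' : Finset (Fin D → F × F) := univ.filter fun z => ∃ v ∈ V m, ∃ s : F, z = v + s • G
    with hT'
  set T0 : Finset (Fin D → F × F) := univ.filter fun z => z ∈ V m with hT0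
  have h1 := (hISO D (Dm W c m) T' (by
    intro z hz a ha
    rw [hT', mem_filter] at hz
    obtain ⟨-, v, hv, s, rfl⟩ := hz
    have ha' : W (c a) m = 0 := by
      by_contra h
      exact ha (mem_filter.2 ⟨mem_univ _, h⟩)
    have e1 := hV.sV m v hv a ha'
    show v a + s • G a = 0
    rw [e1, hG]
    simp only
    rw [hg.1 a ha']
    simp) (by
    intro z hz z' hz'
    rw [hT', mem_filter] at hz hz'
    obtain ⟨-, v, hv, s, rfl⟩ := hz
    obtain ⟨-, v', hv', s', rfl⟩ := hz'
    have hw : v - v' ∈ V m := Submodule.sub_mem _ hv hv'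
    have i1 := hV.iV m _ hw _ hw
    have i2 := hg.2 _ hw
    have e1 : ∑ a, ((v - v') a).1 * ((v - v') a).2 = 0 := by
      apply two0'
      rw [← Finset.sum_add_distrib, ← i1]
      exact Finset.sum_congr rfl fun a _ => by ring
    have e2 : ∑ a, ((v + s • G) a - (v' + s' • G) a).1 * ((v + s • G) a - (v' + s' • G) a).2 =
        ∑ a, ((v - v') a).1 * ((v - v') a).2 + (s - s') * ∑ a, g a * ((v - v') a).1 := by
      rw [Finset.mul_sum, ← Finset.sum_add_distrib]
      refine Finset.sum_congr rfl fun a _ => ?_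
      have f1 : ((v + s • G) a - (v' + s' • G) a).1 = ((v - v') a).1 := by
        show ((v a).1 + s * 0) - ((v' a).1 + s' * 0) = (v a).1 - (v' a).1
        ring
      have f2 : ((v + s • G) a - (v' + s' • G) a).2 = ((v - v') a).2 + (s - s') * g a := by
        show ((v a).2 + s * g a) - ((v' a).2 + s' * g a) = ((v a).2 - (v' a).2) + (s - s') * g a
        ring
      rw [f1, f2]
      ring
    rw [e2, e1, i2]
    ring)).1
  have h2 : T0.card = 3 ^ (Dm W c m).card := by
    rw [← hV.cV m, hT0, Nat.card_eq_fintype_card, Fintype.card_subtype]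
  have h3 : T0 ⊆ T' := by
    intro z hz
    rw [hT0, mem_filter] at hz
    rw [hT', mem_filter]
    exact ⟨mem_univ _, z, hz.2, 0, by simp⟩
  have h4 : T0 = T' := Finset.eq_of_subset_of_card_le h3 (by rw [h2]; exact h1)
  have h5 : G ∈ T' := by
    rw [hT', mem_filter]
    exact ⟨mem_univ _, 0, Submodule.zero_mem _, 1, by simp⟩
  rw [← h4, hT0, mem_filter] at h5
  exact h5.2

/-- `(*)` -/
theorem GG_star (hISO : S_ISO) (hV : Cls W μ c y u V) (hUL : UL (wt W μ) c y u) {m : Fin M}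
    {g : Fin D → F} (hg : GG W c V m g) (l l' : J) (hl : μ l = m) :
    ∑ a, W (c a) m * W (c a) (μ l') * g a * (y a l - y a l') = 0 := by
  have h1 := GG_mem hISO hV hg
  obtain ⟨l₂, hl₂, hz⟩ := (hV.tV m l hl (zc y u l + fun a => ((0 : F), g a))).2 (by
    rw [add_sub_cancel_left]; exact h1)
  have h2 : ∀ a, y a l₂ = y a l := fun a => by
    have := congrArg (fun z : Fin D → F × F => (z a).1) hz
    simpa [zc] using this
  have h3 : ∀ a, u a l₂ = u a l + g a := fun a => by
    have := congrArg (fun z : Fin D → F × F => (z a).2) hz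
    simpa [zc] using this
  have e1 := ul hUL l₂ l'
  have e2 := ul hUL l l'
  rw [hl₂] at e1
  rw [hl] at e2
  have e4 : ∑ a, W (c a) m * W (c a) (μ l') * (u a l₂ - u a l') * (y a l₂ - y a l') =
      ∑ a, W (c a) m * W (c a) (μ l') * g a * (y a l - y a l') +
        ∑ a, W (c a) m * W (c a) (μ l') * (u a l - u a l') * (y a l - y a l') := by
    rw [← Finset.sum_add_distrib]
    exact Finset.sum_congr rfl fun a _ => by rw [h2, h3]; ring
  rw [e4, e2, add_zero] at e1
  exact e1

theorem GG_E (hISO : S_ISO) (hV : Cls W μ c y u V) (hUL : UL (wt W μ) c y u) {m : Fin M}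
    {g : Fin D → F} (hg : GG W c V m g) (m' : Fin M) :
    GG W c V m fun a => W (c a) m * W (c a) m' * g a := by
  refine ⟨fun a ha => by beta_reduce; rw [ha]; ring, fun z hz => ?_⟩
  obtain ⟨l0, hl0⟩ := hV.ne m
  obtain ⟨l', hl'⟩ := hV.ne m'
  obtain ⟨l1, hl1, hz1⟩ := (hV.tV m l0 hl0 (zc y u l0 + z)).2 (by
    rw [add_sub_cancel_left]; exact hz)
  have h1 : ∀ a, (z a).1 = y a l1 - y a l0 := fun a => by
    have := congrArg (fun z : Fin D → F × F => (z a).1) hz1
    have h2 : y a l1 = y a l0 + (z a).1 := this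
    rw [h2]; ring
  have e1 := GG_star hISO hV hUL hg l0 l' hl0
  have e2 := GG_star hISO hV hUL hg l1 l' hl1
  rw [hl'] at e1 e2
  have e3 : ∑ a, W (c a) m * W (c a) m' * g a * (z a).1 =
      ∑ a, W (c a) m * W (c a) m' * g a * (y a l1 - y a l') -
        ∑ a, W (c a) m * W (c a) m' * g a * (y a l0 - y a l') := by
    rw [← Finset.sum_sub_distrib]
    exact Finset.sum_congr rfl fun a _ => by rw [h1]; ring
  rw [e3, e1, e2, sub_zero]

theorem GG_lin {m : Fin M} {g h : Fin D → F} (hg : GG W c V m g) (hh : GG W c V m h) (s t : F) :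
    GG W c V m fun a => s * g a + t * h a := by
  refine ⟨fun a ha => by beta_reduce; rw [hg.1 a ha, hh.1 a ha]; ring, fun z hz => ?_⟩
  have e : ∑ a, (s * g a + t * h a) * (z a).1 = s * ∑ a, g a * (z a).1 +
      t * ∑ a, h a * (z a).1 := by
    rw [Finset.mul_sum, Finset.mul_sum, ← Finset.sum_add_distrib]
    exact Finset.sum_congr rfl fun a _ => by ring
  rw [e, hg.2 z hz, hh.2 z hz]; ring

/-- separation of the colours -/
theorem GG_sep (hISO : S_ISO) (hNP : NP W) (hV : Cls W μ c y u V) (hUL : UL (wt W μ) c y u)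
    {m : Fin M} {j : Fin k} (hj : W j m ≠ 0) (S : Finset (Fin k)) :
    j ∉ S → ∀ g : Fin D → F, GG W c V m g →
      ∃ g' : Fin D → F, GG W c V m g' ∧ (∀ a, c a = j → g' a = g a) ∧
        ∀ a, c a ∈ S → g' a = 0 := by
  induction S using Finset.induction_on with
  | empty => exact fun _ g hg => ⟨g, hg, fun _ _ => rfl, fun a ha => absurd ha (notMem_empty _)⟩
  | insert i S hi ih =>
    intro hjS g hg
    rw [mem_insert, not_or] at hjS
    obtain ⟨g', h1, h2, h3⟩ := ih hjS.2 g hg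
    by_cases hi0 : W i m = 0
    · refine ⟨g', h1, h2, fun a ha => ?_⟩
      rcases mem_insert.1 ha with h | h
      · exact h1.1 a (by rw [h]; exact hi0)
      · exact h3 a h
    · obtain ⟨m', hm'⟩ := hNP.2 i j (fun h => hjS.1 h.symm) (W i m * W j m)
      have hne : W j m * W j m' - W i m * W i m' ≠ 0 := by
        intro h
        apply hm'
        have h4 := sq1 _ hi0
        linear_combination (-W i m') * h4 - (W i m) * h
      set t := (W j m * W j m' - W i m * W i m')⁻¹ with ht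
      have h5 : t * (W j m * W j m' - W i m * W i m') = 1 := inv_mul_cancel₀ hne
      refine ⟨fun a => t * (W (c a) m * W (c a) m' * g' a) + (-(t * (W i m * W i m'))) * g' a,
        GG_lin (GG_E hISO hV hUL h1 m') h1 _ _, fun a ha => ?_, fun a ha => ?_⟩
      · simp only
        rw [ha, ← h2 a ha]
        linear_combination (g' a) * h5
      · simp only
        rcases mem_insert.1 ha with h | h
        · rw [h]; ring
        · rw [h3 a h]; ring

theorem GG_zero (hISO : S_ISO) (hNP : NP W) (hy : y ∈ US (wt W μ) c) (hV : Cls W μ c y u V)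
    (hUL : UL (wt W μ) c y u) (hBY : BY (wt W μ) c y) {m : Fin M} {g : Fin D → F}
    (hg : GG W c V m g) : g = 0 := by
  by_contra hne
  obtain ⟨a₀, ha₀⟩ : ∃ a, g a ≠ 0 := by
    by_contra h
    push Not at h
    exact hne (funext h)
  have hj : W (c a₀) m ≠ 0 := fun h => ha₀ (hg.1 a₀ h)
  obtain ⟨g', h1, h2, h3⟩ := GG_sep hISO hNP hV hUL hj (univ.erase (c a₀)) (notMem_erase _ _) g hg
  have hsup : ∀ a, g' a ≠ 0 → c a = c a₀ := by
    intro a ha
    by_contra h
    exact ha (h3 a (mem_erase.2 ⟨h, mem_univ _⟩))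
  obtain ⟨l0, hl0⟩ := hV.ne m
  have h4 := hBY (c a₀) g' (∑ a, g' a * y a l0) hsup (by
    intro l
    by_cases hl : wt W μ (c a₀) l = 0
    · rw [if_pos hl]
      refine Finset.sum_eq_zero fun a _ => ?_
      by_cases ha : g' a = 0
      · rw [ha, zero_mul]
      · have h5 : W (c a) (μ l) = 0 := by
          rw [hsup a ha]
          exact hl
        rw [y0 hy h5, mul_zero]
    · rw [if_neg hl]
      have h5 := GG_star hISO hV hUL h1 l0 l hl0
      have h6 : ∑ a, W (c a) m * W (c a) (μ l) * g' a * (y a l0 - y a l) =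
          (W (c a₀) m * W (c a₀) (μ l)) * (∑ a, g' a * y a l0 - ∑ a, g' a * y a l) := by
        rw [← Finset.sum_sub_distrib, Finset.mul_sum]
        refine Finset.sum_congr rfl fun a _ => ?_
        by_cases ha : g' a = 0
        · rw [ha]; ring
        · rw [hsup a ha]; ring
      rw [h6] at h5
      have h7 := (mul_eq_zero.1 h5).resolve_left (mul_ne_zero hj hl)
      linear_combination -h7)
  apply ha₀
  rw [← h2 a₀ rfl, h4]
  rfl

/-- `V m` is a graph -/
theorem V_ker (hISO : S_ISO) (hNP : NP W) (hy : y ∈ US (wt W μ) c) (hV : Cls W μ c y u V)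
    (hUL : UL (wt W μ) c y u) (hBY : BY (wt W μ) c y) {m : Fin M} {z : Fin D → F × F}
    (hz : z ∈ V m) (h0 : ∀ a, (z a).1 = 0) : ∀ a, (z a).2 = 0 := by
  have h1 : GG W c V m fun a => (z a).2 := by
    refine ⟨fun a ha => by beta_reduce; rw [hV.sV m z hz a ha]; rfl, fun z' hz' => ?_⟩
    rw [← hV.iV m z hz z' hz']
    exact Finset.sum_congr rfl fun a _ => by rw [h0]; ring
  intro a
  exact congrFun (GG_zero hISO hNP hy hV hUL hBY h1) a

theorem V_surj (hISO : S_ISO) (hNP : NP W) (hy : y ∈ US (wt W μ) c) (hV : Cls W μ c y u V)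
    (hUL : UL (wt W μ) c y u) (hBY : BY (wt W μ) c y) (m : Fin M) (y₀ : Fin D → F)
    (h0 : ∀ a, W (c a) m = 0 → y₀ a = 0) : ∃ z ∈ V m, ∀ a, (z a).1 = y₀ a := by
  let f : V m → ({a // a ∈ Dm W c m} → F) := fun z a => (z.1 a.1).1
  have hinj : Function.Injective f := by
    intro z z' h
    have h1 : z.1 - z'.1 ∈ V m := Submodule.sub_mem _ z.2 z'.2
    have h2 : ∀ a, ((z.1 - z'.1) a).1 = 0 := by
      intro a
      by_cases ha : W (c a) m = 0
      · rw [hV.sV m _ h1 a ha]; rfl
      · have h3 := congrFun h ⟨a, mem_filter.2 ⟨mem_univ _, ha⟩⟩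
        show (z.1 a).1 - (z'.1 a).1 = 0
        exact sub_eq_zero.2 h3
    have h4 := V_ker hISO hNP hy hV hUL hBY h1 h2
    apply Subtype.ext
    funext a
    apply Prod.ext
    · exact sub_eq_zero.1 (h2 a)
    · exact sub_eq_zero.1 (h4 a)
  have hcard : Fintype.card (V m) = Fintype.card ({a // a ∈ Dm W c m} → F) := by
    rw [← Nat.card_eq_fintype_card, hV.cV m, Fintype.card_fun, Fintype.card_coe, ZMod.card]
  obtain ⟨z, hz⟩ := ((Fintype.bijective_iff_injective_and_card f).2 ⟨hinj, hcard⟩).2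
    fun a => y₀ a.1
  refine ⟨z.1, z.2, fun a => ?_⟩
  by_cases ha : W (c a) m = 0
  · rw [hV.sV m _ z.2 a ha, h0 a ha]; rfl
  · exact congrFun hz ⟨a, mem_filter.2 ⟨mem_univ _, ha⟩⟩

theorem exists_l (hISO : S_ISO) (hNP : NP W) (hy : y ∈ US (wt W μ) c) (hV : Cls W μ c y u V)
    (hUL : UL (wt W μ) c y u) (hBY : BY (wt W μ) c y) (m : Fin M) (y₀ : Fin D → F)
    (h0 : ∀ a, W (c a) m = 0 → y₀ a = 0) : ∃ l, μ l = m ∧ ∀ a, y a l = y₀ a := by
  obtain ⟨l0, hl0⟩ := hV.ne m
  obtain ⟨z, hz, hz1⟩ := V_surj hISO hNP hy hV hUL hBY m (fun a => y₀ a - y a l0) (fun a ha => by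
    rw [h0 a ha, y0 hy (by rw [hl0]; exact ha), sub_zero])
  obtain ⟨l1, hl1, hz2⟩ := (hV.tV m l0 hl0 (zc y u l0 + z)).2 (by
    rw [add_sub_cancel_left]; exact hz)
  refine ⟨l1, hl1, fun a => ?_⟩
  have h2 : y a l1 = y a l0 + (z a).1 := congrArg (fun z : Fin D → F × F => (z a).1) hz2
  rw [h2, hz1]; ring

end conf

end STR

open STR in
theorem t_STR (hISO : S_ISO) : S_STR := by
  intro J _ _ k M D W μ c y u hNP hy hu hUL hBY hF
  obtain ⟨V, hV⟩ := exists_V hISO hy hu hUL hF
  -- the points with given `y`-parts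
  have hex0 : ∀ m, ∃ l, μ l = m ∧ ∀ a, y a l = 0 := fun m =>
    exists_l hISO hNP hy hV hUL hBY m (fun _ => 0) (fun _ _ => rfl)
  have hex1 : ∀ m b, ∃ l, W (c b) m ≠ 0 → μ l = m ∧ ∀ a, y a l = sgl b 1 a := by
    intro m b
    by_cases hb : W (c b) m = 0
    · obtain ⟨l, -⟩ := hex0 m
      exact ⟨l, fun h => absurd hb h⟩
    · obtain ⟨l, hl⟩ := exists_l hISO hNP hy hV hUL hBY m (sgl b 1) (sgl_supp hb 1)
      exact ⟨l, fun _ => hl⟩
  choose l0 hl0 hy0 using hex0
  choose l1 hl1 using hex1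
  obtain ⟨A, hA⟩ : ∃ A : Fin M → Fin D → Fin D → F, A = fun m a b =>
    u a (l1 m b) - u a (l0 m) := ⟨_, rfl⟩
  obtain ⟨e, he⟩ : ∃ e : Fin M → Fin D → F, e = fun m a => u a (l0 m) := ⟨_, rfl⟩
  have hdiff : ∀ l l' : J, μ l = μ l' → zc y u l - zc y u l' ∈ V (μ l) := fun l l' h =>
    (hV.tV (μ l) l' h.symm (zc y u l)).1 ⟨l, rfl, rfl⟩
  -- the affine formula
  have hform : ∀ l a, u a l = ∑ b, A (μ l) a b * y b l + e (μ l) a := by
    intro l
    have h1 : zc y u l - zc y u (l0 (μ l)) -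
        ∑ b, y b l • (zc y u (l1 (μ l) b) - zc y u (l0 (μ l))) ∈ V (μ l) := by
      refine Submodule.sub_mem _ (hdiff l _ (hl0 _).symm) (Submodule.sum_mem _ fun b _ => ?_)
      by_cases hb : W (c b) (μ l) = 0
      · rw [y0 hy hb, zero_smul]
        exact Submodule.zero_mem _
      · obtain ⟨h2, -⟩ := hl1 (μ l) b hb
        have h3 := hdiff (l1 (μ l) b) (l0 (μ l)) (by rw [h2, hl0])
        rw [h2] at h3
        exact Submodule.smul_mem _ _ h3
    have h2 : ∀ a, ((zc y u l - zc y u (l0 (μ l)) -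
        ∑ b, y b l • (zc y u (l1 (μ l) b) - zc y u (l0 (μ l)))) a).1 =
        y a l - y a (l0 (μ l)) - ∑ b, y b l * (y a (l1 (μ l) b) - y a (l0 (μ l))) := by
      intro a
      simp only [Pi.sub_apply, Finset.sum_apply, Pi.smul_apply, Prod.fst_sub, Prod.fst_sum,
        Prod.smul_fst, smul_eq_mul]
      rfl
    have h3 : ∀ a, ((zc y u l - zc y u (l0 (μ l)) -
        ∑ b, y b l • (zc y u (l1 (μ l) b) - zc y u (l0 (μ l)))) a).2 =
        u a l - u a (l0 (μ l)) - ∑ b, y b l * (u a (l1 (μ l) b) - u a (l0 (μ l))) := by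
      intro a
      simp only [Pi.sub_apply, Finset.sum_apply, Pi.smul_apply, Prod.snd_sub, Prod.snd_sum,
        Prod.smul_snd, smul_eq_mul]
      rfl
    have h4 := V_ker hISO hNP hy hV hUL hBY h1 (by
      intro a
      rw [h2, hy0, sub_zero]
      have h5 : ∀ b, y b l * (y a (l1 (μ l) b) - 0) = if b = a then y a l else 0 := by
        intro b
        by_cases hb : W (c b) (μ l) = 0
        · rw [y0 hy hb, zero_mul]
          by_cases hba : b = a
          · rw [if_pos hba, ← hba, y0 hy hb]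
          · rw [if_neg hba]
        · rw [(hl1 (μ l) b hb).2, sub_zero]
          by_cases hba : b = a
          · rw [if_pos hba, hba, sgl_self, mul_one]
          · rw [if_neg hba, sgl_ne (fun h => hba h.symm), mul_zero]
      rw [Finset.sum_congr rfl fun b _ => h5 b]
      simp)
    intro a
    have h6 := h4 a
    rw [h3] at h6
    rw [hA, he]
    simp only
    have h7 : ∑ b, (u a (l1 (μ l) b) - u a (l0 (μ l))) * y b l =
        ∑ b, y b l * (u a (l1 (μ l) b) - u a (l0 (μ l))) :=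
      Finset.sum_congr rfl fun b _ => mul_comm _ _
    rw [h7]
    linear_combination h6
  -- the relations
  have hrel : Rel W c A e := by
    intro m m' y₀ y₁ h₀ h₁
    obtain ⟨l, hl, hyl⟩ := exists_l hISO hNP hy hV hUL hBY m y₀ h₀
    obtain ⟨l', hl', hyl'⟩ := exists_l hISO hNP hy hV hUL hBY m' y₁ h₁
    rw [← ul hUL l l']
    refine Finset.sum_congr rfl fun a _ => ?_
    rw [hform l a, hform l' a, hl, hl']
    simp only [hyl, hyl']
  -- the conclusion
  choose mj hmj using hNP.1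
  refine ⟨fun a a' => if c a = c a' then A (mj (c a)) a a' else 0, fun a => e (mj (c a)) a,
    fun a a' h => ?_, fun a a' => ?_, fun a l hal => ?_⟩
  · by_contra h'
    simp only [if_neg h'] at h
    exact h rfl
  · by_cases h : c a = c a'
    · simp only
      rw [if_pos h, if_pos h.symm, ← h]
      exact core_alt hrel (hmj (c a)) (by rw [← h]; exact hmj (c a))
    · simp only
      rw [if_neg h, if_neg (fun h' => h h'.symm), neg_zero]
  · have ha : W (c a) (μ l) ≠ 0 := hal
    rw [hform l a]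
    simp only
    rw [(rel_b hrel ha (hmj (c a))).2]
    congr 1
    refine Finset.sum_congr rfl fun b _ => ?_
    by_cases hb : W (c b) (μ l) = 0
    · rw [y0 hy hb, mul_zero, mul_zero]
    · by_cases h : c a = c b
      · rw [if_pos h, core_eq hrel ha hb (hmj (c a)) (by rw [← h]; exact hmj (c a)) h]
      · rw [if_neg h, core_col hNP hrel ha hb h]

end Pool.Agent.H451.JLM
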