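import Pool.Agent.H451.JLM.Stm2

/-!
# Project JLM (helper451): block systems as systems of the abstract law (helper328)
-/

set_option autoImplicit false

open scoped Classical

namespace Pool.Agent.H451.JLM

open Finset
open Pool.Agent.Y703.XK (prs ext c9)
open Pool.Agent.H451.JL (F)

namespace SYSm

variable {U J : Type} [Fintype U] [Fintype J]

/-- the first equation -/
noncomputable def Eq1 (A : U → U → F) (B : U → J → F) : ((U → F) × (J → F)) →ₗ[F] (U → F) where
  toFun p u := ∑ v, A u v * (p.1 v - p.1 u) + ∑ l, B u l * (p.2 l - p.1 u)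
  map_add' p q := by
    funext u
    simp only [Prod.fst_add, Prod.snd_add, Pi.add_apply]
    have h1 : ∀ v, A u v * (p.1 v + q.1 v - (p.1 u + q.1 u)) =
        A u v * (p.1 v - p.1 u) + A u v * (q.1 v - q.1 u) := fun v => by ring
    have h2 : ∀ l, B u l * (p.2 l + q.2 l - (p.1 u + q.1 u)) =
        B u l * (p.2 l - p.1 u) + B u l * (q.2 l - q.1 u) := fun v => by ring
    simp only [h1, h2, Finset.sum_add_distrib]
    ring
  map_smul' c p := by
    funext u
    simp only [Prod.smul_fst, Prod.smul_snd, Pi.smul_apply, smul_eq_mul, RingHom.id_apply]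
    rw [mul_add, Finset.mul_sum, Finset.mul_sum]
    congr 1
    · exact Finset.sum_congr rfl fun _ _ => by ring
    · exact Finset.sum_congr rfl fun _ _ => by ring

lemma Eq1_apply (A : U → U → F) (B : U → J → F) (p : (U → F) × (J → F)) (u : U) :
    Eq1 A B p u = ∑ v, A u v * (p.1 v - p.1 u) + ∑ l, B u l * (p.2 l - p.1 u) := rfl

/-- both conditions -/
noncomputable def Eq2 (A : U → U → F) (B : U → J → F) (w : J → F) :
    ((U → F) × (J → F)) →ₗ[F] ((U → F) × ({l : J // w l = 0} → F)) :=
  (Eq1 A B).prod ((LinearMap.funLeft F F (Subtype.val : {l : J // w l = 0} → J)) ∘ₗ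
    LinearMap.snd F (U → F) (J → F))

/-- the space of the system -/
noncomputable def Lsp (A : U → U → F) (B : U → J → F) (w : J → F) :
    Submodule F ((U → F) × (J → F)) := LinearMap.ker (Eq2 A B w)

lemma mem_Lsp (A : U → U → F) (B : U → J → F) (w : J → F) (p : (U → F) × (J → F)) :
    p ∈ Lsp A B w ↔ (∀ u, ∑ v, A u v * (p.1 v - p.1 u) + ∑ l, B u l * (p.2 l - p.1 u) = 0) ∧
      (∀ l, w l = 0 → p.2 l = 0) := by
  unfold Lsp Eq2
  rw [LinearMap.mem_ker, LinearMap.prod_apply]
  refine Iff.trans Prod.ext_iff (and_congr ?_ ?_)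
  · rw [funext_iff]
    rfl
  · rw [funext_iff]
    constructor
    · intro h l hl
      exact h ⟨l, hl⟩
    · rintro h ⟨l, hl⟩
      exact h l hl

lemma T_surj (B : U → J → F) (hB : ∀ v : U → F, (∃ u, v u ≠ 0) → ∃ l, ∑ u, v u * B u l ≠ 0)
    (φ : U → F) : ∃ y : J → F, ∀ u, ∑ l, B u l * y l = φ u := by
  let T : (J → F) →ₗ[F] (U → F) := Matrix.mulVecLin (Matrix.of B)
  have hT : ∀ y u, T y u = ∑ l, B u l * y l := fun y u => rfl
  have h1 : LinearMap.range T = ⊤ := by
    by_contra h
    obtain ⟨f, hf0, hf⟩ := Submodule.exists_le_ker_of_lt_top _ (lt_top_iff_ne_top.2 h)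
    have hf1 : ∀ x, f x = ∑ u, x u * f (Pi.single u 1) := by
      intro x
      conv_lhs => rw [← Finset.univ_sum_single x]
      rw [map_sum]
      refine Finset.sum_congr rfl fun u _ => ?_
      rw [← smul_eq_mul, ← map_smul]
      congr 1
      rw [← Pi.single_smul, smul_eq_mul, mul_one]
    have hne : ∃ u, f (Pi.single u 1) ≠ 0 := by
      by_contra hc
      push Not at hc
      apply hf0
      refine LinearMap.ext fun x => ?_
      rw [hf1, LinearMap.zero_apply]
      exact Finset.sum_eq_zero fun u _ => by rw [hc, mul_zero]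
    obtain ⟨l, hl⟩ := hB (fun u => f (Pi.single u 1)) hne
    apply hl
    have h2 : T (Pi.single l 1) ∈ LinearMap.ker f := hf ⟨_, rfl⟩
    rw [LinearMap.mem_ker, hf1] at h2
    rw [← h2]
    refine Finset.sum_congr rfl fun u _ => ?_
    rw [hT, Finset.sum_eq_single l]
    · simp
      ring
    · intro b _ hb
      simp [hb]
    · intro h
      exact absurd (Finset.mem_univ _) h
  obtain ⟨y, hy⟩ := LinearMap.range_eq_top.1 h1 φ
  exact ⟨y, fun u => by rw [← hT, hy]⟩

lemma card3 (X : Type) [AddCommGroup X] [Module F X] [Finite X] :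
    Nat.card X = 3 ^ Module.finrank F X := by
  rw [Module.natCard_eq_pow_finrank (K := F) (V := X), Nat.card_eq_fintype_card, ZMod.card]

lemma card_Lsp (A : U → U → F) (B : U → J → F) (w : J → F) (hBw : ∀ u l, w l = 0 → B u l = 0)
    (hB : ∀ v : U → F, (∃ u, v u ≠ 0) → ∃ l, ∑ u, v u * B u l ≠ 0) :
    Nat.card (Lsp A B w) = 3 ^ (univ.filter fun l => w l ≠ 0).card := by
  have h1 : LinearMap.range (Eq2 A B w) = ⊤ := by
    rw [LinearMap.range_eq_top]
    rintro ⟨φ, z⟩
    obtain ⟨y, hy⟩ := T_surj B hB φ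
    refine ⟨(0, fun l => if h : w l = 0 then z ⟨l, h⟩ else y l), ?_⟩
    unfold Eq2
    rw [LinearMap.prod_apply]
    refine Prod.ext ?_ ?_
    · funext u
      change Eq1 A B _ u = φ u
      rw [Eq1_apply, ← hy u]
      simp only [Pi.zero_apply, sub_zero, mul_zero, Finset.sum_const_zero, zero_add]
      refine Finset.sum_congr rfl fun l _ => ?_
      by_cases h : w l = 0
      · rw [hBw u l h, zero_mul, zero_mul]
      · rw [dif_neg h]
    · funext l
      change (if h : w l.1 = 0 then z ⟨l.1, h⟩ else y l.1) = z l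
      rw [dif_pos l.2]
  have h2 := LinearMap.finrank_range_add_finrank_ker (Eq2 A B w)
  rw [h1, finrank_top, Module.finrank_prod, Module.finrank_prod, Module.finrank_fintype_fun_eq_card,
    Module.finrank_fintype_fun_eq_card, Module.finrank_fintype_fun_eq_card] at h2
  rw [card3]
  congr 1
  have h3 : Fintype.card {l : J // w l = 0} + (univ.filter fun l => w l ≠ 0).card =
      Fintype.card J := by
    rw [Fintype.card_subtype, ← Finset.card_univ]
    exact Finset.card_filter_add_card_filter_not (s := univ) (fun l => w l = 0)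
  unfold Lsp
  omega

variable [LinearOrder J] {k : ℕ}

/-- the `b` map -/
noncomputable def bm (B : U → J → F) : ((U → F) × (J → F)) →ₗ[F] (J → F) where
  toFun p l := - ∑ u, B u l * (p.1 u - p.2 l)
  map_add' p q := by
    funext l
    simp only [Prod.fst_add, Prod.snd_add, Pi.add_apply]
    rw [← neg_add, ← Finset.sum_add_distrib]
    congr 1
    exact Finset.sum_congr rfl fun _ _ => by ring
  map_smul' c p := by
    funext l
    simp only [Prod.smul_fst, Prod.smul_snd, Pi.smul_apply, smul_eq_mul, RingHom.id_apply]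
    rw [mul_neg, Finset.mul_sum]
    congr 1
    exact Finset.sum_congr rfl fun _ _ => by ring

end SYSm

open SYSm

theorem t_SYS : S_JLM → S_SYS := by
  intro hJLM k M W hNP ε hε
  obtain ⟨N, hN⟩ := hJLM k M W hNP ε hε
  refine ⟨N, ?_⟩
  intro U _ J _ _ μ A B m₀ hA hBw hU hB hJ
  have hBw' : ∀ j u l, wt W μ j l = 0 → B j u l = 0 := hBw
  have ho : ∀ j, ((fun _ => 1, fun l => if wt W μ j l = 0 then 0 else 1) :
      (U j → F) × (J → F)) ∈ Lsp (A j) (B j) (wt W μ j) := by
    intro j
    rw [mem_Lsp]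
    refine ⟨fun u => ?_, fun l hl => by simp [hl]⟩
    simp only [sub_self, mul_zero, Finset.sum_const_zero, zero_add]
    refine Finset.sum_eq_zero fun l _ => ?_
    by_cases h : wt W μ j l = 0
    · rw [hBw' j u l h, zero_mul]
    · rw [if_neg h, sub_self, mul_zero]
  let s : Sys J k :=
    { L := fun j => Lsp (A j) (B j) (wt W μ j)
      g := fun j => inferInstance
      m := fun j => inferInstance
      f := fun j => Fintype.ofFinite _
      y := fun j => LinearMap.snd F (U j → F) (J → F) ∘ₗ Submodule.subtype _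
      b := fun j => bm (B j) ∘ₗ Submodule.subtype _
      o := fun j => ⟨_, ho j⟩ }
  have hy : ∀ j (p : Lsp (A j) (B j) (wt W μ j)), s.y j p = p.1.2 := fun j p => rfl
  have hb : ∀ j (p : Lsp (A j) (B j) (wt W μ j)) l,
      s.b j p l = - ∑ u, B j u l * (p.1.1 u - p.1.2 l) := fun j p l => rfl
  have hok : s.OK (wt W μ) m₀ := by
    refine ⟨?_, ?_, ?_, ?_, ?_, ?_, ?_, ?_, ?_⟩
    · intro j p l hl
      exact ((mem_Lsp _ _ _ _).1 p.2).2 l hl
    · intro j (p : Lsp (A j) (B j) (wt W μ j)) l hl
      rw [hb]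
      simp [hBw' j _ l hl]
    · intro j (p : Lsp (A j) (B j) (wt W μ j))
      simp only [hb]
      have h1 := fun u => ((mem_Lsp _ _ _ _).1 p.2).1 u
      have h2 : ∑ u, (∑ v, A j u v * (p.1.1 v - p.1.1 u) +
          ∑ l, B j u l * (p.1.2 l - p.1.1 u)) = 0 := Finset.sum_eq_zero fun u _ => h1 u
      have h3 : ∑ u, ∑ v, A j u v * (p.1.1 v - p.1.1 u) = 0 := by
        have e1 : ∑ u, ∑ v, A j u v * (p.1.1 v - p.1.1 u) =
            ∑ u, ∑ v, A j u v * p.1.1 v - ∑ u, ∑ v, A j u v * p.1.1 u := by
          rw [← Finset.sum_sub_distrib]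
          refine Finset.sum_congr rfl fun u _ => ?_
          rw [← Finset.sum_sub_distrib]
          exact Finset.sum_congr rfl fun v _ => by ring
        rw [e1, Finset.sum_comm, sub_eq_zero]
        refine Finset.sum_congr rfl fun u _ => Finset.sum_congr rfl fun v _ => ?_
        rw [hA j v u]
      rw [Finset.sum_add_distrib, h3, zero_add, Finset.sum_comm] at h2
      rw [← h2]
      refine Finset.sum_congr rfl fun l _ => ?_
      rw [← Finset.sum_neg_distrib]
      exact Finset.sum_congr rfl fun u _ => by ring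
    · intro j (p : Lsp (A j) (B j) (wt W μ j)) (q : Lsp (A j) (B j) (wt W μ j))
      simp only [hb, hy]
      -- the bilinear quantities
      have key : ∀ p q : Lsp (A j) (B j) (wt W μ j),
          ∑ l, ∑ u, B j u l * p.1.2 l * q.1.1 u =
            ∑ l, ∑ u, B j u l * p.1.1 u * q.1.1 u -
              ∑ u, ∑ v, A j u v * (p.1.1 v - p.1.1 u) * q.1.1 u := by
        intro p q
        have h1 := fun u => ((mem_Lsp _ _ _ _).1 p.2).1 u
        have h2 : ∑ u, (∑ v, A j u v * (p.1.1 v - p.1.1 u) +
          ∑ l, B j u l * (p.1.2 l - p.1.1 u)) * q.1.1 u = 0 :=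
          Finset.sum_eq_zero fun u _ => by rw [h1 u, zero_mul]
        have h3 : ∑ u, (∑ v, A j u v * (p.1.1 v - p.1.1 u) +
          ∑ l, B j u l * (p.1.2 l - p.1.1 u)) * q.1.1 u =
          ∑ u, ∑ v, A j u v * (p.1.1 v - p.1.1 u) * q.1.1 u +
            (∑ u, ∑ l, B j u l * p.1.2 l * q.1.1 u - ∑ u, ∑ l, B j u l * p.1.1 u * q.1.1 u) := by
          rw [← Finset.sum_sub_distrib, ← Finset.sum_add_distrib]
          refine Finset.sum_congr rfl fun u _ => ?_
          rw [add_mul, Finset.sum_mul, Finset.sum_mul, ← Finset.sum_sub_distrib]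
          congr 1
          exact Finset.sum_congr rfl fun v _ => by ring
        rw [h3] at h2
        rw [Finset.sum_comm, Finset.sum_comm (f := fun l u => B j u l * p.1.1 u * q.1.1 u)]
        linear_combination h2
      have hAs : ∑ u, ∑ v, A j u v * (p.1.1 v - p.1.1 u) * q.1.1 u =
          ∑ u, ∑ v, A j u v * (q.1.1 v - q.1.1 u) * p.1.1 u := by
        have e1 : ∀ p q : U j → F, ∑ u, ∑ v, A j u v * (p v - p u) * q u =
            ∑ u, ∑ v, A j u v * p v * q u - ∑ u, ∑ v, A j u v * p u * q u := by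
          intro p q
          rw [← Finset.sum_sub_distrib]
          refine Finset.sum_congr rfl fun u _ => ?_
          rw [← Finset.sum_sub_distrib]
          exact Finset.sum_congr rfl fun v _ => by ring
        rw [e1, e1]
        congr 1
        · rw [Finset.sum_comm]
          refine Finset.sum_congr rfl fun u _ => Finset.sum_congr rfl fun v _ => ?_
          rw [hA j v u]
          ring
        · exact Finset.sum_congr rfl fun u _ => Finset.sum_congr rfl fun v _ => by ring
      have hBs : ∑ l, ∑ u, B j u l * p.1.1 u * q.1.1 u =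
          ∑ l, ∑ u, B j u l * q.1.1 u * p.1.1 u :=
        Finset.sum_congr rfl fun u _ => Finset.sum_congr rfl fun v _ => by ring
      have e2 : ∀ p q : (U j → F) × (J → F),
          ∑ l, (- ∑ u, B j u l * (p.1 u - p.2 l)) * q.2 l =
          ∑ l, ∑ u, B j u l * p.2 l * q.2 l - ∑ l, ∑ u, B j u l * q.2 l * p.1 u := by
        intro p q
        rw [← Finset.sum_sub_distrib]
        refine Finset.sum_congr rfl fun l _ => ?_
        rw [← Finset.sum_sub_distrib, ← Finset.sum_neg_distrib, Finset.sum_mul]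
        exact Finset.sum_congr rfl fun v _ => by ring
      rw [e2, e2]
      have k1 := key p q
      have k2 := key q p
      have e3 : ∑ l, ∑ u, B j u l * p.1.2 l * q.1.2 l = ∑ l, ∑ u, B j u l * q.1.2 l * p.1.2 l :=
        Finset.sum_congr rfl fun u _ => Finset.sum_congr rfl fun v _ => by ring
      rw [hAs, hBs] at k1
      rw [e3, k1, k2]
    · intro j (p : Lsp (A j) (B j) (wt W μ j)) (h1 : p.1.2 = 0) h2
      have h3 : p.1.1 = 0 := by
        by_contra hne
        obtain ⟨l, hl⟩ := hB j p.1.1 (by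
          by_contra hc
          push Not at hc
          exact hne (funext hc))
        apply hl
        have h4 := congrFun h2 l
        rw [hb, h1, Pi.zero_apply, neg_eq_zero] at h4
        rw [← h4]
        refine Finset.sum_congr rfl fun u _ => ?_
        rw [sub_zero, mul_comm]
      exact Subtype.ext (Prod.ext h3 h1)
    · intro j
      exact card_Lsp (A j) (B j) (wt W μ j) (hBw' j) (hB j)
    · intro j
      have h1 : Nat.card {p : Lsp (A j) (B j) (wt W μ j) // p.1.2 = 0} ≤ Nat.card (U j → F) := by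
        refine Nat.card_le_card_of_injective
          (fun p : {p : Lsp (A j) (B j) (wt W μ j) // p.1.2 = 0} => p.1.1.1) ?_
        intro p q h
        refine Subtype.ext (Subtype.ext (Prod.ext h ?_))
        rw [p.2, q.2]
      refine h1.trans ?_
      rw [Nat.card_fun, Nat.card_eq_fintype_card, Nat.card_eq_fintype_card, ZMod.card]
      exact Nat.pow_le_pow_right (by norm_num) (hU j)
    · intro j l
      rfl
    · intro j
      funext l
      change - ∑ u, B j u l * ((1 : F) - if wt W μ j l = 0 then 0 else 1) = 0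
      by_cases h : wt W μ j l = 0
      · simp [hBw' j _ l h]
      · simp [h]
  have h1 := hN J μ m₀ s hok hJ
  have h2 : ∀ α : prs J → F, ∀ j, nAw (A j) (B j) (wt W μ j) α =
      Nat.card (s.R (wt W μ) j α) := by
    intro α j
    unfold nAw
    have hmem : ∀ p : Lsp (A j) (B j) (wt W μ j), p ∈ s.R (wt W μ) j α ↔
        ∀ l, ∑ u, B j u l * (p.1.1 u - p.1.2 l) +
          ∑ l', wt W μ j l * wt W μ j l' * ext α l l' * (p.1.2 l' - p.1.2 l) = 0 := by
      intro p
      unfold Sys.R
      rw [LinearMap.mem_ker, LinearMap.sub_apply, sub_eq_zero, funext_iff]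
      refine forall_congr' fun l => ?_
      change ∑ l', wt W μ j l * wt W μ j l' * ext α l l' * (p.1.2 l' - p.1.2 l) =
        - ∑ u, B j u l * (p.1.1 u - p.1.2 l) ↔ _
      rw [eq_neg_iff_add_eq_zero, add_comm]
    refine Nat.card_congr
      { toFun := fun p => ⟨⟨p.1, (mem_Lsp _ _ _ _).2 ⟨p.2.2.1, p.2.1⟩⟩, (hmem _).2 p.2.2.2⟩
        invFun := fun p => ⟨p.1.1, ((mem_Lsp _ _ _ _).1 p.1.2).2, ((mem_Lsp _ _ _ _).1 p.1.2).1,
          (hmem _).1 p.2⟩
        left_inv := fun p => rfl
        right_inv := fun p => rfl }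
  have h3 : (univ.filter fun α : prs J → F => ∀ j, nAw (A j) (B j) (wt W μ j) α = 3) =
      univ.filter fun α : prs J → F => ∀ j, Nat.card (s.R (wt W μ) j α) = 3 := by
    refine Finset.filter_congr fun α _ => ?_
    refine forall_congr' fun j => ?_
    rw [h2]
  rw [h3]
  unfold pr at h1
  convert h1

end Pool.Agent.H451.JLM
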