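import Mathlib
import Pool.Agent.H451.JL.Asm
import Pool.Agent.H451.JLM.FOU
import Pool.Agent.H451.JLM.ISO
import Pool.Agent.H451.JLM.STR
import Pool.Agent.H451.JLM.GRA
import Pool.Agent.H451.JLM.NF
import Pool.Agent.H451.JLM.MOM
import Pool.Agent.H451.JLM.EX
import Pool.Agent.H451.JLM.JLM
import Pool.Agent.H451.JLM.SYS
import Pool.Agent.H451.JLM.BOX
import Pool.Agent.H451.JLM.KEY
import Pool.Agent.H451.JLM.NDC
import Pool.Agent.H451.JLM.RM
import Pool.Agent.H451.JLM.LOW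
import Pool.Agent.H451.JLM.DQ

/-!
# Project JLM: assembly
-/

set_option autoImplicit false

namespace Pool.Agent.H451.JLM

theorem t_JLM' : S_JLM :=
  t_JLM (t_EX (t_MOM t_FOU (t_STR t_ISO) t_GRA (t_NF t_ISO))) Pool.Agent.H451.JL.t_TR'
    Pool.Agent.H451.JL.t_C' Pool.Agent.H451.JL.t_E Pool.Agent.Y703.XL.t_C9

theorem t_BOX' : S_BOX := t_BOX Pool.Agent.Y710.XK.t_EQ (t_SYS t_JLM')

/-- **the joint law for randomly marked random sets** -/
theorem t_DQ' : S_DQ :=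
  t_DQ Pool.Agent.Y363.XK.t_BIL t_KEY t_BOX' Pool.Agent.Y474.XK.t_CNT t_NDC t_FEC t_RM t_AV t_LOW
    Pool.Agent.Y703.XL.t_C9

end Pool.Agent.H451.JLM
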