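import Pool.Agent.H451.JLM.Stm2
import Pool.Agent.H451.JL.LOW

/-!
# Project JLM (helper451), parts AV and LOW (helper142)
-/

set_option autoImplicit false

open scoped Classical

namespace Pool.Agent.H451.JLM

open Finset
open Pool.Agent.Y692.QS (Ei w nr toC)
open Pool.Agent.Y715.T.RecG (Pq)
open Pool.Agent.Y699.E (ez nrm QB mem_QB nrm_mul nrm_eq' nrm_one_iff nrm_natCast nrm_pos' pq_ne)
open Pool.Agent.Y703.XK (SS Cl)
open Pool.Agent.H451.JL.LOWL (prod_mod SS_mono mem_SS exists_q)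

namespace LOWM

/-- extension of a mark function -/
noncomputable def xt {M : ℕ} (m₁ : Fin M) (T : Finset Ei) (f : T → Fin M) : Ei → Fin M :=
  fun π => if h : π ∈ T then f ⟨π, h⟩ else m₁

theorem av_eq {M : ℕ} (m₁ : Fin M) (T : Finset Ei) (Q : (Ei → Fin M) → Prop) :
    av m₁ T Q = ((univ.filter fun f : T → Fin M => Q (xt m₁ T f)).card : ℝ) / M ^ T.card := rfl

/-- splitting of a mark function -/
noncomputable def split {M : ℕ} {S T : Finset Ei} (h : S ⊆ T) :
    (T → Fin M) ≃ (S → Fin M) × (↥(T \ S) → Fin M) where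
  toFun f := (fun s => f ⟨s.1, h s.2⟩, fun s => f ⟨s.1, (mem_sdiff.1 s.2).1⟩)
  invFun p t := if h' : t.1 ∈ S then p.1 ⟨t.1, h'⟩ else p.2 ⟨t.1, mem_sdiff.2 ⟨t.2, h'⟩⟩
  left_inv f := by
    funext t
    by_cases h' : t.1 ∈ S
    · simp only [h', dif_pos]
    · simp only [h', dif_neg, not_false_iff]
  right_inv p := by
    apply Prod.ext
    · funext s
      simp only [s.2, dif_pos]
    · funext s
      have h' : s.1 ∉ S := (mem_sdiff.1 s.2).2
      simp only [h', dif_neg, not_false_iff]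

end LOWM

open LOWM

theorem t_AV : S_AV := by
  intro M m₁ S T Q hST hQ
  have hM : 0 < M := lt_of_le_of_lt (Nat.zero_le _) m₁.isLt
  rw [av_eq, av_eq]
  have h1 : (univ.filter fun f : T → Fin M => Q (xt m₁ T f)).card =
      ((univ.filter fun g : S → Fin M => Q (xt m₁ S g)) ×ˢ
        (univ : Finset (↥(T \ S) → Fin M))).card := by
    refine Finset.card_equiv (split hST) fun f => ?_
    rw [mem_filter, mem_product, mem_filter]
    have h2 : Q (xt m₁ T f) ↔ Q (xt m₁ S (split hST f).1) := by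
      refine hQ _ _ fun π hπ => ?_
      show (if h : π ∈ T then f ⟨π, h⟩ else m₁) = if h : π ∈ S then f ⟨π, hST h⟩ else m₁
      rw [dif_pos (hST hπ), dif_pos hπ]
    constructor
    · rintro ⟨_, h⟩
      exact ⟨⟨mem_univ _, h2.1 h⟩, mem_univ _⟩
    · rintro ⟨⟨_, h⟩, _⟩
      exact ⟨mem_univ _, h2.2 h⟩
  rw [h1, card_product, card_univ, Fintype.card_fun, Fintype.card_coe, Fintype.card_fin]
  have h3 : T.card = S.card + (T \ S).card := by
    rw [add_comm]
    exact (card_sdiff_add_card_eq_card hST).symm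
  have hM' : (0 : ℝ) < M := by exact_mod_cast hM
  rw [h3, pow_add]
  push_cast
  rw [mul_div_mul_right _ _ (pow_ne_zero _ hM'.ne')]

namespace LOWM

theorem exists_seq : ∃ g : ℕ → Ei, (∀ n, Pq (g n)) ∧ (∀ n, nrm (g n) % 9 = 4) ∧
    Function.Injective g := by
  choose f hf1 hf2 hf3 using exists_q
  let g : ℕ → Ei := fun n => Nat.rec (f 0) (fun _ q => f (nrm q)) n
  have g0 : g 0 = f 0 := rfl
  have g1 : ∀ n, g (n + 1) = f (nrm (g n)) := fun n => rfl
  refine ⟨g, ?_, ?_, ?_⟩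
  · intro n
    cases n with
    | zero => exact hf1 0
    | succ n => rw [g1]; exact hf1 _
  · intro n
    cases n with
    | zero => exact hf2 0
    | succ n => rw [g1]; exact hf2 _
  · have h : StrictMono fun n => nrm (g n) := strictMono_nat_of_lt_succ fun n => by
      show nrm (g n) < nrm (g (n + 1))
      rw [g1]
      exact hf3 _
    intro a b hab
    exact h.injective (congrArg nrm hab)

/-- the primes used for the correction of the mark `m` -/
noncomputable def T0 (g : ℕ → Ei) (m j : ℕ) : Finset Ei :=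
  if j = 0 then ∅ else if j = 1 then {g (2 * m)} else {g (2 * m), g (2 * m + 1)}

section
variable {M : ℕ} {g : ℕ → Ei} (hg : ∀ n, Pq (g n)) (h4 : ∀ n, nrm (g n) % 9 = 4)
  (hi : Function.Injective g)

include hi h4 in
theorem T0_prod (m j : ℕ) (hj : j ≤ 2) : (∏ π ∈ T0 g m j, nrm π) % 9 = 4 ^ j % 9 := by
  have h12 : g (2 * m) ≠ g (2 * m + 1) := fun h => by
    have := hi h
    omega
  interval_cases j
  · simp [T0]
  · simp [T0, h4]
  · have : T0 g m 2 = {g (2 * m), g (2 * m + 1)} := rfl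
    rw [this, prod_pair h12, Nat.mul_mod, h4, h4]
    norm_num

theorem T0_sub (m : Fin M) (j : ℕ) : T0 g m j ⊆ (range (2 * M)).image g := by
  have h := m.isLt
  have h1 : g (2 * m) ∈ (range (2 * M)).image g :=
    mem_image_of_mem _ (mem_range.2 (by omega))
  have h2 : g (2 * m + 1) ∈ (range (2 * M)).image g :=
    mem_image_of_mem _ (mem_range.2 (by omega))
  intro x hx
  unfold T0 at hx
  split_ifs at hx with c1 c2
  · exact absurd hx (notMem_empty _)
  · rw [mem_singleton] at hx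
    rw [hx]; exact h1
  · rw [mem_insert, mem_singleton] at hx
    rcases hx with hx | hx
    · rw [hx]; exact h1
    · rw [hx]; exact h2

theorem T0_mark {μ : Ei → Fin M} (hμ : ∀ m : Fin M, μ (g (2 * m)) = m ∧ μ (g (2 * m + 1)) = m)
    (m : Fin M) (j : ℕ) {x : Ei} (hx : x ∈ T0 g m j) : μ x = m := by
  unfold T0 at hx
  split_ifs at hx with c1 c2
  · exact absurd hx (notMem_empty _)
  · rw [mem_singleton] at hx
    rw [hx]; exact (hμ m).1
  · rw [mem_insert, mem_singleton] at hx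
    rcases hx with hx | hx
    · rw [hx]; exact (hμ m).1
    · rw [hx]; exact (hμ m).2

theorem biUnion_filter {μ : Ei → Fin M}
    (hμ : ∀ m : Fin M, μ (g (2 * m)) = m ∧ μ (g (2 * m + 1)) = m) (e : Fin M → ℕ) (m : Fin M) :
    (univ.biUnion fun m : Fin M => T0 g m (e m)).filter (fun π => μ π = m) = T0 g m (e m) := by
  ext x
  rw [mem_filter, mem_biUnion]
  constructor
  · rintro ⟨⟨m', _, h1⟩, h2⟩
    have h3 := T0_mark hμ m' (e m') h1
    rw [h3] at h2
    rw [← h2]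
    exact h1
  · intro h
    exact ⟨⟨m, mem_univ _, h⟩, T0_mark hμ m (e m) h⟩

include hg h4 hi in
/-- the correction -/
theorem exists_T {μ : Ei → Fin M} (hμ : ∀ m : Fin M, μ (g (2 * m)) = m ∧ μ (g (2 * m + 1)) = m)
    {r : Fin M → ℕ} (hr : ∀ m, r m = 1 ∨ r m = 4 ∨ r m = 7) (S : Finset Ei)
    (hS : ∀ π ∈ S, Pq π) :
    ∃ T ⊆ (range (2 * M)).image g,
      (∀ m, (∏ π ∈ ((S \ (range (2 * M)).image g) ∪ T).filter (fun π => μ π = m), nrm π) % 9 = r m) ∧
      ∏ π ∈ T, nrm π ≤ ∏ π ∈ (range (2 * M)).image g, nrm π := by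
  set W := (range (2 * M)).image g with hW
  have h1 : ∀ m : Fin M, ∃ j ≤ 2,
      (∏ π ∈ (S \ W).filter (fun π => μ π = m), nrm π) * 4 ^ j % 9 = r m := by
    intro m
    have h3 := prod_mod (S := (S \ W).filter (fun π => μ π = m)) fun π hπ =>
      hS π (mem_sdiff.1 (mem_filter.1 hπ).1).1
    have h5 : (∏ π ∈ (S \ W).filter (fun π => μ π = m), nrm π) % 9 = 1 ∨
        (∏ π ∈ (S \ W).filter (fun π => μ π = m), nrm π) % 9 = 4 ∨
        (∏ π ∈ (S \ W).filter (fun π => μ π = m), nrm π) % 9 = 7 := by omega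
    rcases hr m with h | h | h <;> rcases h5 with h5 | h5 | h5
    · exact ⟨0, by norm_num, by rw [Nat.mul_mod, h5, h]; norm_num⟩
    · exact ⟨2, by norm_num, by rw [Nat.mul_mod, h5, h]; norm_num⟩
    · exact ⟨1, by norm_num, by rw [Nat.mul_mod, h5, h]; norm_num⟩
    · exact ⟨1, by norm_num, by rw [Nat.mul_mod, h5, h]; norm_num⟩
    · exact ⟨0, by norm_num, by rw [Nat.mul_mod, h5, h]; norm_num⟩
    · exact ⟨2, by norm_num, by rw [Nat.mul_mod, h5, h]; norm_num⟩
    · exact ⟨2, by norm_num, by rw [Nat.mul_mod, h5, h]; norm_num⟩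
    · exact ⟨1, by norm_num, by rw [Nat.mul_mod, h5, h]; norm_num⟩
    · exact ⟨0, by norm_num, by rw [Nat.mul_mod, h5, h]; norm_num⟩
  choose e he1 he2 using h1
  have hsub : (univ.biUnion fun m : Fin M => T0 g m (e m)) ⊆ W := by
    intro x hx
    obtain ⟨m, _, h⟩ := mem_biUnion.1 hx
    exact T0_sub m _ h
  refine ⟨univ.biUnion fun m : Fin M => T0 g m (e m), hsub, fun m => ?_, ?_⟩
  · have hd : Disjoint ((S \ W).filter (fun π => μ π = m))
        ((univ.biUnion fun m : Fin M => T0 g m (e m)).filter (fun π => μ π = m)) := by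
      rw [Finset.disjoint_left]
      intro π h1 h2
      exact (mem_sdiff.1 (mem_filter.1 h1).1).2 (hsub (mem_filter.1 h2).1)
    rw [filter_union, prod_union hd, biUnion_filter hμ, Nat.mul_mod, T0_prod h4 hi m _ (he1 m),
      ← Nat.mul_mod, he2]
  · refine Nat.le_of_dvd (prod_pos fun ρ hρ => ?_) (prod_dvd_prod_of_subset _ _ _ hsub)
    obtain ⟨n, _, rfl⟩ := mem_image.1 hρ
    exact nrm_pos' (pq_ne (hg n))

include hg h4 hi in
/-- the count for fixed marks -/
theorem key {μ : Ei → Fin M} (hμ : ∀ m : Fin M, μ (g (2 * m)) = m ∧ μ (g (2 * m + 1)) = m)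
    {R : Set (Fin M → ℕ)} {r : Fin M → ℕ} (hR : r ∈ R) (hr : ∀ m, r m = 1 ∨ r m = 4 ∨ r m = 7)
    (hr1 : (∏ m, r m) % 9 ≠ 1) (X : ℕ) :
    (SS X).card ≤ ((SS (X * ∏ π ∈ (range (2 * M)).image g, nrm π)).filter (CondM R μ)).card *
      2 ^ ((range (2 * M)).image g).card := by
  set W := (range (2 * M)).image g with hW
  have hT' : ∀ S : Finset Ei, ∃ T : Finset Ei, (∀ π ∈ S, Pq π) → T ⊆ W ∧
      (∀ m, (∏ π ∈ ((S \ W) ∪ T).filter (fun π => μ π = m), nrm π) % 9 = r m) ∧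
      ∏ π ∈ T, nrm π ≤ ∏ π ∈ W, nrm π := by
    intro S
    by_cases h : ∀ π ∈ S, Pq π
    · obtain ⟨T, h1, h2, h3⟩ := exists_T hg h4 hi hμ hr S h
      exact ⟨T, fun _ => ⟨h1, h2, h3⟩⟩
    · exact ⟨∅, fun h' => absurd h' h⟩
  choose T hT2 using hT'
  have hTW : ∀ S, (∀ π ∈ S, Pq π) → Disjoint (S \ W) (T S) := by
    intro S hS
    rw [Finset.disjoint_left]
    intro π h1 h2
    exact (mem_sdiff.1 h1).2 ((hT2 S hS).1 h2)
  rw [← card_powerset, ← card_product]
  refine Finset.card_le_card_of_injOn (fun S => ((S \ W) ∪ T S, S ∩ W)) ?_ ?_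
  · intro S hS
    rw [mem_coe, mem_SS] at hS
    obtain ⟨⟨h1, h2⟩, h3⟩ := hS
    obtain ⟨t1, t2, t3⟩ := hT2 S h1
    have hprod : ∏ π ∈ (S \ W) ∪ T S, nrm π = (∏ π ∈ S \ W, nrm π) * ∏ π ∈ T S, nrm π :=
      prod_union (hTW S h1)
    rw [mem_coe, mem_product, mem_filter, mem_SS, mem_powerset]
    refine ⟨⟨⟨⟨?_, ?_⟩, ?_⟩, ?_⟩, inter_subset_right⟩
    · intro π hπ
      rcases mem_union.1 hπ with h | h
      · exact h1 π (mem_sdiff.1 h).1
      · obtain ⟨n, _, rfl⟩ := mem_image.1 (t1 h)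
        exact hg n
    · show (∏ π ∈ (S \ W) ∪ T S, nrm π) % 9 ≠ 1
      rw [← Finset.prod_fiberwise_of_maps_to (t := (univ : Finset (Fin M))) (g := μ)
        (fun _ _ => mem_univ _), Finset.prod_nat_mod]
      rw [Finset.prod_congr rfl fun m _ => t2 m]
      exact hr1
    · show (∏ π ∈ (S \ W) ∪ T S, nrm π) ≤ X * ∏ π ∈ W, nrm π
      rw [hprod]
      refine Nat.mul_le_mul (le_trans ?_ h3) t3
      refine Nat.le_of_dvd (prod_pos fun ρ hρ => nrm_pos' (pq_ne (h1 ρ hρ))) ?_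
      exact prod_dvd_prod_of_subset _ _ _ sdiff_subset
    · show (fun m => (∏ π ∈ ((S \ W) ∪ T S).filter (fun π => μ π = m), nrm π) % 9) ∈ R
      have h6 : (fun m => (∏ π ∈ ((S \ W) ∪ T S).filter (fun π => μ π = m), nrm π) % 9) = r :=
        funext t2
      rw [h6]
      exact hR
  · intro S hS S' hS' he
    rw [mem_coe, mem_SS] at hS hS'
    have e1 : (S \ W) ∪ T S = (S' \ W) ∪ T S' := congrArg Prod.fst he
    have e2 : S ∩ W = S' ∩ W := congrArg Prod.snd he
    have e3 : ∀ S : Finset Ei, (∀ π ∈ S, Pq π) → ((S \ W) ∪ T S) \ W = S \ W := by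
      intro S hS
      ext π
      rw [mem_sdiff, mem_union]
      constructor
      · rintro ⟨h | h, h'⟩
        · exact h
        · exact absurd ((hT2 S hS).1 h) h'
      · intro h
        exact ⟨Or.inl h, (mem_sdiff.1 h).2⟩
    have e4 : S \ W = S' \ W := by
      rw [← e3 S hS.1.1, ← e3 S' hS'.1.1, e1]
    rw [← sdiff_union_inter S W, ← sdiff_union_inter S' W, e4, e2]

end

theorem condM_congr {M : ℕ} (R : Set (Fin M → ℕ)) (S : Finset Ei) {μ μ' : Ei → Fin M}
    (h : ∀ π ∈ S, μ π = μ' π) : CondM R μ S ↔ CondM R μ' S := by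
  have : ∀ m, S.filter (fun π => μ π = m) = S.filter (fun π => μ' π = m) := fun m =>
    filter_congr fun π hπ => by rw [h π hπ]
  unfold CondM
  simp only [this]

/-- averaging over the marks -/
theorem avg {M : ℕ} (m₁ : Fin M) (Z : Finset (Finset Ei)) (T W : Finset Ei)
    (P : (Ei → Fin M) → Finset Ei → Prop) (G : (Ei → Fin M) → Prop) (b : ℝ) (hb : 0 ≤ b)
    (hWT : W ⊆ T) (hS : ∀ S ∈ Z, S ⊆ T)
    (hP : ∀ (S : Finset Ei) (μ μ' : Ei → Fin M), (∀ π ∈ S, μ π = μ' π) → (P μ S ↔ P μ' S))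
    (hG : ∀ μ μ' : Ei → Fin M, (∀ π ∈ W, μ π = μ' π) → (G μ ↔ G μ'))
    (hfix : ∀ μ, G μ → b ≤ ((Z.filter (P μ)).card : ℝ)) (hex : ∃ f : W → Fin M, G (xt m₁ W f)) :
    1 / (M : ℝ) ^ W.card * b ≤ ∑ S ∈ Z, av m₁ S (fun μ => P μ S) := by
  have hM : 0 < M := lt_of_le_of_lt (Nat.zero_le _) m₁.isLt
  have hM' : (0 : ℝ) < M := by exact_mod_cast hM
  have hav : ∀ S ∈ Z, av m₁ S (fun μ => P μ S) = av m₁ T (fun μ => P μ S) := fun S h =>
    (t_AV M m₁ S T _ (hS S h) fun μ μ' h => hP S μ μ' h).symm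
  rw [Finset.sum_congr rfl hav]
  have h1 : ∑ S ∈ Z, av m₁ T (fun μ => P μ S) =
      (∑ f : T → Fin M, ((Z.filter (P (xt m₁ T f))).card : ℝ)) / M ^ T.card := by
    simp only [av_eq]
    rw [← Finset.sum_div]
    congr 1
    have h7 : ∑ S ∈ Z, (univ.filter fun f : T → Fin M => P (xt m₁ T f) S).card =
        ∑ f : T → Fin M, (Z.filter (P (xt m₁ T f))).card := by
      simp only [card_filter]
      exact Finset.sum_comm
    exact_mod_cast h7
  have hgood : (1 : ℝ) / M ^ W.card ≤ av m₁ T G := by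
    rw [t_AV M m₁ W T G hWT hG, av_eq]
    have h8 : 1 ≤ (univ.filter fun f : W → Fin M => G (xt m₁ W f)).card := by
      rw [Nat.one_le_iff_ne_zero, ← Nat.pos_iff_ne_zero, card_pos]
      obtain ⟨f, hf⟩ := hex
      exact ⟨f, mem_filter.2 ⟨mem_univ _, hf⟩⟩
    have h9 : (1 : ℝ) ≤ ((univ.filter fun f : W → Fin M => G (xt m₁ W f)).card : ℝ) := by
      exact_mod_cast h8
    exact div_le_div_of_nonneg_right h9 (by positivity)
  have hsum : ((univ.filter fun f : T → Fin M => G (xt m₁ T f)).card : ℝ) * b ≤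
      ∑ f : T → Fin M, ((Z.filter (P (xt m₁ T f))).card : ℝ) := by
    rw [← nsmul_eq_mul, ← Finset.sum_const]
    refine le_trans (Finset.sum_le_sum fun f hf => hfix _ (mem_filter.1 hf).2) ?_
    exact Finset.sum_le_sum_of_subset_of_nonneg (filter_subset _ _) fun _ _ _ => Nat.cast_nonneg _
  rw [h1]
  calc 1 / (M : ℝ) ^ W.card * b ≤ av m₁ T G * b := mul_le_mul_of_nonneg_right hgood hb
    _ = ((univ.filter fun f : T → Fin M => G (xt m₁ T f)).card : ℝ) * b / M ^ T.card := by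
        rw [av_eq, div_mul_eq_mul_div]
    _ ≤ _ := div_le_div_of_nonneg_right hsum (by positivity)

/-- the lower bound for fixed marks -/
theorem fixed {M : ℕ} {R : Set (Fin M → ℕ)} {r : Fin M → ℕ} (hR : r ∈ R)
    (hr : ∀ m, r m = 1 ∨ r m = 4 ∨ r m = 7) (hr1 : (∏ m, r m) % 9 ≠ 1) (g : ℕ → Ei)
    (hg : ∀ n, Pq (g n)) (h4 : ∀ n, nrm (g n) % 9 = 4) (hi : Function.Injective g) :
    ∃ (c : ℝ) (X₀ : ℕ), 0 < c ∧ ∀ X : ℕ, X₀ ≤ X → ∀ μ : Ei → Fin M,
      (∀ m : Fin M, μ (g (2 * m)) = m ∧ μ (g (2 * m + 1)) = m) →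
      c * X ≤ (((SS X).filter (CondM R μ)).card : ℝ) := by
  obtain ⟨c, X₀, hc, hlow⟩ := Pool.Agent.Y550.XK.NS.t_LOW
  have hkey := fun (μ : Ei → Fin M) hμ => key (M := M) hg h4 hi (μ := μ) hμ hR hr hr1
  generalize hm : ∏ π ∈ (range (2 * M)).image g, nrm π = m at hkey
  generalize ((range (2 * M)).image g).card = d at hkey
  have hm0 : 0 < m := by
    rw [← hm]
    exact prod_pos fun ρ hρ => by
      obtain ⟨n, _, rfl⟩ := mem_image.1 hρ
      exact nrm_pos' (pq_ne (hg n))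
  have hmr : (0 : ℝ) < m := by exact_mod_cast hm0
  refine ⟨c / (2 * m * 2 ^ d), m * (X₀ + 2), by positivity, fun Y hY μ hμ => ?_⟩
  have hmod := Nat.mod_lt Y hm0
  have hd : m * (Y / m) + Y % m = Y := Nat.div_add_mod Y m
  have hX : X₀ + 2 ≤ Y / m := (Nat.le_div_iff_mul_le hm0).2 (by rw [mul_comm]; exact hY)
  have h1 := hlow (Y / m) (by omega)
  have h2 := hkey μ hμ (Y / m)
  have h3 : ((SS (Y / m * m)).filter (CondM R μ)).card ≤ ((SS Y).filter (CondM R μ)).card :=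
    card_le_card (filter_subset_filter _ (SS_mono (Nat.div_mul_le_self Y m)))
  have h4 : ((SS (Y / m)).card : ℝ) ≤
      (((SS Y).filter (CondM R μ)).card : ℝ) * 2 ^ d := by
    have := h2.trans (Nat.mul_le_mul_right (2 ^ d) h3)
    exact_mod_cast this
  have h5 : (Y : ℝ) ≤ 2 * m * ((Y / m : ℕ) : ℝ) := by
    have h6 : Y ≤ 2 * m * (Y / m) := by
      have : m ≤ m * (Y / m) := Nat.le_mul_of_pos_right _ (by omega)
      nlinarith
    exact_mod_cast h6
  rw [div_mul_eq_mul_div, div_le_iff₀ (by positivity)]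
  calc c * (Y : ℝ) ≤ c * (2 * m * ((Y / m : ℕ) : ℝ)) := mul_le_mul_of_nonneg_left h5 hc.le
    _ = 2 * m * (c * ((Y / m : ℕ) : ℝ)) := by ring
    _ ≤ 2 * m * ((((SS Y).filter (CondM R μ)).card : ℝ) * 2 ^ d) :=
        mul_le_mul_of_nonneg_left (h1.trans h4) (by positivity)
    _ = _ := by ring

end LOWM

theorem t_LOW : S_LOW := by
  rintro M m₁ R ⟨r, hR, hr, hr1⟩
  have hM : 0 < M := lt_of_le_of_lt (Nat.zero_le _) m₁.isLt
  have hM' : (0 : ℝ) < M := by exact_mod_cast hM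
  obtain ⟨g, hg, h4, hi⟩ := exists_seq
  obtain ⟨c, X₀, hc, hfix⟩ := fixed hR hr hr1 g hg h4 hi
  have hmem : ∀ n < 2 * M, g n ∈ (range (2 * M)).image g := fun n hn =>
    mem_image_of_mem _ (mem_range.2 hn)
  refine ⟨1 / (M : ℝ) ^ ((range (2 * M)).image g).card * c, X₀, by positivity, fun Y hY => ?_⟩
  rw [mul_assoc]
  refine avg m₁ (SS Y) (QB Y ∪ (range (2 * M)).image g) ((range (2 * M)).image g) (CondM R)
    (fun μ => ∀ m : Fin M, μ (g (2 * m)) = m ∧ μ (g (2 * m + 1)) = m) (c * Y) (by positivity)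
    subset_union_right ?_ (fun S μ μ' h => condM_congr R S h) ?_ (fun μ hμ => hfix Y hY μ hμ) ?_
  · intro S hS
    unfold SS at hS
    rw [mem_filter, mem_powerset] at hS
    exact hS.1.trans subset_union_left
  · intro μ μ' h
    refine forall_congr' fun m => ?_
    have hmlt := m.isLt
    rw [h _ (hmem _ (by omega)), h _ (hmem _ (by omega))]
  · have hpar : ∀ x : ↥((range (2 * M)).image g), ∃ k : Fin M, ∃ n, n / 2 = (k : ℕ) ∧ g n = x.1 := by
      intro x
      obtain ⟨n, hn, hx⟩ := mem_image.1 x.2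
      rw [mem_range] at hn
      exact ⟨⟨n / 2, by omega⟩, n, rfl, hx⟩
    choose k hk using hpar
    refine ⟨k, fun m => ?_⟩
    have hval : ∀ n (hn : n < 2 * M),
        ((xt m₁ ((range (2 * M)).image g) k (g n) : Fin M) : ℕ) = n / 2 := by
      intro n hn
      have h9 : xt m₁ ((range (2 * M)).image g) k (g n) = k ⟨g n, hmem n hn⟩ :=
        dif_pos (hmem n hn)
      obtain ⟨n', h10, h11⟩ := hk ⟨g n, hmem n hn⟩
      have h12 : n' = n := hi h11
      rw [h9, ← h10, h12]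
    have hmlt := m.isLt
    constructor
    · apply Fin.ext
      rw [hval _ (by omega)]
      omega
    · apply Fin.ext
      rw [hval _ (by omega)]
      omega

end Pool.Agent.H451.JLM
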